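import Pool.Agent.H78.RC.Root

/-!
# Project RC: longest elements

Notation: `e s = Pi.single s 1`, `T w x = (titsHom M w).mulVec x`, `B = bf (kR M)`, `P = posR M J`, `W_J = par M J`.
Let `neg w` be: `w ∈ W_J` and `T (w) (e s) ≤ 0` for all `s ∈ J`.

* Existence (`lw_spec`): `W_J` is finite, take an element of maximal length.
* `IsLong.neg`: for `s ∈ J` `w s ∈ W_J`, so `ℓ (w s) ≤ ℓ w`, hence `s` is a right descent (the lengths differ by
  one): `descent_iff`.
* `neg_posR`: if `neg w`, `r ∈ P`, then `-T (w) r ∈ P`: `r = ∑_{j ∈ J} r_j e j`, so `T (w) r ≤ 0`; `r = T (v) (e s)`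
  and `-T (w) r = T (w v s) (e s)` is a root of `W_J`.
* `inv_neg`: if `neg w` then `neg w⁻¹`: `r ↦ -T (w) r` is injective from the finite set `P` to itself, hence
  surjective, so `e s = -T (w) r` for an `r ∈ P` and `T (w⁻¹) (e s) = -r ≤ 0`.
* `neg_unique`: let `neg w`, `neg w'`, `u = w' w⁻¹ ∈ W_J`. For `s ∈ J` `T (w⁻¹) (e s) = -r`, `r ∈ P`, and
  `T (u) (e s) = -T (w') r ∈ P`, so `≥ 0`; for `s ∉ J` the coordinate `s` of `T (u) (e s)` is `1` (`tits_par`). So
  `u` has no right descent (`descent_iff`; both signs: the vector is zero, contradiction to `B = 2`), hence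
  `u = 1` (`exists_rightDescent_of_ne_one`).
* `lw_mul_self`: `neg (lw)⁻¹` and uniqueness.
* `lw_simple`: let `w = lw M J`, `s ∈ J`, `r = -T (w) (e s) ∈ P`. Then `T (w) r = - e s` (as `w w = 1`). `r` has
  support in `J`, `-T (w) r = ∑_j r_j r^j` with `r^j = -T (w) (e j) ∈ P`, `r_j ≥ 0`; so if `r_j > 0` then `r^j` is
  a multiple of `e s`, hence `r^j = e s` (norm, sign), `e j = -T (w) (e s) = r`. As `r ≠ 0` such a `j` exists:
  `T (w) (e s) = - e j`, `j ∈ J`.
* `exists_perm`: `σ s = j` for `s ∈ J`, `σ s = s` otherwise. `σ σ = 1` since `w w = 1`. `w s w⁻¹ = σ s` by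
  `tits_conj` (with `r = - e (σ s)`) and `rf_unique` or `tits_injective`. `kR` by `bf_tits`, `bf_single`.
* `exists_opp`: `K ↦ K.image σ`. Connectedness: `Con` is transported by `σ` since for `a ≠ b` in `J` `diag` is
  `kR ≠ 0` (`kR_zero`). The set of all `w_J v w_J`, `v ∈ par M K`, is `par M (σ K)` (`par_induction` in both
  directions). Reflections: from this. `lw M (σ K) = w_J w_K w_J`: it is in `par M (σ K)` and for `s ∈ K`
  `T (w_J w_K w_J) (e (σ s)) = T (w_J w_K) (- e s) = T (w_J) r`, `r = -T (w_K) (e s)` a positive root of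
  `W_K ⊆ W_J`, so it is `≤ 0` (`neg_posR`); `neg_unique`.
* `sep_comm`: `j`, `k` commute if `M j k = 2`; `par_induction` twice.
-/

set_option autoImplicit false

open Finset

namespace Pool.Agent.H78.RC

open Pool.Agent.H4.FC

variable {S : Type} [Fintype S] [DecidableEq S]

private theorem Long_mul (M : CoxeterMatrix S) (w v : M.Group) (x : S → ℝ) :
    (titsHom M (w * v)).mulVec x = (titsHom M w).mulVec ((titsHom M v).mulVec x) := by
  rw [map_mul, Matrix.mulVec_mulVec]

private theorem Long_one (M : CoxeterMatrix S) (x : S → ℝ) : (titsHom M 1).mulVec x = x := by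
  rw [map_one, Matrix.one_mulVec]

private theorem Long_inv (M : CoxeterMatrix S) (w : M.Group) (x : S → ℝ) :
    (titsHom M w⁻¹).mulVec ((titsHom M w).mulVec x) = x := by
  rw [← Long_mul, inv_mul_cancel, Long_one]

private theorem Long_simple (M : CoxeterMatrix S) (s : S) (x : S → ℝ) :
    (titsHom M (M.simple s)).mulVec x =
      x - bf (kR M) (Pi.single s 1) x • (Pi.single s 1 : S → ℝ) := by
  have h := tits_conj M 1 s x
  rwa [one_mul, inv_one, mul_one, Long_one] at h

private theorem Long_neg_e (M : CoxeterMatrix S) (s : S) :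
    (titsHom M (M.simple s)).mulVec (Pi.single s 1) = -(Pi.single s 1 : S → ℝ) := by
  rw [Long_simple, bf_single, kR_self]
  module

private theorem Long_apply (M : CoxeterMatrix S) (w : M.Group) (x : S → ℝ) (i : S) :
    (titsHom M w).mulVec x i = ∑ j, x j * (titsHom M w).mulVec (Pi.single j 1) i := by
  rw [Matrix.mulVec, dotProduct]
  refine Finset.sum_congr rfl fun j _ => ?_
  rw [Matrix.mulVec_single_one, mul_comm]
  rfl

private theorem Long_LR (M : CoxeterMatrix S) : LR (kR M) (Sph M) (posR M) :=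
  LR_posR M (Sph M) fun _ h => h

private theorem Long_e_ne {a b : S} (h : (Pi.single a 1 : S → ℝ) = Pi.single b 1) : a = b := by
  by_contra hab
  have h1 := congrFun h a
  rw [Pi.single_eq_same, Pi.single_eq_of_ne hab] at h1
  exact one_ne_zero h1

theorem lw_spec (M : CoxeterMatrix S) {J : Finset S} (hJ : Sph M J) : IsLong M J (lw M J) := by
  have hfin : Finite (par M J) := hJ
  have hex : ∃ w, IsLong M J w := by
    obtain ⟨x, hx⟩ := Finite.exists_max (fun v : par M J => M.toCoxeterSystem.length v.1)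
    exact ⟨x.1, x.2, fun v hv => hx ⟨v, hv⟩⟩
  unfold lw
  rw [dif_pos hex]
  exact hex.choose_spec

theorem IsLong.neg {M : CoxeterMatrix S} {J : Finset S} {w : M.Group} (h : IsLong M J w) {s : S}
    (hs : s ∈ J) (i : S) : (titsHom M w).mulVec (Pi.single s 1) i ≤ 0 := by
  refine (descent_iff M w s).1 ?_ i
  have h1 : w * M.simple s ∈ par M J := mul_mem h.1 (simple_mem_par M hs)
  have h2 := h.2 _ h1
  have h3 := M.toCoxeterSystem.length_mul_simple_ne w s
  rw [M.toCoxeterSystem_simple] at h3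
  unfold CoxeterSystem.IsRightDescent
  rw [M.toCoxeterSystem_simple]
  exact lt_of_le_of_ne h2 h3

theorem neg_posR (M : CoxeterMatrix S) {J : Finset S} (hJ : Sph M J) {w : M.Group}
    (hw : w ∈ par M J) (h : ∀ s ∈ J, ∀ i, (titsHom M w).mulVec (Pi.single s 1) i ≤ 0)
    {r : S → ℝ} (hr : r ∈ posR M J) : -(titsHom M w).mulVec r ∈ posR M J := by
  have h0 := hr
  rw [mem_posR M hJ] at hr ⊢
  obtain ⟨⟨v, hv, s, hs, rfl⟩, hpos⟩ := hr
  refine ⟨⟨w * (v * M.simple s), mul_mem hw (mul_mem hv (simple_mem_par M hs)), s, hs, ?_⟩, ?_⟩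
  · rw [Long_mul, Long_mul, Long_neg_e, Matrix.mulVec_neg, Matrix.mulVec_neg]
  · intro i
    rw [Pi.neg_apply, Long_apply]
    have h1 : ∑ j, (titsHom M v).mulVec (Pi.single s 1) j *
        (titsHom M w).mulVec (Pi.single j 1) i ≤ 0 := by
      refine Finset.sum_nonpos fun j _ => ?_
      by_cases hj : j ∈ J
      · exact mul_nonpos_of_nonneg_of_nonpos (hpos j) (h j hj i)
      · rw [(Long_LR M).supp J hJ _ h0 j hj, zero_mul]
    linarith

private theorem Long_surj (M : CoxeterMatrix S) {J : Finset S} (hJ : Sph M J) {w : M.Group}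
    (hw : w ∈ par M J) (h : ∀ s ∈ J, ∀ i, (titsHom M w).mulVec (Pi.single s 1) i ≤ 0)
    {x : S → ℝ} (hx : x ∈ posR M J) : ∃ r ∈ posR M J, -(titsHom M w).mulVec r = x := by
  classical
  have h1 : Set.InjOn (fun r : S → ℝ => -(titsHom M w).mulVec r) (posR M J : Set (S → ℝ)) := by
    intro a _ b _ hab
    have h2 : (titsHom M w).mulVec a = (titsHom M w).mulVec b := neg_injective hab
    rw [← Long_inv M w a, h2, Long_inv]
  have h3 : Set.MapsTo (fun r : S → ℝ => -(titsHom M w).mulVec r) (posR M J : Set (S → ℝ))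
      (posR M J : Set (S → ℝ)) := fun r hr => neg_posR M hJ hw h hr
  have h4 := Finset.surjOn_of_injOn_of_card_le _ h3 h1 le_rfl
  obtain ⟨r, hr, h5⟩ := h4 hx
  exact ⟨r, hr, h5⟩

theorem inv_neg (M : CoxeterMatrix S) {J : Finset S} (hJ : Sph M J) {w : M.Group}
    (hw : w ∈ par M J) (h : ∀ s ∈ J, ∀ i, (titsHom M w).mulVec (Pi.single s 1) i ≤ 0) {s : S}
    (hs : s ∈ J) (i : S) : (titsHom M w⁻¹).mulVec (Pi.single s 1) i ≤ 0 := by
  obtain ⟨r, hr, h1⟩ := Long_surj M hJ hw h ((Long_LR M).single J hJ s hs)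
  have h2 : (titsHom M w⁻¹).mulVec (Pi.single s 1) = -r := by
    rw [← h1, Matrix.mulVec_neg, Long_inv]
  rw [h2, Pi.neg_apply]
  linarith [(Long_LR M).nonneg J hJ r hr i]

theorem neg_unique (M : CoxeterMatrix S) {J : Finset S} (hJ : Sph M J) {w w' : M.Group}
    (hw : w ∈ par M J) (h : ∀ s ∈ J, ∀ i, (titsHom M w).mulVec (Pi.single s 1) i ≤ 0)
    (hw' : w' ∈ par M J) (h' : ∀ s ∈ J, ∀ i, (titsHom M w').mulVec (Pi.single s 1) i ≤ 0) :
    w = w' := by
  by_contra hne
  have hu : w' * w⁻¹ ≠ 1 := fun h1 => hne (mul_inv_eq_one.1 h1).symm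
  have hmem : w' * w⁻¹ ∈ par M J := mul_mem hw' (inv_mem hw)
  obtain ⟨s, hs⟩ := M.toCoxeterSystem.exists_rightDescent_of_ne_one hu
  have h1 := (descent_iff M _ s).1 hs
  by_cases hsJ : s ∈ J
  · obtain ⟨r, hr, h2⟩ := Long_surj M hJ hw h ((Long_LR M).single J hJ s hsJ)
    have h3 : (titsHom M (w' * w⁻¹)).mulVec (Pi.single s 1) = -(titsHom M w').mulVec r := by
      rw [Long_mul, ← h2, Matrix.mulVec_neg, Long_inv, Matrix.mulVec_neg]
    have h4 := neg_posR M hJ hw' h' hr
    have h5 : (titsHom M (w' * w⁻¹)).mulVec (Pi.single s 1) = 0 := by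
      funext i
      have h6 := (Long_LR M).nonneg J hJ _ h4 i
      rw [← h3] at h6
      exact le_antisymm (h1 i) h6
    have h7 := bf_tits M (w' * w⁻¹) (Pi.single s 1) (Pi.single s 1)
    rw [h5, bf_single, kR_self] at h7
    have h8 := bf_smul_left (kR M) 0 (0 : S → ℝ) 0
    rw [zero_smul, zero_mul] at h8
    rw [h8] at h7
    norm_num at h7
  · have h2 := h1 s
    rw [tits_par M hmem _ hsJ, Pi.single_eq_same] at h2
    linarith

theorem lw_mul_self (M : CoxeterMatrix S) {J : Finset S} (hJ : Sph M J) :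
    lw M J * lw M J = 1 := by
  have h1 := lw_spec M hJ
  have h2 : ∀ s ∈ J, ∀ i, (titsHom M (lw M J)).mulVec (Pi.single s 1) i ≤ 0 :=
    fun s hs i => h1.neg hs i
  have h3 : lw M J = (lw M J)⁻¹ :=
    neg_unique M hJ h1.1 h2 (inv_mem h1.1) fun s hs i => inv_neg M hJ h1.1 h2 hs i
  nth_rewrite 2 [h3]
  exact mul_inv_cancel _

theorem lw_simple (M : CoxeterMatrix S) {J : Finset S} (hJ : Sph M J) {s : S} (hs : s ∈ J) :
    ∃ j ∈ J, (titsHom M (lw M J)).mulVec (Pi.single s 1) = -(Pi.single j 1 : S → ℝ) := by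
  have h1 := lw_spec M hJ
  have h2 : ∀ s ∈ J, ∀ i, (titsHom M (lw M J)).mulVec (Pi.single s 1) i ≤ 0 :=
    fun s hs i => h1.neg hs i
  have hP := Long_LR M
  have hww : ∀ x, (titsHom M (lw M J)).mulVec ((titsHom M (lw M J)).mulVec x) = x := fun x => by
    rw [← Long_mul, lw_mul_self M hJ, Long_one]
  have hrj : ∀ j ∈ J, -(titsHom M (lw M J)).mulVec (Pi.single j 1) ∈ posR M J := fun j hj =>
    neg_posR M hJ h1.1 h2 (hP.single J hJ j hj)
  obtain ⟨r, hr0⟩ : ∃ r, r = -(titsHom M (lw M J)).mulVec (Pi.single s 1) := ⟨_, rfl⟩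
  have hr : r ∈ posR M J := hr0 ▸ hrj s hs
  have hTr : (titsHom M (lw M J)).mulVec r = -(Pi.single s 1 : S → ℝ) := by
    rw [hr0, Matrix.mulVec_neg, hww]
  obtain ⟨j, hj⟩ : ∃ j, 0 < r j := by
    by_contra hc
    push Not at hc
    have h3 : r = 0 := by
      funext i
      exact le_antisymm (hc i) (hP.nonneg J hJ r hr i)
    have h4 := hP.norm J hJ r hr
    rw [h3] at h4
    have h8 := bf_smul_left (kR M) 0 (0 : S → ℝ) 0
    rw [zero_smul, zero_mul] at h8
    rw [h8] at h4
    norm_num at h4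
  have hjJ : j ∈ J := by
    by_contra hc
    rw [hP.supp J hJ r hr j hc] at hj
    exact lt_irrefl _ hj
  have hzero : ∀ i, i ≠ s → (-(titsHom M (lw M J)).mulVec (Pi.single j 1)) i = 0 := by
    intro i hi
    have h3 : ∑ k, r k * (-(titsHom M (lw M J)).mulVec (Pi.single k 1)) i = 0 := by
      have h4 := Long_apply M (lw M J) r i
      rw [hTr, Pi.neg_apply, Pi.single_eq_of_ne hi, neg_zero] at h4
      have h5 : ∀ k, r k * (-(titsHom M (lw M J)).mulVec (Pi.single k 1)) i =
          -(r k * (titsHom M (lw M J)).mulVec (Pi.single k 1) i) := fun k => by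
        rw [Pi.neg_apply, mul_neg]
      rw [Finset.sum_congr rfl fun k _ => h5 k, Finset.sum_neg_distrib, ← h4, neg_zero]
    have h6 : ∀ k ∈ (univ : Finset S), 0 ≤ r k * (-(titsHom M (lw M J)).mulVec (Pi.single k 1)) i := by
      intro k _
      by_cases hk : k ∈ J
      · exact mul_nonneg (hP.nonneg J hJ r hr k) (hP.nonneg J hJ _ (hrj k hk) i)
      · rw [hP.supp J hJ r hr k hk, zero_mul]
    have h7 := (Finset.sum_eq_zero_iff_of_nonneg h6).1 h3 j (mem_univ _)
    exact (mul_eq_zero.1 h7).resolve_left hj.ne'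
  obtain ⟨c, hc⟩ : ∃ c, c = (-(titsHom M (lw M J)).mulVec (Pi.single j 1)) s := ⟨_, rfl⟩
  have hc0 : 0 ≤ c := hc ▸ hP.nonneg J hJ _ (hrj j hjJ) s
  have hvec : -(titsHom M (lw M J)).mulVec (Pi.single j 1) = c • (Pi.single s 1 : S → ℝ) := by
    funext i
    by_cases hi : i = s
    · subst hi
      rw [Pi.smul_apply, Pi.single_eq_same, smul_eq_mul, mul_one, hc]
    · rw [hzero i hi, Pi.smul_apply, Pi.single_eq_of_ne hi, smul_zero]
  have hn := hP.norm J hJ _ (hrj j hjJ)
  rw [hvec, bf_smul_left, bf_smul_right, bf_single, hP.two] at hn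
  have hc1 : c = 1 := by nlinarith
  rw [hc1, one_smul] at hvec
  refine ⟨j, hjJ, ?_⟩
  rw [← hvec, Matrix.mulVec_neg, hww]

theorem exists_perm (M : CoxeterMatrix S) {J : Finset S} (hJ : Sph M J) :
    ∃ σ : S → S, (∀ s, σ (σ s) = s) ∧ (∀ s ∈ J, σ s ∈ J) ∧
      (∀ s ∈ J, lw M J * M.simple s * lw M J = M.simple (σ s)) ∧
      ∀ s ∈ J, ∀ t ∈ J, kR M (σ s) (σ t) = kR M s t := by
  classical
  have hex : ∀ s : S, ∃ j, (s ∈ J → j ∈ J ∧
      (titsHom M (lw M J)).mulVec (Pi.single s 1) = -(Pi.single j 1 : S → ℝ)) ∧ (s ∉ J → j = s) := by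
    intro s
    by_cases hs : s ∈ J
    · obtain ⟨j, hj, h1⟩ := lw_simple M hJ hs
      exact ⟨j, fun _ => ⟨hj, h1⟩, fun h => absurd hs h⟩
    · exact ⟨s, fun h => absurd h hs, fun _ => rfl⟩
  choose σ hσ using hex
  have hww : ∀ x, (titsHom M (lw M J)).mulVec ((titsHom M (lw M J)).mulVec x) = x := fun x => by
    rw [← Long_mul, lw_mul_self M hJ, Long_one]
  have hinv : (lw M J)⁻¹ = lw M J := inv_eq_of_mul_eq_one_left (lw_mul_self M hJ)
  refine ⟨σ, ?_, fun s hs => ((hσ s).1 hs).1, ?_, ?_⟩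
  · intro s
    by_cases hs : s ∈ J
    · obtain ⟨h1, h2⟩ := (hσ s).1 hs
      obtain ⟨h3, h4⟩ := (hσ (σ s)).1 h1
      have h5 := hww (Pi.single s 1)
      rw [h2, Matrix.mulVec_neg, h4, neg_neg] at h5
      exact Long_e_ne h5
    · rw [(hσ s).2 hs, (hσ s).2 hs]
  · intro s hs
    obtain ⟨h1, h2⟩ := (hσ s).1 hs
    apply rf_unique
    intro x
    have h3 := tits_conj M (lw M J) s x
    rw [hinv, h2] at h3
    rw [h3, Long_simple, ← neg_one_smul ℝ (Pi.single (σ s) 1 : S → ℝ), bf_smul_left]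
    module
  · intro s hs t ht
    have h2 := ((hσ s).1 hs).2
    have h3 := ((hσ t).1 ht).2
    have h4 := bf_tits M (lw M J) (Pi.single s 1) (Pi.single t 1)
    rw [h2, h3, ← neg_one_smul ℝ (Pi.single (σ s) 1 : S → ℝ),
      ← neg_one_smul ℝ (Pi.single (σ t) 1 : S → ℝ), bf_smul_left, bf_smul_right, bf_single,
      bf_single] at h4
    linarith

/-- conjugation with the longest element -/
theorem exists_opp (M : CoxeterMatrix S) {J : Finset S} (hJ : Sph M J) :
    ∃ σ : Finset S → Finset S, σ J = J ∧ ∀ K ⊆ J, σ K ⊆ J ∧ (Con (diag M) K → Con (diag M) (σ K)) ∧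
      (∀ t, IsRf M (σ K) t ↔ IsRf M K (lw M J * t * lw M J)) ∧
      lw M (σ K) = lw M J * lw M K * lw M J := by
  classical
  obtain ⟨σ, hs1, hs2, hs3, hs4⟩ := exists_perm M hJ
  have hinv : (lw M J)⁻¹ = lw M J := inv_eq_of_mul_eq_one_left (lw_mul_self M hJ)
  have hself := lw_mul_self M hJ
  have hinj : ∀ a b, σ a = σ b → a = b := fun a b h => by rw [← hs1 a, h, hs1]
  have hconj : ∀ v v' : M.Group, lw M J * (v * v') * lw M J =
      (lw M J * v * lw M J) * (lw M J * v' * lw M J) := by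
    intro v v'
    calc lw M J * (v * v') * lw M J = lw M J * v * 1 * (v' * lw M J) := by group
      _ = lw M J * v * (lw M J * lw M J) * (v' * lw M J) := by rw [hself]
      _ = _ := by group
  have hcc : ∀ v : M.Group, lw M J * (lw M J * v * lw M J) * lw M J = v := by
    intro v
    calc lw M J * (lw M J * v * lw M J) * lw M J = (lw M J * lw M J) * v * (lw M J * lw M J) := by group
      _ = v := by rw [hself, one_mul, mul_one]
  have hcinv : ∀ v : M.Group, lw M J * v⁻¹ * lw M J = (lw M J * v * lw M J)⁻¹ := by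
    intro v
    rw [mul_inv_rev, mul_inv_rev, hinv, mul_assoc]
  have himg : ∀ K ⊆ J, K.image σ ⊆ J := by
    intro K hK x hx
    obtain ⟨a, ha, rfl⟩ := Finset.mem_image.1 hx
    exact hs2 a (hK ha)
  have hup : ∀ K ⊆ J, ∀ v ∈ par M K, lw M J * v * lw M J ∈ par M (K.image σ) := by
    intro K hK
    refine par_induction M K ?_ ?_
    · rw [mul_one, hself]
      exact one_mem _
    · intro v hv x hx
      rw [hconj, hs3 v (hK hv)]
      exact mul_mem (simple_mem_par M (Finset.mem_image_of_mem σ hv)) hx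
  have hdn : ∀ K ⊆ J, ∀ v ∈ par M (K.image σ), lw M J * v * lw M J ∈ par M K := by
    intro K hK
    refine par_induction M (K.image σ) ?_ ?_
    · rw [mul_one, hself]
      exact one_mem _
    · intro v hv x hx
      obtain ⟨a, ha, rfl⟩ := Finset.mem_image.1 hv
      rw [hconj, hs3 (σ a) (hs2 a (hK ha)), hs1]
      exact mul_mem (simple_mem_par M ha) hx
  refine ⟨fun K => K.image σ, ?_, ?_⟩
  · refine Finset.Subset.antisymm (himg J (Finset.Subset.refl _)) ?_
    intro x hx
    exact Finset.mem_image.2 ⟨σ x, hs2 x hx, hs1 x⟩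
  · intro K hK
    refine ⟨himg K hK, ?_, ?_, ?_⟩
    · rintro ⟨hne, hcon⟩
      refine ⟨hne.image σ, ?_⟩
      intro A hA hAne hadj
      have h1 : A.image σ ⊆ K := by
        intro x hx
        obtain ⟨a, ha, rfl⟩ := Finset.mem_image.1 hx
        obtain ⟨b, hb, rfl⟩ := Finset.mem_image.1 (hA ha)
        rwa [hs1]
      have h2 := hcon (A.image σ) h1 (hAne.image σ) ?_
      · rw [← h2]
        ext x
        constructor
        · intro hx
          exact Finset.mem_image.2 ⟨σ x, Finset.mem_image_of_mem σ hx, hs1 x⟩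
        · intro hx
          obtain ⟨a, ha, rfl⟩ := Finset.mem_image.1 hx
          obtain ⟨b, hb, rfl⟩ := Finset.mem_image.1 ha
          rwa [hs1]
      · intro a ha b hb
        obtain ⟨a', ha', rfl⟩ := Finset.mem_image.1 ha
        rw [Finset.mem_sdiff] at hb
        have hb2 : σ b ∈ K.image σ \ A := by
          rw [Finset.mem_sdiff]
          refine ⟨Finset.mem_image_of_mem σ hb.1, fun hc => hb.2 ?_⟩
          exact Finset.mem_image.2 ⟨σ b, hc, hs1 b⟩
        have h3 := hadj a' ha' (σ b) hb2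
        have haJ : σ a' ∈ J := hK (h1 ha)
        have hbJ : b ∈ J := hK hb.1
        intro h4
        apply h3
        have h5 : σ a' ≠ b := h4.1
        have h6 : M (σ a') b ≠ 2 := h4.2
        refine ⟨fun h => h5 (by rw [h, hs1]), ?_⟩
        have h7 : kR M (σ a') b ≠ 0 := fun h => h6 ((kR_zero M h5).1 h)
        have h8 := hs4 (σ a') haJ b hbJ
        rw [hs1] at h8
        have h9 : a' ≠ σ b := fun h => h5 (by rw [h, hs1])
        intro h10
        exact h7 (h8 ▸ (kR_zero M h9).2 h10)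
    · intro t
      constructor
      · rintro ⟨v, hv, s, hs, rfl⟩
        obtain ⟨a, ha, rfl⟩ := Finset.mem_image.1 hs
        refine ⟨lw M J * v * lw M J, hdn K hK v hv, a, ha, ?_⟩
        rw [hconj, hconj, hs3 (σ a) (hs2 a (hK ha)), hs1, hcinv]
      · rintro ⟨v, hv, s, hs, hst⟩
        refine ⟨lw M J * v * lw M J, hup K hK v hv, σ s, Finset.mem_image_of_mem σ hs, ?_⟩
        rw [← hcc t, hst, hconj, hconj, hs3 s (hK hs), hcinv]
    · have hKs : Sph M K := hJ.mono hK
      have hKs' : Sph M (K.image σ) := hJ.mono (himg K hK)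
      have hl1 := lw_spec M hKs'
      have hl2 := lw_spec M hKs
      have hl3 := lw_spec M hJ
      have hP := Long_LR M
      refine neg_unique M hKs' hl1.1 (fun s hs i => hl1.neg hs i) (hup K hK _ hl2.1) ?_
      intro s hs i
      obtain ⟨a, ha, rfl⟩ := Finset.mem_image.1 hs
      obtain ⟨j, hj, h1⟩ := lw_simple M hJ (hs2 a (hK ha))
      have hja : j = a := by
        have h2 := hs3 (σ a) (hs2 a (hK ha))
        rw [hs1] at h2
        have h3 := tits_conj M (lw M J) (σ a) (Pi.single a 1)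
        rw [hinv, h2, h1, Long_neg_e, ← neg_one_smul ℝ (Pi.single j 1 : S → ℝ), bf_smul_left,
          bf_single] at h3
        by_contra hne
        have h4 := congrFun h3 a
        simp only [Pi.neg_apply, Pi.sub_apply, Pi.smul_apply, smul_eq_mul, Pi.single_eq_same,
          Pi.single_eq_of_ne (Ne.symm hne)] at h4
        norm_num at h4
      subst hja
      have h2 : -(titsHom M (lw M K)).mulVec (Pi.single j 1) ∈ posR M K :=
        neg_posR M hKs hl2.1 (fun s hs i => hl2.neg hs i) (hP.single K hKs j ha)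
      have h3 : -(titsHom M (lw M K)).mulVec (Pi.single j 1) ∈ posR M J :=
        hP.mem K J hKs hJ _ h2 fun i hi => hP.supp K hKs _ h2 i fun hc => hi (hK hc)
      have h4 := neg_posR M hJ hl3.1 (fun s hs i => hl3.neg hs i) h3
      have h5 := hP.nonneg J hJ _ h4 i
      rw [Long_mul, Long_mul, h1, Matrix.mulVec_neg]
      rw [Pi.neg_apply] at h5
      linarith

theorem sep_comm (M : CoxeterMatrix S) {J K : Finset S} (h : Sep M J K) {w v : M.Group}
    (hw : w ∈ par M J) (hv : v ∈ par M K) : w * v = v * w := by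
  have h0 : ∀ j ∈ J, ∀ k ∈ K, M.simple j * M.simple k = M.simple k * M.simple j := by
    intro j hj k hk
    have h1 := M.toCoxeterSystem.simple_mul_simple_pow j k
    rw [h j hj k hk, M.toCoxeterSystem_simple] at h1
    have h2 : M.simple j * M.simple k = (M.simple j * M.simple k)⁻¹ := by
      rw [eq_inv_iff_mul_eq_one, ← pow_two]
      exact h1
    rw [h2, mul_inv_rev, simple_inv, simple_inv]
  have h1 : ∀ v ∈ par M K, ∀ j ∈ J, M.simple j * v = v * M.simple j := by
    refine par_induction M K ?_ ?_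
    · intro j _
      rw [mul_one, one_mul]
    · intro k hk v ih j hj
      rw [← mul_assoc, h0 j hj k hk, mul_assoc, ih j hj, mul_assoc]
  have h2 : ∀ w ∈ par M J, w * v = v * w := by
    refine par_induction M J ?_ ?_
    · rw [mul_one, one_mul]
    · intro j hj w ih
      rw [mul_assoc, ih, ← mul_assoc, h1 v hv j hj, mul_assoc]
  exact h2 w hw

end Pool.Agent.H78.RC
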