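import Pool.Agent.H78.RC.Defs

/-!
# Project RC: the invariant form and the signs of the roots

Notation: `k = kR M` (so `k u u = 2`, `k u v = -2 cos (π / m) ≤ 0`, `kR_symm`, `kR_self`), `e s = Pi.single s 1`,
`T w x = (titsHom M w).mulVec x`, `B = bf k`. `T (s) x = x - B (e s) x • e s` by `titsHom_simple`, `refl_mulVec`,
`bf_single_left` (`M.toCoxeterSystem_simple`: `M.toCoxeterSystem.simple = M.simple`).

* `kR_zero`: for `u ≠ v`: `kR M u v = 0 ↔ M u v = 2` (`M u v ≠ 1` by `off_diagonal`; `cos (π / m) = 0` iff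
  `m = 2`, and `cos (π / m) > 0` for `m ≥ 3`; `m = 0`: `-2`; unfold `kR`).
* `bf_...`: finite sums.
* `bf_tits`: for a simple reflection directly from `B (e s) (e s) = 2`; then
  `M.toCoxeterSystem.simple_induction_left` (or `_right`).
* `tits_sign`: if `s` is not a right descent of `w`: `tits_pos`. Otherwise `s` is not a right descent of `w s`
  (`isRightDescent_iff_not_isRightDescent_mul`), and `T (w) (e s) = T (w s) T (s) (e s) = - T (w s) (e s)`.
* `descent_iff`: the same; both signs at once would give `T (w) (e s) = 0`, but `B` of it is `2` (`bf_tits`).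
* `tits_par`: `T (w) x - x` is supported in `J` for `w ∈ W_J` (`par_induction`, for all `x`).
* `tits_conj`: `T (w s w⁻¹) x = x - B r x • r`, `r = T (w) (e s)`: `T (w) (T (s) y) = T (w) y - B (e s) y • r`,
  `y = T (w⁻¹) x`, `B (e s) y = B r x` by `bf_tits`.
-/

set_option autoImplicit false

open Finset

namespace Pool.Agent.H78.RC

open Pool.Agent.H4.FC

variable {S : Type} [Fintype S] [DecidableEq S]

theorem kR_zero (M : CoxeterMatrix S) {u v : S} (h : u ≠ v) : kR M u v = 0 ↔ M u v = 2 := by
  have h1 : M u v ≠ 1 := M.off_diagonal u v h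
  unfold kR
  by_cases h0 : M u v = 0
  · rw [if_pos h0, h0]
    norm_num
  rw [if_neg h0]
  constructor
  · intro hc
    by_contra h2
    have h3 : 3 ≤ M u v := by omega
    have h3' : (3 : ℝ) ≤ M u v := by exact_mod_cast h3
    have hpi := Real.pi_pos
    have h4 : 0 < Real.cos (Real.pi / M u v) := by
      refine Real.cos_pos_of_mem_Ioo ⟨?_, ?_⟩
      · have : 0 < Real.pi / (M u v : ℝ) := by positivity
        linarith
      · rw [div_lt_div_iff₀ (by linarith) (by norm_num)]
        nlinarith
    linarith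
  · intro h2
    rw [h2]
    push_cast
    rw [Real.cos_pi_div_two]
    ring

theorem kR_nonpos (M : CoxeterMatrix S) {u v : S} (h : u ≠ v) : kR M u v ≤ 0 := by
  have h1 : M u v ≠ 1 := M.off_diagonal u v h
  unfold kR
  by_cases h0 : M u v = 0
  · rw [if_pos h0]
    norm_num
  rw [if_neg h0]
  have h3 : 2 ≤ M u v := by omega
  have h3' : (2 : ℝ) ≤ M u v := by exact_mod_cast h3
  have hpi := Real.pi_pos
  have h4 : 0 ≤ Real.cos (Real.pi / M u v) := by
    refine Real.cos_nonneg_of_mem_Icc ⟨?_, ?_⟩
    · have : 0 < Real.pi / (M u v : ℝ) := by positivity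
      linarith
    · rw [div_le_div_iff₀ (by linarith) (by norm_num)]
      nlinarith
  linarith

theorem bf_comm {k : S → S → ℝ} (hk : ∀ u v, k u v = k v u) (x y : S → ℝ) :
    bf k x y = bf k y x := by
  unfold bf
  rw [sum_comm]
  refine sum_congr rfl fun u _ => sum_congr rfl fun v _ => ?_
  rw [hk v u]
  ring

theorem bf_add_left (k : S → S → ℝ) (x y z : S → ℝ) : bf k (x + y) z = bf k x z + bf k y z := by
  unfold bf
  rw [← sum_add_distrib]
  refine sum_congr rfl fun u _ => ?_
  rw [← sum_add_distrib]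
  refine sum_congr rfl fun v _ => ?_
  rw [Pi.add_apply]
  ring

theorem bf_add_right (k : S → S → ℝ) (x y z : S → ℝ) : bf k x (y + z) = bf k x y + bf k x z := by
  unfold bf
  rw [← sum_add_distrib]
  refine sum_congr rfl fun u _ => ?_
  rw [← sum_add_distrib]
  refine sum_congr rfl fun v _ => ?_
  rw [Pi.add_apply]
  ring

theorem bf_smul_left (k : S → S → ℝ) (c : ℝ) (x y : S → ℝ) : bf k (c • x) y = c * bf k x y := by
  unfold bf
  rw [mul_sum]
  refine sum_congr rfl fun u _ => ?_
  rw [mul_sum]
  refine sum_congr rfl fun v _ => ?_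
  rw [Pi.smul_apply, smul_eq_mul]
  ring

theorem bf_smul_right (k : S → S → ℝ) (c : ℝ) (x y : S → ℝ) : bf k x (c • y) = c * bf k x y := by
  unfold bf
  rw [mul_sum]
  refine sum_congr rfl fun u _ => ?_
  rw [mul_sum]
  refine sum_congr rfl fun v _ => ?_
  rw [Pi.smul_apply, smul_eq_mul]
  ring

theorem bf_sub_left (k : S → S → ℝ) (x y z : S → ℝ) : bf k (x - y) z = bf k x z - bf k y z := by
  have h := bf_add_left k (x - y) y z
  rw [sub_add_cancel] at h
  linarith

theorem bf_sub_right (k : S → S → ℝ) (x y z : S → ℝ) : bf k x (y - z) = bf k x y - bf k x z := by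
  have h := bf_add_right k x (y - z) z
  rw [sub_add_cancel] at h
  linarith

theorem bf_sum_left {ι : Type} (k : S → S → ℝ) (A : Finset ι) (x : ι → S → ℝ) (y : S → ℝ) :
    bf k (∑ a ∈ A, x a) y = ∑ a ∈ A, bf k (x a) y := by
  classical
  induction A using Finset.induction_on with
  | empty =>
    rw [sum_empty, sum_empty]
    unfold bf
    simp
  | insert a A ha ih => rw [sum_insert ha, sum_insert ha, bf_add_left, ih]

theorem bf_sum_right {ι : Type} (k : S → S → ℝ) (A : Finset ι) (x : S → ℝ) (y : ι → S → ℝ) :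
    bf k x (∑ a ∈ A, y a) = ∑ a ∈ A, bf k x (y a) := by
  classical
  induction A using Finset.induction_on with
  | empty =>
    rw [sum_empty, sum_empty]
    unfold bf
    simp
  | insert a A ha ih => rw [sum_insert ha, sum_insert ha, bf_add_right, ih]

theorem bf_single_left (k : S → S → ℝ) (s : S) (x : S → ℝ) :
    bf k (Pi.single s 1) x = ∑ u, k s u * x u := by
  unfold bf
  rw [sum_eq_single s]
  · refine sum_congr rfl fun v _ => ?_
    rw [Pi.single_eq_same]
    ring
  · intro u _ hu
    refine sum_eq_zero fun v _ => ?_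
    rw [Pi.single_eq_of_ne hu]
    ring
  · intro h
    exact absurd (mem_univ s) h

theorem bf_single (k : S → S → ℝ) (s t : S) :
    bf k (Pi.single s 1) (Pi.single t 1) = k s t := by
  rw [bf_single_left, sum_eq_single t]
  · rw [Pi.single_eq_same, mul_one]
  · intro u _ hu
    rw [Pi.single_eq_of_ne hu, mul_zero]
  · intro h
    exact absurd (mem_univ t) h

theorem bf_tits (M : CoxeterMatrix S) (w : M.Group) (x y : S → ℝ) :
    bf (kR M) ((titsHom M w).mulVec x) ((titsHom M w).mulVec y) = bf (kR M) x y := by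
  have hs : ∀ (s : S) (x y : S → ℝ), bf (kR M) ((refl (kR M) s).mulVec x)
      ((refl (kR M) s).mulVec y) = bf (kR M) x y := by
    intro s x y
    have hk := kR_symm M
    rw [refl_mulVec, refl_mulVec, ← bf_single_left, ← bf_single_left, bf_sub_left, bf_sub_right,
      bf_sub_right, bf_smul_left, bf_smul_left, bf_smul_right, bf_smul_right, bf_single, kR_self,
      bf_comm hk x (Pi.single s 1)]
    ring
  refine M.toCoxeterSystem.simple_induction_left (p := fun w => ∀ x y : S → ℝ,
    bf (kR M) ((titsHom M w).mulVec x) ((titsHom M w).mulVec y) = bf (kR M) x y) w ?_ ?_ x y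
  · intro x y
    rw [map_one, Matrix.one_mulVec, Matrix.one_mulVec]
  · intro w s ih x y
    rw [map_mul, titsHom_simple, ← Matrix.mulVec_mulVec, ← Matrix.mulVec_mulVec, hs, ih]

private theorem rootA_neg (M : CoxeterMatrix S) (w : M.Group) (s : S)
    (h : ¬ M.toCoxeterSystem.IsRightDescent (w * M.toCoxeterSystem.simple s) s) :
    ∀ i, (titsHom M w).mulVec (Pi.single s 1) i ≤ 0 := by
  intro i
  have h1 := tits_pos M (w * M.toCoxeterSystem.simple s) s h i
  have h2 : (refl (kR M) s).mulVec (Pi.single s 1) = -(Pi.single s 1 : S → ℝ) := by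
    rw [refl_mulVec, ← bf_single_left, bf_single, kR_self, two_smul]
    abel
  rw [map_mul, titsHom_simple, ← Matrix.mulVec_mulVec, h2, Matrix.mulVec_neg, Pi.neg_apply] at h1
  linarith

theorem tits_sign (M : CoxeterMatrix S) (w : M.Group) (s : S) :
    (∀ i, 0 ≤ (titsHom M w).mulVec (Pi.single s 1) i) ∨
      (∀ i, (titsHom M w).mulVec (Pi.single s 1) i ≤ 0) := by
  by_cases h : M.toCoxeterSystem.IsRightDescent w s
  · right
    rw [M.toCoxeterSystem.isRightDescent_iff_not_isRightDescent_mul] at h
    exact rootA_neg M w s h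
  · left
    exact tits_pos M w s h

theorem descent_iff (M : CoxeterMatrix S) (w : M.Group) (s : S) :
    M.toCoxeterSystem.IsRightDescent w s ↔
      ∀ i, (titsHom M w).mulVec (Pi.single s 1) i ≤ 0 := by
  constructor
  · intro h
    rw [M.toCoxeterSystem.isRightDescent_iff_not_isRightDescent_mul] at h
    exact rootA_neg M w s h
  · intro h
    by_contra hc
    have h1 := tits_pos M w s hc
    have h2 : (titsHom M w).mulVec (Pi.single s 1) = 0 := by
      funext i
      exact le_antisymm (h i) (h1 i)
    have h3 := bf_tits M w (Pi.single s 1) (Pi.single s 1)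
    rw [h2, bf_single, kR_self] at h3
    unfold bf at h3
    simp at h3

theorem tits_par (M : CoxeterMatrix S) {J : Finset S} {w : M.Group} (hw : w ∈ par M J)
    (x : S → ℝ) {i : S} (hi : i ∉ J) : (titsHom M w).mulVec x i = x i := by
  refine par_induction M J (p := fun w => (titsHom M w).mulVec x i = x i) ?_ ?_ w hw
  · rw [map_one, Matrix.one_mulVec]
  · intro v hv w ih
    have hiv : i ≠ v := by
      rintro rfl
      exact hi hv
    rw [← M.toCoxeterSystem_simple, map_mul, titsHom_simple, ← Matrix.mulVec_mulVec, refl_mulVec,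
      Pi.sub_apply, Pi.smul_apply, Pi.single_eq_of_ne hiv, smul_zero, sub_zero, ih]

theorem tits_conj (M : CoxeterMatrix S) (w : M.Group) (s : S) (x : S → ℝ) :
    (titsHom M (w * M.simple s * w⁻¹)).mulVec x =
      x - bf (kR M) ((titsHom M w).mulVec (Pi.single s 1)) x •
        (titsHom M w).mulVec (Pi.single s 1) := by
  have h1 : x = (titsHom M w).mulVec ((titsHom M w⁻¹).mulVec x) := by
    rw [Matrix.mulVec_mulVec, ← map_mul, mul_inv_cancel, map_one, Matrix.one_mulVec]
  obtain ⟨y, hy⟩ : ∃ y, y = (titsHom M w⁻¹).mulVec x := ⟨_, rfl⟩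
  rw [← hy] at h1
  rw [map_mul, map_mul, ← Matrix.mulVec_mulVec, ← Matrix.mulVec_mulVec, ← hy,
    ← M.toCoxeterSystem_simple, titsHom_simple, refl_mulVec, ← bf_single_left, Matrix.mulVec_sub,
    Matrix.mulVec_smul, ← bf_tits M w (Pi.single s 1) y, ← h1]

end Pool.Agent.H78.RC
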