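import Pool.Agent.H19.Cub.Stmt
import Pool.Agent.H4.FC.TitsPos
import Pool.Agent.H4.FC.Par

/-!
# Project RC: definitions

Minimal blow-ups of the sphere (finite Coxeter groups) and of the torus (affine Coxeter groups) along the
reflection arrangement, as cube complexes with labelled edges.
-/

set_option autoImplicit false

open Finset

namespace Pool.Agent.H78.RC

open Pool.Agent.H4.FC Pool.Agent.H19.Cub

section

variable {S : Type}

/-- the set `J` of vertices is nonempty and connected in the graph `D` -/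
def Con [DecidableEq S] (D : SimpleGraph S) (J : Finset S) : Prop :=
  J.Nonempty ∧ ∀ A ⊆ J, A.Nonempty → (∀ a ∈ A, ∀ b ∈ J \ A, ¬ D.Adj a b) → A = J

/-- the Coxeter diagram -/
def diag (M : CoxeterMatrix S) : SimpleGraph S where
  Adj u v := u ≠ v ∧ M u v ≠ 2
  symm := ⟨fun u v h => ⟨h.1.symm, by rw [M.symmetric v u]; exact h.2⟩⟩
  loopless := ⟨fun _ h => h.1 rfl⟩

/-- all elements of `J` commute with all elements of `K` -/
def Sep (M : CoxeterMatrix S) (J K : Finset S) : Prop := ∀ j ∈ J, ∀ k ∈ K, M j k = 2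

/-- `t` is a reflection in the parabolic subgroup `W_J` -/
def IsRf (M : CoxeterMatrix S) (J : Finset S) (t : M.Group) : Prop :=
  ∃ w ∈ par M J, ∃ s ∈ J, t = w * M.simple s * w⁻¹

/-- `w` is the longest element of `W_J` -/
def IsLong (M : CoxeterMatrix S) (J : Finset S) (w : M.Group) : Prop :=
  w ∈ par M J ∧ ∀ v ∈ par M J, M.toCoxeterSystem.length v ≤ M.toCoxeterSystem.length w

open Classical in
/-- the longest element of `W_J` -/
noncomputable def lw (M : CoxeterMatrix S) (J : Finset S) : M.Group :=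
  if h : ∃ w, IsLong M J w then h.choose else 1

/-! ### Roots -/

/-- the bilinear form with the matrix `k` -/
def bf [Fintype S] (k : S → S → ℝ) (x y : S → ℝ) : ℝ := ∑ u, ∑ v, k u v * x u * y v

/-- the height -/
def ht [Fintype S] (x : S → ℝ) : ℝ := ∑ u, x u

end

section

variable {S : Type} [Fintype S] [DecidableEq S]

open Classical in
/-- the positive roots of the finite parabolic subgroup `W_J` -/
noncomputable def posR (M : CoxeterMatrix S) (J : Finset S) : Finset (S → ℝ) :=
  ((parF M J ×ˢ J).image fun p => (titsHom M p.1).mulVec (Pi.single p.2 1)).filter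
    fun r => ∀ i, 0 ≤ r i

/-- the properties of the positive roots of the parabolic subgroups `W_J`, `ok J` -/
structure LR (k : S → S → ℝ) (ok : Finset S → Prop) (P : Finset S → Finset (S → ℝ)) : Prop where
  symm : ∀ u v, k u v = k v u
  two : ∀ u, k u u = 2
  nonpos : ∀ u v, u ≠ v → k u v ≤ 0
  nonneg : ∀ J, ok J → ∀ r ∈ P J, ∀ i, 0 ≤ r i
  supp : ∀ J, ok J → ∀ r ∈ P J, ∀ i, i ∉ J → r i = 0
  norm : ∀ J, ok J → ∀ r ∈ P J, bf k r r = 2
  single : ∀ J, ok J → ∀ s ∈ J, Pi.single s 1 ∈ P J
  refl : ∀ J, ok J → ∀ s ∈ J, ∀ r ∈ P J, r ≠ Pi.single s 1 →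
    r - bf k r (Pi.single s 1) • (Pi.single s 1 : S → ℝ) ∈ P J
  mem : ∀ J K, ok J → ok K → ∀ r ∈ P J, (∀ i, i ∉ K → r i = 0) → r ∈ P K
  mix : ∀ J K, ok J → ok K → ∀ r ∈ P J, ∀ r' ∈ P K,
    (∀ i, 0 ≤ (r - bf k r r' • r') i) ∨ (∀ i, (r - bf k r r' • r') i ≤ 0)

/-- the sum of the positive roots -/
noncomputable def rho (P : Finset S → Finset (S → ℝ)) (J : Finset S) : S → ℝ := ∑ r ∈ P J, r

open Classical in
/-- the local matrix -/
noncomputable def tl (k : S → S → ℝ) (P : Finset S → Finset (S → ℝ)) (J K : Finset S) : ℝ :=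
  -∑ r ∈ P J \ P K, ∑ r' ∈ P K \ P J, |bf k r r'|

/-! ### Quotients of the Coxeter group -/

/-- `W` is irreducible, all proper parabolic subgroups are finite (so `W` is finite or affine or
hyperbolic), and `π : W → Q` is surjective, injective on the reflections in the proper standard
parabolic subgroups, and its kernel consists of translations (so it is trivial or `W` is affine). -/
structure IsQuot (M : CoxeterMatrix S) {Q : Type} [Group Q] (π : M.Group →* Q) : Prop where
  irr : Con (diag M) univ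
  fin : ∀ J : Finset S, J ≠ univ → Sph M J
  surj : Function.Surjective π
  loc : ∀ J K : Finset S, J ≠ univ → K ≠ univ → ∀ t t', IsRf M J t → IsRf M K t' → π t = π t' →
    t = t'
  act : ∀ g, π g = 1 → ∀ (x : S → ℝ) (s : S),
    ∑ u, kR M s u * ((titsHom M g).mulVec x u - x u) = 0

variable {Q : Type} [Group Q] [Fintype Q]

open Classical in
/-- the label of the face `J` of the chamber `x`: the images of the reflections which fix this face -/
noncomputable def lbl (M : CoxeterMatrix S) (π : M.Group →* Q) (x : Q) (J : Finset S) : Finset Q :=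
  univ.filter fun q => ∃ t, IsRf M J t ∧ q = x * π t * x⁻¹

/-- `L` is the label of the face `J` of the chamber `x`, a facet in the blow-up -/
def IsLab (M : CoxeterMatrix S) (π : M.Group →* Q) (x : Q) (L : Finset Q) (J : Finset S) : Prop :=
  J ≠ univ ∧ Con (diag M) J ∧ lbl M π x J = L

/-- labels are adjacent if they are nested or orthogonal faces of a chamber -/
def labG (M : CoxeterMatrix S) (π : M.Group →* Q) : SimpleGraph (Finset Q) where
  Adj L L' := L ≠ L' ∧ (L ⊆ L' ∨ L' ⊆ L ∨
    ∃ x J K, IsLab M π x L J ∧ IsLab M π x L' K ∧ Sep M J K)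
  symm := ⟨fun L L' h => ⟨h.1.symm, by
    rcases h.2 with h1 | h1 | ⟨x, J, K, h1, h2, h3⟩
    · exact Or.inr (Or.inl h1)
    · exact Or.inl h1
    · exact Or.inr (Or.inr ⟨x, K, J, h2, h1, fun k hk j hj => by
        rw [M.symmetric k j]
        exact h3 j hj k hk⟩)⟩⟩
  loopless := ⟨fun _ h => h.1 rfl⟩

open Classical in
/-- the labels of the edges at the chamber `x` -/
noncomputable def labF (M : CoxeterMatrix S) (π : M.Group →* Q) (x : Q) : Finset (Finset Q) :=
  univ.filter fun L => ∃ J, IsLab M π x L J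

open Classical in
/-- the other end of the edge: the chamber `x w_J` -/
noncomputable def nbF (M : CoxeterMatrix S) (π : M.Group →* Q) (L : Finset Q) (x : Q) : Q :=
  if h : ∃ J, IsLab M π x L J then x * π (lw M h.choose) else x

omit [Fintype S] [DecidableEq S] in
theorem mem_lbl {M : CoxeterMatrix S} {π : M.Group →* Q} {x : Q} {J : Finset S} {q : Q} :
    q ∈ lbl M π x J ↔ ∃ t, IsRf M J t ∧ q = x * π t * x⁻¹ := by
  classical
  unfold lbl
  rw [mem_filter]
  exact ⟨fun h => h.2, fun h => ⟨mem_univ _, h⟩⟩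

theorem mem_labF {M : CoxeterMatrix S} {π : M.Group →* Q} {x : Q} {L : Finset Q} :
    L ∈ labF M π x ↔ ∃ J, IsLab M π x L J := by
  classical
  unfold labF
  rw [mem_filter]
  exact ⟨fun h => h.2, fun h => ⟨mem_univ _, h⟩⟩

end

end Pool.Agent.H78.RC
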