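import Pool.Agent.H19.Cub.DgSph
import Pool.Agent.H78.RC.Defs

/-!
# Project RC: the complex of nested connected subsets of a connected graph is a homology sphere

`Con D J`: the set `J` of vertices is nonempty and connected in the graph `D`.
`NG B`: the graph on the sets in which `I`, `J` are joined if they are nested, or disjoint and
`I ∪ J` is not in the family `B`.

Main result `nested_sphere`: for a connected set `U` the graph of the connected proper subsets of `U` is
a homology sphere (the dual of the graph associahedron).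

Proof: a vertex `s` with `U \ s` connected exists.  Without the edges at `s` the graph is a suspension of
the one for `U \ s`.  Then the edges at `s` are added one by one.  When the edge `a b` is added to `D0`, the
sets `K` which become connected have exactly two parts `K1 ∋ a`, `K2 ∋ b`, connected in `D0`; adding them in
the order of decreasing size each of them subdivides the edge `K1 K2`.
-/

set_option autoImplicit false

open Finset

namespace Pool.Agent.H78.RC

open Pool.Agent.H85.Fold Pool.Agent.H85.Fold3 Pool.Agent.H19.Cub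

section

variable {S : Type} [DecidableEq S]

theorem con_single (D : SimpleGraph S) (s : S) : Con D {s} := by
  refine ⟨singleton_nonempty s, fun A hA hne _ => ?_⟩
  obtain ⟨x, hx⟩ := hne
  have hxs := mem_singleton.1 (hA hx)
  subst hxs
  exact Subset.antisymm hA (singleton_subset_iff.2 hx)

/-- a closed subset meets a connected set in nothing or everything -/
theorem Con.closed {D : SimpleGraph S} {J A : Finset S} (hJ : Con D J)
    (h : ∀ a ∈ A ∩ J, ∀ b ∈ J, b ∉ A → ¬ D.Adj a b) : Disjoint A J ∨ J ⊆ A := by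
  by_cases hne : (A ∩ J).Nonempty
  · right
    have h1 := hJ.2 (A ∩ J) inter_subset_right hne (fun a ha b hb => by
      rw [mem_sdiff, mem_inter] at hb
      exact h a ha b hb.1 (fun hbA => hb.2 ⟨hbA, hb.1⟩))
    intro x hx
    rw [← h1] at hx
    exact (mem_inter.1 hx).1
  · left
    rw [not_nonempty_iff_eq_empty] at hne
    exact disjoint_iff_inter_eq_empty.2 hne

theorem Con.union {D : SimpleGraph S} {I J : Finset S} (hI : Con D I) (hJ : Con D J)
    (h : (I ∩ J).Nonempty) : Con D (I ∪ J) := by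
  refine ⟨hI.1.mono subset_union_left, fun A hA hne hcl => ?_⟩
  have h1 : Disjoint A I ∨ I ⊆ A := hI.closed fun a ha b hb hbA =>
    hcl a (mem_inter.1 ha).1 b (mem_sdiff.2 ⟨mem_union_left _ hb, hbA⟩)
  have h2 : Disjoint A J ∨ J ⊆ A := hJ.closed fun a ha b hb hbA =>
    hcl a (mem_inter.1 ha).1 b (mem_sdiff.2 ⟨mem_union_right _ hb, hbA⟩)
  obtain ⟨z, hz⟩ := h
  rw [mem_inter] at hz
  obtain ⟨x, hx⟩ := hne
  refine Subset.antisymm hA ?_
  rcases h1 with h1 | h1 <;> rcases h2 with h2 | h2
  · exfalso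
    rcases mem_union.1 (hA hx) with h3 | h3
    · exact Finset.disjoint_left.1 h1 hx h3
    · exact Finset.disjoint_left.1 h2 hx h3
  · exact absurd hz.1 (Finset.disjoint_left.1 h1 (h2 hz.2))
  · exact absurd hz.2 (Finset.disjoint_left.1 h2 (h1 hz.1))
  · exact union_subset h1 h2

theorem Con.union_adj {D : SimpleGraph S} {I J : Finset S} (hI : Con D I) (hJ : Con D J)
    {a b : S} (ha : a ∈ I) (hb : b ∈ J) (hab : D.Adj a b) : Con D (I ∪ J) := by
  refine ⟨hI.1.mono subset_union_left, fun A hA hne hcl => ?_⟩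
  have h1 : Disjoint A I ∨ I ⊆ A := hI.closed fun a ha b hb hbA =>
    hcl a (mem_inter.1 ha).1 b (mem_sdiff.2 ⟨mem_union_left _ hb, hbA⟩)
  have h2 : Disjoint A J ∨ J ⊆ A := hJ.closed fun a ha b hb hbA =>
    hcl a (mem_inter.1 ha).1 b (mem_sdiff.2 ⟨mem_union_right _ hb, hbA⟩)
  obtain ⟨x, hx⟩ := hne
  refine Subset.antisymm hA ?_
  rcases h1 with h1 | h1 <;> rcases h2 with h2 | h2
  · exfalso
    rcases mem_union.1 (hA hx) with h3 | h3
    · exact Finset.disjoint_left.1 h1 hx h3
    · exact Finset.disjoint_left.1 h2 hx h3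
  · exfalso
    exact hcl b (h2 hb) a (mem_sdiff.2 ⟨mem_union_left _ ha,
      fun h3 => Finset.disjoint_left.1 h1 h3 ha⟩) hab.symm
  · exfalso
    exact hcl a (h1 ha) b (mem_sdiff.2 ⟨mem_union_right _ hb,
      fun h3 => Finset.disjoint_left.1 h2 h3 hb⟩) hab
  · exact union_subset h1 h2

/-- the two parts of a connected set are joined by an edge -/
theorem Con.exists_adj {D : SimpleGraph S} {I J : Finset S} (h : Con D (I ∪ J))
    (hI : I.Nonempty) (hJ : J.Nonempty) (hd : Disjoint I J) : ∃ a ∈ I, ∃ b ∈ J, D.Adj a b := by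
  by_contra hcon
  push Not at hcon
  have h1 := h.2 I subset_union_left hI (fun a ha b hb => by
    rw [mem_sdiff, mem_union] at hb
    exact hcon a ha b (hb.1.resolve_left hb.2))
  obtain ⟨x, hx⟩ := hJ
  have h2 : x ∈ I ∪ J := mem_union_right _ hx
  rw [← h1] at h2
  exact Finset.disjoint_left.1 hd h2 hx

theorem Con.mono {D D' : SimpleGraph S} {J : Finset S}
    (hJ : Con D J) (h : ∀ a ∈ J, ∀ b ∈ J, D.Adj a b → D'.Adj a b) : Con D' J := by
  refine ⟨hJ.1, fun A hA hne hcl => hJ.2 A hA hne fun a ha b hb hab => ?_⟩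
  exact hcl a ha b hb (h a (hA ha) b (mem_sdiff.1 hb).1 hab)

/-- non-cut vertices -/
theorem Con.exists_erase {D : SimpleGraph S} {U : Finset S} (hU : Con D U) (h2 : 2 ≤ U.card) :
    ∃ s ∈ U, Con D (U.erase s) := by
  classical
  obtain ⟨x, hx⟩ := hU.1
  have hne : ((U.powerset.erase U).filter fun A => Con D A).Nonempty := by
    refine ⟨{x}, ?_⟩
    rw [mem_filter, mem_erase, mem_powerset]
    refine ⟨⟨fun h => ?_, singleton_subset_iff.2 hx⟩, con_single D x⟩
    rw [← h, card_singleton] at h2
    omega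
  obtain ⟨A, hA, hmax⟩ := exists_max_image _ (fun A => A.card) hne
  rw [mem_filter, mem_erase, mem_powerset] at hA
  obtain ⟨⟨hAU, hsub⟩, hcon⟩ := hA
  have hd : (U \ A).Nonempty := by
    rw [sdiff_nonempty]
    intro h
    exact hAU (Subset.antisymm hsub h)
  have h3 : Con D (A ∪ U \ A) := by
    rw [union_sdiff_of_subset hsub]
    exact hU
  obtain ⟨a, ha, b, hb, hab⟩ := h3.exists_adj hcon.1 hd disjoint_sdiff
  rw [mem_sdiff] at hb
  have h4 : Con D (A ∪ {b}) := hcon.union_adj (con_single D b) ha (mem_singleton_self b) hab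
  have h5 : A ∪ {b} = U := by
    by_contra hne
    have h6 := hmax (A ∪ {b}) (by
      rw [mem_filter, mem_erase, mem_powerset]
      exact ⟨⟨hne, union_subset hsub (singleton_subset_iff.2 hb.1)⟩, h4⟩)
    rw [card_union_of_disjoint (disjoint_singleton_right.2 hb.2), card_singleton] at h6
    omega
  refine ⟨b, hb.1, ?_⟩
  have h7 : U.erase b = A := by
    rw [← h5]
    ext x
    rw [mem_erase, mem_union, mem_singleton]
    constructor
    · rintro ⟨h8, h9 | h9⟩
      · exact h9
      · exact absurd h9 h8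
    · intro h8
      exact ⟨fun h9 => hb.2 (h9 ▸ h8), Or.inl h8⟩
  rw [h7]
  exact hcon

/-- the graph `D` is obtained from `D0` by adding the edge `a b` -/
def AddE (D0 D : SimpleGraph S) (a b : S) : Prop :=
  ∀ x y, D.Adj x y ↔ D0.Adj x y ∨ (x = a ∧ y = b) ∨ (x = b ∧ y = a)

theorem AddE.symm {D0 D : SimpleGraph S} {a b : S} (h : AddE D0 D a b) : AddE D0 D b a := by
  intro x y
  rw [h x y]
  tauto

theorem AddE.con {D0 D : SimpleGraph S} {a b : S} (h : AddE D0 D a b) {J : Finset S}
    (hJ : Con D0 J) : Con D J :=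
  hJ.mono fun x _ y _ hxy => (h x y).2 (Or.inl hxy)

/-- one half of a set which becomes connected -/
theorem AddE.half {D0 D : SimpleGraph S} {a b : S} (h : AddE D0 D a b) {K1 K2 : Finset S}
    (hK : Con D (K1 ∪ K2)) (hd : Disjoint K1 K2) (ha : a ∈ K1) (hb : b ∈ K2)
    (hno : ∀ x ∈ K1, ∀ y ∈ K2, ¬ D0.Adj x y) : Con D0 K1 := by
  have key : ∀ A ⊆ K1, A.Nonempty → a ∉ A → (∀ x ∈ A, ∀ y ∈ K1 \ A, ¬ D0.Adj x y) → False := by
    intro A hA hne haA hcl
    have h1 := hK.2 A (hA.trans subset_union_left) hne (fun x hx y hy hxy => by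
      rw [mem_sdiff, mem_union] at hy
      rcases (h x y).1 hxy with h2 | ⟨h2, -⟩ | ⟨h2, -⟩
      · rcases hy.1 with h3 | h3
        · exact hcl x hx y (mem_sdiff.2 ⟨h3, hy.2⟩) h2
        · exact hno x (hA hx) y h3 h2
      · exact haA (h2 ▸ hx)
      · exact Finset.disjoint_left.1 hd (hA hx) (h2 ▸ hb))
    exact haA (h1 ▸ mem_union_left _ ha)
  refine ⟨⟨a, ha⟩, fun A hA hne hcl => ?_⟩
  have haA : a ∈ A := by
    by_contra haA
    exact key A hA hne haA hcl
  by_contra hne'
  have h2 : (K1 \ A).Nonempty := by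
    rw [sdiff_nonempty]
    intro h3
    exact hne' (Subset.antisymm hA h3)
  refine key (K1 \ A) sdiff_subset h2 (fun h3 => (mem_sdiff.1 h3).2 haA) fun x hx y hy hxy => ?_
  rw [mem_sdiff] at hx hy
  have hyA : y ∈ A := by
    by_contra hyA
    exact hy.2 (mem_sdiff.2 ⟨hy.1, hyA⟩)
  exact hcl y hyA x (mem_sdiff.2 hx) hxy.symm

/-- a set which becomes connected has exactly two parts -/
theorem AddE.split {D0 D : SimpleGraph S} {a b : S} (h : AddE D0 D a b) {K : Finset S}
    (hK : Con D K) (hK0 : ¬ Con D0 K) : ∃ K1 K2 : Finset S, K1 ∪ K2 = K ∧ Disjoint K1 K2 ∧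
      a ∈ K1 ∧ b ∈ K2 ∧ (∀ x ∈ K1, ∀ y ∈ K2, ¬ D0.Adj x y) ∧ Con D0 K1 ∧ Con D0 K2 := by
  obtain ⟨A, hA, hne, hcl, hAK⟩ : ∃ A ⊆ K, A.Nonempty ∧ (∀ a ∈ A, ∀ b ∈ K \ A, ¬ D0.Adj a b) ∧
      A ≠ K := by
    by_contra hcon
    push Not at hcon
    exact hK0 ⟨hK.1, hcon⟩
  obtain ⟨x, hx, y, hy, hxy⟩ : ∃ x ∈ A, ∃ y ∈ K \ A, D.Adj x y := by
    by_contra hcon
    push Not at hcon
    exact hAK (hK.2 A hA hne hcon)
  have hun : A ∪ K \ A = K := union_sdiff_of_subset hA
  have hun' : K \ A ∪ A = K := by rw [union_comm]; exact hun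
  rcases (h x y).1 hxy with h2 | ⟨rfl, rfl⟩ | ⟨rfl, rfl⟩
  · exact absurd h2 (hcl x hx y hy)
  · refine ⟨A, K \ A, hun, disjoint_sdiff, hx, hy, hcl, ?_, ?_⟩
    · exact h.half (hun.symm ▸ hK) disjoint_sdiff hx hy hcl
    · exact h.symm.half (hun'.symm ▸ hK) disjoint_sdiff.symm hy hx
        (fun p hp q hq hpq => hcl q hq p hp hpq.symm)
  · refine ⟨K \ A, A, hun', disjoint_sdiff.symm, hy, hx,
      (fun p hp q hq hpq => hcl q hq p hp hpq.symm), ?_, ?_⟩
    · exact h.half (hun'.symm ▸ hK) disjoint_sdiff.symm hy hx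
        (fun p hp q hq hpq => hcl q hq p hp hpq.symm)
    · exact h.symm.half (hun.symm ▸ hK) disjoint_sdiff hx hy hcl

/-- sets which are nested, or disjoint with union not in the family `B`, are joined -/
def NG (B : Finset S → Prop) : SimpleGraph (Finset S) where
  Adj I J := I ≠ J ∧ (I ⊆ J ∨ J ⊆ I ∨ (Disjoint I J ∧ ¬ B (I ∪ J)))
  symm := ⟨fun I J h => ⟨h.1.symm, by
    rcases h.2 with h1 | h1 | h1
    · exact Or.inr (Or.inl h1)
    · exact Or.inl h1
    · exact Or.inr (Or.inr ⟨h1.1.symm, by rw [union_comm]; exact h1.2⟩)⟩⟩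
  loopless := ⟨fun _ h => h.1 rfl⟩

open Classical in
/-- the proper subsets of `U` in the family -/
noncomputable def CS (B : Finset S → Prop) (U : Finset S) : Finset (Finset S) :=
  (U.powerset.erase U).filter B

open Classical in
theorem mem_CS {B : Finset S → Prop} {U J : Finset S} : J ∈ CS B U ↔ J ⊆ U ∧ J ≠ U ∧ B J := by
  unfold CS
  rw [mem_filter, mem_erase, mem_powerset]
  tauto

/-- the sphere statement -/
def SphOn (B B' : Finset S → Prop) (U : Finset S) (n : ℕ) : Prop :=
  IsHomologySphere ((NG B).comap (Subtype.val : {p // p ∈ CS B' U} → Finset S)) n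

theorem SphOn.congr {B B' C C' : Finset S → Prop} {U : Finset S} {n : ℕ}
    (h : SphOn B B' U n) (h1 : ∀ J ⊆ U, J ≠ U → (B' J ↔ C' J)) (h2 : ∀ J ⊆ U, (B J ↔ C J)) :
    SphOn C C' U n := by
  have hCS : ∀ J, J ∈ CS C' U ↔ J ∈ CS B' U := by
    intro J
    rw [mem_CS, mem_CS]
    constructor
    · rintro ⟨h3, h4, h5⟩
      exact ⟨h3, h4, (h1 J h3 h4).2 h5⟩
    · rintro ⟨h3, h4, h5⟩
      exact ⟨h3, h4, (h1 J h3 h4).1 h5⟩
  refine sphere_iso ?_ h
  refine ⟨Equiv.subtypeEquivRight hCS, ?_⟩
  rintro ⟨I, hI⟩ ⟨J, hJ⟩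
  have hIJ : I ∪ J ⊆ U := union_subset (mem_CS.1 hI).1 (mem_CS.1 hJ).1
  change (I ≠ J ∧ (I ⊆ J ∨ J ⊆ I ∨ (Disjoint I J ∧ ¬ B (I ∪ J)))) ↔
    (I ≠ J ∧ (I ⊆ J ∨ J ⊆ I ∨ (Disjoint I J ∧ ¬ C (I ∪ J))))
  rw [h2 _ hIJ]

/-- suspensions inside a fixed type -/
theorem sphere_susp {V : Type} [DecidableEq V] {G G' : SimpleGraph V} {U : Finset V} {x y : V}
    (hx : x ∉ U) (hy : y ∉ U) (hxy : x ≠ y) (hn : ¬ G'.Adj x y)
    (h1 : ∀ a ∈ U, ∀ b ∈ U, G'.Adj a b ↔ G.Adj a b) (hax : ∀ a ∈ U, G'.Adj a x)
    (hay : ∀ a ∈ U, G'.Adj a y) {n : ℕ}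
    (h : IsHomologySphere (G.comap (Subtype.val : {p // p ∈ U} → V)) n) :
    IsHomologySphere (G'.comap (Subtype.val : {p // p ∈ insert x (insert y U)} → V)) (n + 1) := by
  have h2 := Pool.Agent.H78.Cactus.susp_sphere h
  have hX : x ∈ insert x (insert y U) := mem_insert_self _ _
  have hY : y ∈ insert x (insert y U) := mem_insert_of_mem (mem_insert_self _ _)
  have hI : ∀ a ∈ U, a ∈ insert x (insert y U) := fun a ha =>
    mem_insert_of_mem (mem_insert_of_mem ha)
  set f : {p // p ∈ U} ⊕ Bool → {p // p ∈ insert x (insert y U)} := fun z => match z with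
    | .inl q => ⟨q.1, hI q.1 q.2⟩
    | .inr true => ⟨x, hX⟩
    | .inr false => ⟨y, hY⟩ with hf
  have f1 : ∀ q : {p // p ∈ U}, (f (.inl q)).1 = q.1 := fun _ => rfl
  have f2 : (f (.inr true)).1 = x := rfl
  have f3 : (f (.inr false)).1 = y := rfl
  have hbij : Function.Bijective f := by
    constructor
    · rintro (q | a) (q' | b) hqq
      · have h3 := congrArg Subtype.val hqq
        rw [f1, f1] at h3
        rw [Subtype.ext h3]
      · exfalso
        have h3 := congrArg Subtype.val hqq
        rcases b with _ | _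
        · rw [f1, f3] at h3
          exact hy (h3 ▸ q.2)
        · rw [f1, f2] at h3
          exact hx (h3 ▸ q.2)
      · exfalso
        have h3 := congrArg Subtype.val hqq
        rcases a with _ | _
        · rw [f1, f3] at h3
          exact hy (h3 ▸ q'.2)
        · rw [f1, f2] at h3
          exact hx (h3 ▸ q'.2)
      · have h3 := congrArg Subtype.val hqq
        rcases a with _ | _ <;> rcases b with _ | _
        · rfl
        · rw [f2, f3] at h3
          exact absurd h3.symm hxy
        · rw [f2, f3] at h3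
          exact absurd h3 hxy
        · rfl
    · rintro ⟨a, ha⟩
      rcases mem_insert.1 ha with h3 | h3
      · exact ⟨.inr true, Subtype.ext h3.symm⟩
      · rcases mem_insert.1 h3 with h4 | h4
        · exact ⟨.inr false, Subtype.ext h4.symm⟩
        · exact ⟨.inl ⟨a, h4⟩, Subtype.ext rfl⟩
  set e := Equiv.ofBijective f hbij with he
  have hadj : ∀ a b : {p // p ∈ U} ⊕ Bool, G'.Adj (f a).1 (f b).1 ↔
      (Pool.Agent.H78.Cactus.suspG (G.comap (Subtype.val : {p // p ∈ U} → V))).Adj a b := by
    rintro (q | a) (q' | b)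
    · rw [f1, f1]
      exact h1 _ q.2 _ q'.2
    · refine ⟨fun _ => trivial, fun _ => ?_⟩
      rcases b with _ | _
      · exact hay _ q.2
      · exact hax _ q.2
    · refine ⟨fun _ => trivial, fun _ => ?_⟩
      rcases a with _ | _
      · exact (hay _ q'.2).symm
      · exact (hax _ q'.2).symm
    · refine ⟨fun h3 => ?_, fun h3 => h3.elim⟩
      exfalso
      rcases a with _ | _ <;> rcases b with _ | _
      · exact G'.loopless.irrefl _ h3
      · exact hn h3.symm
      · exact hn h3
      · exact G'.loopless.irrefl _ h3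
  refine sphere_iso ?_ h2
  refine ⟨e.symm, ?_⟩
  intro a b
  have ha : (f (e.symm a)) = a := e.apply_symm_apply a
  have hb : (f (e.symm b)) = b := e.apply_symm_apply b
  rw [← hadj, ha, hb]
  exact Iff.rfl

/-- a connected subset of the union of two sets without edges between them lies in one of them -/
theorem Con.sub_or {D : SimpleGraph S} {J K1 K2 : Finset S} (hJ : Con D J) (h : J ⊆ K1 ∪ K2)
    (hno : ∀ x ∈ K1, ∀ y ∈ K2, ¬ D.Adj x y) : J ⊆ K1 ∨ J ⊆ K2 := by
  rcases hJ.closed (A := K1) (fun a ha b hb hbA => by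
    rw [mem_inter] at ha
    exact hno a ha.1 b ((mem_union.1 (h hb)).resolve_left hbA)) with h1 | h1
  · right
    intro x hx
    exact (mem_union.1 (h hx)).resolve_left fun h2 => Finset.disjoint_left.1 h1 h2 hx
  · exact Or.inl h1

/-- **One subdivision.** `N` is the set of the new sets which are already there (all at least as big as
`K`), `K` is the next one. -/
theorem step {D0 D : SimpleGraph S} {a b : S} (h : AddE D0 D a b) {U : Finset S} (hU : Con D U)
    {N : Finset (Finset S)} {K : Finset S}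
    (hN : ∀ J ∈ N, Con D J ∧ ¬ Con D0 J ∧ K.card ≤ J.card)
    (hmax : ∀ J ⊆ U, J ≠ U → Con D J → ¬ Con D0 J → J ∉ N → J.card ≤ K.card)
    (hKU : K ⊆ U) (hKU' : K ≠ U) (hK : Con D K) (hK0 : ¬ Con D0 K) (hKN : K ∉ N) {n : ℕ}
    (hs : SphOn (fun J => Con D0 J ∨ J = U ∨ J ∈ N) (fun J => Con D0 J ∨ J ∈ N) U n) :
    SphOn (fun J => Con D0 J ∨ J = U ∨ J ∈ insert K N) (fun J => Con D0 J ∨ J ∈ insert K N) U n := by
  obtain ⟨K1, K2, hKK, hd, ha, hb, hno, hc1, hc2⟩ := h.split hK hK0
  have hK1K : K1 ⊆ K := hKK ▸ subset_union_left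
  have hK2K : K2 ⊆ K := hKK ▸ subset_union_right
  have hK1ne : K1 ≠ K := fun h1 => Finset.disjoint_left.1 hd ((h1 ▸ hK2K) hb) hb
  have hK2ne : K2 ≠ K := fun h1 => Finset.disjoint_left.1 hd ha ((h1 ▸ hK1K) ha)
  have hcard : K1.card + K2.card = K.card := by rw [← card_union_of_disjoint hd, hKK]
  have hcard1 : 0 < K1.card := card_pos.2 ⟨a, ha⟩
  have hcard2 : 0 < K2.card := card_pos.2 ⟨b, hb⟩
  -- the members of the family which are proper subsets of K are connected in D0
  have hsub : ∀ J, (Con D0 J ∨ J ∈ N) → J.card < K.card → Con D0 J := by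
    rintro J (h1 | h1) h2
    · exact h1
    · have := (hN J h1).2.2
      omega
  have hconD : ∀ J, (Con D0 J ∨ J ∈ N) → Con D J := by
    rintro J (h1 | h1)
    · exact h.con h1
    · exact (hN J h1).1
  have hfam : ∀ J, J ⊆ U → J ≠ U → Con D J → K.card < J.card → Con D0 J ∨ J ∈ N := by
    intro J hJ hJ' hJc hlt
    by_contra hcon
    push Not at hcon
    have := hmax J hJ hJ' hJc hcon.1 hcon.2
    omega
  have hCS : CS (fun J => Con D0 J ∨ J ∈ insert K N) U =
      insert K (CS (fun J => Con D0 J ∨ J ∈ N) U) := by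
    ext J
    rw [mem_insert, mem_CS, mem_CS, mem_insert]
    constructor
    · rintro ⟨h1, h2, h3 | h3 | h3⟩
      · exact Or.inr ⟨h1, h2, Or.inl h3⟩
      · exact Or.inl h3
      · exact Or.inr ⟨h1, h2, Or.inr h3⟩
    · rintro (rfl | ⟨h1, h2, h3 | h3⟩)
      · exact ⟨hKU, hKU', Or.inr (Or.inl rfl)⟩
      · exact ⟨h1, h2, Or.inl h3⟩
      · exact ⟨h1, h2, Or.inr (Or.inr h3)⟩
  have hB : ∀ J, ¬ (Con D0 J ∨ J = U ∨ J ∈ N) → J ⊆ U → Con D J → J.card ≤ K.card := by
    intro J h1 h2 h3
    push Not at h1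
    exact hmax J h2 h1.2.1 h3 h1.1 h1.2.2
  unfold SphOn
  rw [hCS]
  refine sphere_subdiv (u := K1) (w := K2) (G := NG (fun J => Con D0 J ∨ J = U ∨ J ∈ N))
    ?_ ?_ ?_ ?_ ?_ ?_ hs
  · rw [mem_CS]
    rintro ⟨-, -, h1 | h1⟩
    · exact hK0 h1
    · exact hKN h1
  · rw [mem_CS]
    refine ⟨hK1K.trans hKU, ?_, Or.inl hc1⟩
    intro h1
    exact hK1ne (Subset.antisymm hK1K (h1 ▸ hKU))
  · rw [mem_CS]
    refine ⟨hK2K.trans hKU, ?_, Or.inl hc2⟩
    intro h1
    exact hK2ne (Subset.antisymm hK2K (h1 ▸ hKU))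
  · refine ⟨fun h1 => Finset.disjoint_left.1 hd ha (h1 ▸ ha), Or.inr (Or.inr ⟨hd, ?_⟩)⟩
    rw [hKK]
    rintro (h1 | h1 | h1)
    · exact hK0 h1
    · exact hKU' h1
    · exact hKN h1
  · intro I hI J hJ
    rw [mem_CS] at hI hJ
    -- disjoint sets with union K are the two halves
    have key : Disjoint I J → I ∪ J = K → (I = K1 ∧ J = K2) ∨ (I = K2 ∧ J = K1) := by
      intro hIJ hun
      have hIne := (hconD I hI.2.2).1
      have hJne := (hconD J hJ.2.2).1
      have hcIJ : I.card + J.card = K.card := by rw [← card_union_of_disjoint hIJ, hun]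
      have hIp : 0 < I.card := card_pos.2 hIne
      have hJp : 0 < J.card := card_pos.2 hJne
      have hI0 : Con D0 I := hsub I hI.2.2 (by omega)
      have hJ0 : Con D0 J := hsub J hJ.2.2 (by omega)
      have hIK : I ⊆ K1 ∪ K2 := by rw [hKK, ← hun]; exact subset_union_left
      have hJK : J ⊆ K1 ∪ K2 := by rw [hKK, ← hun]; exact subset_union_right
      have haK : a ∈ I ∪ J := by rw [hun]; exact hK1K ha
      have hbK : b ∈ I ∪ J := by rw [hun]; exact hK2K hb
      have fin : ∀ I J : Finset S, I.card + J.card = K.card → I ⊆ K1 → J ⊆ K2 →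
          I = K1 ∧ J = K2 := by
        intro I J h1 h2 h3
        have h4 := card_le_card h2
        have h5 := card_le_card h3
        exact ⟨eq_of_subset_of_card_le h2 (by omega), eq_of_subset_of_card_le h3 (by omega)⟩
      rcases hI0.sub_or hIK hno with h1 | h1 <;> rcases hJ0.sub_or hJK hno with h2 | h2
      · exfalso
        rcases mem_union.1 hbK with h3 | h3
        · exact Finset.disjoint_left.1 hd (h1 h3) hb
        · exact Finset.disjoint_left.1 hd (h2 h3) hb
      · exact Or.inl (fin I J hcIJ h1 h2)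
      · obtain ⟨h3, h4⟩ := fin J I (by omega) h2 h1
        exact Or.inr ⟨h4, h3⟩
      · exfalso
        rcases mem_union.1 haK with h3 | h3
        · exact Finset.disjoint_left.1 hd ha (h1 h3)
        · exact Finset.disjoint_left.1 hd ha (h2 h3)
    constructor
    · rintro ⟨hne, hor⟩
      have hIJK : Disjoint I J → I ∪ J = K → False := by
        intro h1 h2
        rcases hor with h3 | h3 | h3
        · have hIne := (hconD I hI.2.2).1
          obtain ⟨x, hx⟩ := hIne
          exact Finset.disjoint_left.1 h1 hx (h3 hx)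
        · have hJne := (hconD J hJ.2.2).1
          obtain ⟨x, hx⟩ := hJne
          exact Finset.disjoint_left.1 h1 (h3 hx) hx
        · exact h3.2 (Or.inr (Or.inr (by rw [h2]; exact mem_insert_self _ _)))
      refine ⟨⟨hne, ?_⟩, ?_, ?_⟩
      · rcases hor with h3 | h3 | h3
        · exact Or.inl h3
        · exact Or.inr (Or.inl h3)
        · refine Or.inr (Or.inr ⟨h3.1, fun h4 => h3.2 ?_⟩)
          rcases h4 with h4 | h4 | h4
          · exact Or.inl h4
          · exact Or.inr (Or.inl h4)
          · exact Or.inr (Or.inr (mem_insert_of_mem h4))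
      · rintro ⟨rfl, rfl⟩
        exact hIJK hd hKK
      · rintro ⟨rfl, rfl⟩
        exact hIJK hd.symm (by rw [union_comm]; exact hKK)
    · rintro ⟨⟨hne, hor⟩, h1, h2⟩
      refine ⟨hne, ?_⟩
      rcases hor with h3 | h3 | h3
      · exact Or.inl h3
      · exact Or.inr (Or.inl h3)
      · refine Or.inr (Or.inr ⟨h3.1, ?_⟩)
        rintro (h4 | h4 | h4)
        · exact h3.2 (Or.inl h4)
        · exact h3.2 (Or.inr (Or.inl h4))
        · rcases mem_insert.1 h4 with h5 | h5
          · rcases key h3.1 h5 with h6 | h6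
            · exact h1 h6
            · exact h2 h6
          · exact h3.2 (Or.inr (Or.inr h5))
  · intro J hJ
    rw [mem_CS] at hJ
    obtain ⟨hJU, hJU', hJf⟩ := hJ
    have hJD := hconD J hJf
    have hJK : J ≠ K := by
      rintro rfl
      rcases hJf with h1 | h1
      · exact hK0 h1
      · exact hKN h1
    obtain ⟨z, hz⟩ := hJD.1
    constructor
    · rintro ⟨-, h1 | h1 | h1⟩
      · -- K ⊆ J
        right; right
        refine ⟨⟨?_, Or.inl (hK1K.trans h1)⟩, ⟨?_, Or.inl (hK2K.trans h1)⟩⟩
        · intro h2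
          exact hK1ne (Subset.antisymm hK1K (h2 ▸ h1))
        · intro h2
          exact hK2ne (Subset.antisymm hK2K (h2 ▸ h1))
      · -- J ⊆ K
        have hlt : J.card < K.card := by
          rcases lt_or_eq_of_le (card_le_card h1) with h2 | h2
          · exact h2
          · exact absurd (eq_of_subset_of_card_le h1 h2.ge) hJK
        have hJ0 : Con D0 J := hsub J hJf hlt
        -- a subset of one half is not adjacent to the other half
        have side : ∀ A B : Finset S, A ⊆ K → B ⊆ K → Disjoint A B → A.Nonempty → B.Nonempty →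
            (∀ x ∈ A, ∀ y ∈ B, ¬ D0.Adj x y) → (A ∪ B).card < K.card →
            ¬ (Con D0 (A ∪ B) ∨ A ∪ B = U ∨ A ∪ B ∈ N) := by
          intro A B hA hB hAB hAne hBne hnoAB hcAB
          rintro (h2 | h2 | h2)
          · obtain ⟨x, hx, y, hy, hxy⟩ := h2.exists_adj hAne hBne hAB
            exact hnoAB x hx y hy hxy
          · have h3 := card_le_card hKU
            rw [← h2] at h3
            omega
          · have := (hN _ h2).2.2
            omega
        rcases hJ0.sub_or (hKK.symm ▸ h1) hno with h2 | h2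
        · by_cases h3 : J = K1
          · exact Or.inl h3
          · right; right
            have hltJ : J.card < K1.card := by
              rcases lt_or_eq_of_le (card_le_card h2) with h4 | h4
              · exact h4
              · exact absurd (eq_of_subset_of_card_le h2 h4.ge) h3
            have hdJ : Disjoint K2 J := (hd.mono_left h2).symm
            refine ⟨⟨fun h4 => h3 h4.symm, Or.inr (Or.inl h2)⟩, ⟨?_, Or.inr (Or.inr ⟨hdJ, ?_⟩)⟩⟩
            · intro h4
              exact Finset.disjoint_left.1 hd (h2 (h4 ▸ hb)) hb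
            · refine side K2 J hK2K h1 hdJ ⟨b, hb⟩ ⟨z, hz⟩ ?_ ?_
              · intro x hx y hy hxy
                exact hno y (h2 hy) x hx hxy.symm
              · rw [card_union_of_disjoint hdJ]
                omega
        · by_cases h3 : J = K2
          · exact Or.inr (Or.inl h3)
          · right; right
            have hltJ : J.card < K2.card := by
              rcases lt_or_eq_of_le (card_le_card h2) with h4 | h4
              · exact h4
              · exact absurd (eq_of_subset_of_card_le h2 h4.ge) h3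
            have hdJ : Disjoint K1 J := hd.mono_right h2
            refine ⟨⟨?_, Or.inr (Or.inr ⟨hdJ, ?_⟩)⟩, ⟨fun h4 => h3 h4.symm, Or.inr (Or.inl h2)⟩⟩
            · intro h4
              exact Finset.disjoint_left.1 hd ha (h2 (h4 ▸ ha))
            · refine side K1 J hK1K h1 hdJ ⟨a, ha⟩ ⟨z, hz⟩ ?_ ?_
              · intro x hx y hy hxy
                exact hno x hx y (h2 hy) hxy
              · rw [card_union_of_disjoint hdJ]
                omega
      · -- disjoint
        obtain ⟨hdis, hnB⟩ := h1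
        have half : ∀ A : Finset S, A ⊆ K → A.Nonempty → A.card < K.card →
            ¬ (Con D0 (A ∪ J) ∨ A ∪ J = U ∨ A ∪ J ∈ N) := by
          intro A hA hAne hAK h2
          apply hnB
          obtain ⟨y, hy⟩ := hAne
          have h3 : Con D (A ∪ J) := by
            rcases h2 with h4 | h4 | h4
            · exact h.con h4
            · rw [h4]; exact hU
            · exact (hN _ h4).1
          have h5 : Con D (K ∪ (A ∪ J)) := hK.union h3 ⟨y, mem_inter.2 ⟨hA hy, mem_union_left _ hy⟩⟩
          have h6 : K ∪ (A ∪ J) = K ∪ J := by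
            rw [← union_assoc, union_eq_left.2 hA]
          rw [h6] at h5
          by_cases h7 : K ∪ J = U
          · exact Or.inr (Or.inl h7)
          · have h8 : K.card < (K ∪ J).card := by
              rw [card_union_of_disjoint hdis]
              have : 0 < J.card := card_pos.2 ⟨z, hz⟩
              omega
            rcases hfam _ (union_subset hKU hJU) h7 h5 h8 with h9 | h9
            · exact Or.inl h9
            · exact Or.inr (Or.inr (mem_insert_of_mem h9))
        right; right
        refine ⟨⟨?_, Or.inr (Or.inr ⟨hdis.mono_left hK1K, half K1 hK1K ⟨a, ha⟩ (by omega)⟩)⟩,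
          ⟨?_, Or.inr (Or.inr ⟨hdis.mono_left hK2K, half K2 hK2K ⟨b, hb⟩ (by omega)⟩)⟩⟩
        · intro h2
          exact Finset.disjoint_left.1 hdis (hK1K ha) (h2 ▸ ha)
        · intro h2
          exact Finset.disjoint_left.1 hdis (hK2K hb) (h2 ▸ hb)
    · -- the converse
      -- a member containing one half and disjoint to the other one
      have hov : ∀ A B : Finset S, A ∪ B = K → A.Nonempty → A ⊆ J → Disjoint B J →
          ¬ (Con D0 (B ∪ J) ∨ B ∪ J = U ∨ B ∪ J ∈ N) → J ⊆ K := by
        intro A B hAB hAne hAJ hBJ hnB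
        obtain ⟨y, hy⟩ := hAne
        have hyK : y ∈ K := hAB ▸ mem_union_left _ hy
        have h1 : Con D (K ∪ J) := hK.union hJD ⟨y, mem_inter.2 ⟨hyK, hAJ hy⟩⟩
        have h2 : K ∪ J = B ∪ J := by
          rw [← hAB]
          ext w
          simp only [mem_union]
          constructor
          · rintro ((h3 | h3) | h3)
            · exact Or.inr (hAJ h3)
            · exact Or.inl h3
            · exact Or.inr h3
          · rintro (h3 | h3)
            · exact Or.inl (Or.inr h3)
            · exact Or.inr h3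
        have h3 := hB (K ∪ J) (h2 ▸ hnB) (union_subset hKU hJU) h1
        have h4 : K = K ∪ J := eq_of_subset_of_card_le subset_union_left h3
        rw [h4]
        exact subset_union_right
      rintro (rfl | rfl | ⟨⟨h1n, h1⟩, ⟨h2n, h2⟩⟩)
      · exact ⟨hK1ne.symm, Or.inr (Or.inl hK1K)⟩
      · exact ⟨hK2ne.symm, Or.inr (Or.inl hK2K)⟩
      · refine ⟨hJK.symm, ?_⟩
        rcases h1 with h1 | h1 | h1 <;> rcases h2 with h2 | h2 | h2
        · left
          rw [← hKK]
          exact union_subset h1 h2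
        · exact Or.inr (Or.inl (h2.trans hK2K))
        · exact Or.inr (Or.inl (hov K1 K2 hKK ⟨a, ha⟩ h1 h2.1 h2.2))
        · exact Or.inr (Or.inl (h1.trans hK1K))
        · exact Or.inr (Or.inl (h1.trans hK1K))
        · exact Or.inr (Or.inl (h1.trans hK1K))
        · exact Or.inr (Or.inl (hov K2 K1 (by rw [union_comm]; exact hKK) ⟨b, hb⟩ h2 h1.1 h1.2))
        · exact Or.inr (Or.inl (h2.trans hK2K))
        · -- disjoint to both halves
          have hdis : Disjoint K J := by
            rw [← hKK, disjoint_union_left]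
            exact ⟨h1.1, h2.1⟩
          refine Or.inr (Or.inr ⟨hdis, ?_⟩)
          intro h3
          have h4 : Con D (K ∪ J) := by
            rcases h3 with h3 | h3 | h3
            · exact h.con h3
            · rw [h3]; exact hU
            · rcases mem_insert.1 h3 with h5 | h5
              · rw [h5]; exact hK
              · exact (hN _ h5).1
          -- J is connected in D0, as it does not contain a
          have haJ : a ∉ J := fun h5 => Finset.disjoint_left.1 hdis (hK1K ha) h5
          have hbJ : b ∉ J := fun h5 => Finset.disjoint_left.1 hdis (hK2K hb) h5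
          have hJ0 : Con D0 J := by
            by_contra h5
            obtain ⟨J1, J2, hJJ, -, ha', -⟩ := h.split hJD h5
            exact haJ (hJJ ▸ mem_union_left _ ha')
          obtain ⟨x, hx, y, hy, hxy⟩ := h4.exists_adj hK.1 hJD.1 hdis
          have hxy0 : D0.Adj x y := by
            rcases (h x y).1 hxy with h5 | ⟨-, h5⟩ | ⟨-, h5⟩
            · exact h5
            · exact absurd (h5 ▸ hy) hbJ
            · exact absurd (h5 ▸ hy) haJ
          rw [← hKK, mem_union] at hx
          rcases hx with hx | hx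
          · exact h1.2 (Or.inl (hc1.union_adj hJ0 hx hy hxy0))
          · exact h2.2 (Or.inl (hc2.union_adj hJ0 hx hy hxy0))


/-- **Adding an edge.** -/
theorem edge_add {D0 D : SimpleGraph S} {a b : S} (h : AddE D0 D a b) {U : Finset S}
    (hU : Con D U) {n : ℕ} (hs : SphOn (fun J => Con D0 J ∨ J = U) (Con D0) U n) :
    SphOn (fun J => Con D J ∨ J = U) (Con D) U n := by
  classical
  obtain ⟨T, hT⟩ : ∃ T : Finset (Finset S), ∀ J, J ∈ T ↔ J ⊆ U ∧ J ≠ U ∧ Con D J ∧ ¬ Con D0 J := by
    refine ⟨(U.powerset).filter fun J => J ≠ U ∧ Con D J ∧ ¬ Con D0 J, fun J => ?_⟩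
    rw [mem_filter, mem_powerset]
  have key : ∀ m : ℕ, ∀ N : Finset (Finset S), N.card = m → N ⊆ T →
      (∀ J ∈ N, ∀ K ∈ T, K ∉ N → K.card ≤ J.card) →
      SphOn (fun J => Con D0 J ∨ J = U ∨ J ∈ N) (fun J => Con D0 J ∨ J ∈ N) U n := by
    intro m
    induction m with
    | zero =>
      intro N hN _ _
      rw [card_eq_zero] at hN
      subst hN
      refine hs.congr (fun J _ _ => ?_) (fun J _ => ?_)
      · simp
      · simp
    | succ m ih =>
      intro N hN hNT hdown
      have hne : N.Nonempty := by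
        rw [← card_pos]
        omega
      obtain ⟨K, hK, hmin⟩ := exists_min_image N (fun J => J.card) hne
      have hKT := (hT K).1 (hNT hK)
      have h1 := ih (N.erase K) (by rw [card_erase_of_mem hK]; omega)
        ((erase_subset _ _).trans hNT) (by
          intro J hJ K' hK' hK'N
          rw [mem_erase] at hJ
          by_cases h2 : K' = K
          · rw [h2]
            exact hmin J hJ.2
          · exact hdown J hJ.2 K' hK' fun h3 => hK'N (mem_erase.2 ⟨h2, h3⟩))
      have h2 := step h hU (N := N.erase K) (K := K) (by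
          intro J hJ
          rw [mem_erase] at hJ
          have h3 := (hT J).1 (hNT hJ.2)
          exact ⟨h3.2.2.1, h3.2.2.2, hmin J hJ.2⟩) (by
          intro J hJU hJU' hJc hJ0 hJN
          have hJT : J ∈ T := (hT J).2 ⟨hJU, hJU', hJc, hJ0⟩
          by_cases h3 : J = K
          · rw [h3]
          · exact hdown K hK J hJT fun h4 => hJN (mem_erase.2 ⟨h3, h4⟩))
        hKT.1 hKT.2.1 hKT.2.2.1 hKT.2.2.2 (notMem_erase K N) h1
      rw [insert_erase hK] at h2
      exact h2
  have h1 := key T.card T rfl (Subset.refl _) (fun J _ K hK hKT => absurd hK hKT)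
  refine h1.congr (fun J hJ hJU => ?_) (fun J hJ => ?_)
  · rw [hT]
    constructor
    · rintro (h2 | h2)
      · exact h.con h2
      · exact h2.2.2.1
    · intro h2
      by_cases h3 : Con D0 J
      · exact Or.inl h3
      · exact Or.inr ⟨hJ, hJU, h2, h3⟩
  · rw [hT]
    constructor
    · rintro (h2 | h2 | h2)
      · exact Or.inl (h.con h2)
      · exact Or.inr h2
      · exact Or.inl h2.2.2.1
    · rintro (h2 | h2)
      · by_cases h3 : Con D0 J
        · exact Or.inl h3
        · by_cases h4 : J = U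
          · exact Or.inr (Or.inl h4)
          · exact Or.inr (Or.inr ⟨hJ, h4, h2, h3⟩)
      · exact Or.inr (Or.inl h2)

/-- the graph in which `s` has only the neighbours in `T` -/
def DT (D : SimpleGraph S) (s : S) (T : Finset S) : SimpleGraph S where
  Adj x y := D.Adj x y ∧ (x = s → y ∈ T) ∧ (y = s → x ∈ T)
  symm := ⟨fun _ _ h => ⟨h.1.symm, h.2.2, h.2.1⟩⟩
  loopless := ⟨fun x h => D.loopless.irrefl x h.1⟩

theorem DT_add (D : SimpleGraph S) {s t : S} {T : Finset S} (hst : D.Adj s t) :
    AddE (DT D s T) (DT D s (insert t T)) s t := by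
  intro x y
  change (D.Adj x y ∧ (x = s → y ∈ insert t T) ∧ (y = s → x ∈ insert t T)) ↔
    (D.Adj x y ∧ (x = s → y ∈ T) ∧ (y = s → x ∈ T)) ∨ (x = s ∧ y = t) ∨ (x = t ∧ y = s)
  rw [mem_insert, mem_insert]
  constructor
  · rintro ⟨h1, h2, h3⟩
    by_cases hx : x = s
    · subst hx
      rcases h2 rfl with h4 | h4
      · exact Or.inr (Or.inl ⟨rfl, h4⟩)
      · exact Or.inl ⟨h1, fun _ => h4, fun h5 => absurd (h5 ▸ h1) (D.loopless.irrefl _)⟩
    · by_cases hy : y = s
      · subst hy
        rcases h3 rfl with h4 | h4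
        · exact Or.inr (Or.inr ⟨h4, rfl⟩)
        · exact Or.inl ⟨h1, fun h5 => absurd h5 hx, fun _ => h4⟩
      · exact Or.inl ⟨h1, fun h5 => absurd h5 hx, fun h5 => absurd h5 hy⟩
  · rintro (⟨h1, h2, h3⟩ | ⟨rfl, rfl⟩ | ⟨rfl, rfl⟩)
    · exact ⟨h1, fun h4 => Or.inr (h2 h4), fun h4 => Or.inr (h3 h4)⟩
    · exact ⟨hst, fun _ => Or.inl rfl, fun h4 => absurd (h4 ▸ hst) (D.loopless.irrefl _)⟩
    · exact ⟨hst.symm, fun h4 => absurd (h4 ▸ hst) (D.loopless.irrefl _), fun _ => Or.inl rfl⟩

/-- away from `s` nothing changes -/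
theorem DT_con (D : SimpleGraph S) {s : S} {T J : Finset S} (hJ : s ∉ J) :
    Con (DT D s T) J ↔ Con D J := by
  constructor
  · intro h
    exact h.mono fun _ _ _ _ hab => hab.1
  · intro h
    refine h.mono fun a ha b hb hab => ⟨hab, ?_, ?_⟩
    · rintro rfl
      exact absurd ha hJ
    · rintro rfl
      exact absurd hb hJ

/-- if `s` is isolated then the connected sets with `s` are `{s}` -/
theorem DT_iso (D : SimpleGraph S) {s : S} {J : Finset S} (hJ : Con (DT D s ∅) J) (hs : s ∈ J) :
    J = {s} := by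
  refine (hJ.2 {s} (singleton_subset_iff.2 hs) (singleton_nonempty s) ?_).symm
  intro a ha b _ hab
  rw [mem_singleton] at ha
  have h1 := hab.2.1 ha
  exact absurd h1 (notMem_empty _)

/-- **The suspension.** -/
theorem susp_add (D : SimpleGraph S) {s : S} {U : Finset S} (hs : s ∈ U)
    (hU : Con D (U.erase s)) {n : ℕ} (h : SphOn (Con D) (Con D) (U.erase s) n) :
    SphOn (fun J => Con (DT D s ∅) J ∨ J = U) (Con (DT D s ∅)) U (n + 1) := by
  have hsn : s ∉ U.erase s := notMem_erase s U
  obtain ⟨z, hz⟩ := hU.1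
  have hzs : z ≠ s := fun h1 => hsn (h1 ▸ hz)
  have hCS : CS (Con (DT D s ∅)) U = insert {s} (insert (U.erase s) (CS (Con D) (U.erase s))) := by
    ext J
    rw [mem_insert, mem_insert, mem_CS, mem_CS]
    constructor
    · rintro ⟨h1, h2, h3⟩
      by_cases hsJ : s ∈ J
      · exact Or.inl (DT_iso D h3 hsJ)
      · right
        rw [DT_con D hsJ] at h3
        by_cases h4 : J = U.erase s
        · exact Or.inl h4
        · refine Or.inr ⟨fun x hx => mem_erase.2 ⟨fun h5 => hsJ (h5 ▸ hx), h1 hx⟩, h4, h3⟩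
    · rintro (rfl | rfl | ⟨h1, h2, h3⟩)
      · refine ⟨singleton_subset_iff.2 hs, ?_, con_single _ s⟩
        intro h1
        have h2 : z ∈ ({s} : Finset S) := h1 ▸ (mem_erase.1 hz).2
        exact hzs (mem_singleton.1 h2)
      · refine ⟨erase_subset _ _, ?_, (DT_con D hsn).2 hU⟩
        intro h1
        exact hsn (h1.symm ▸ hs)
      · have hsJ : s ∉ J := fun h4 => hsn (h1 h4)
        refine ⟨h1.trans (erase_subset _ _), ?_, (DT_con D hsJ).2 h3⟩
        intro h4
        exact hsJ (h4 ▸ hs)
  unfold SphOn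
  rw [hCS]
  refine sphere_susp (G := NG (Con D)) ?_ ?_ ?_ ?_ ?_ ?_ ?_ h
  · rw [mem_CS]
    rintro ⟨h1, -, -⟩
    exact hsn (h1 (mem_singleton_self s))
  · rw [mem_CS]
    rintro ⟨-, h1, -⟩
    exact h1 rfl
  · intro h1
    exact hsn (h1 ▸ mem_singleton_self s)
  · rintro ⟨-, h1 | h1 | h1⟩
    · exact hsn (h1 (mem_singleton_self s))
    · exact hzs (mem_singleton.1 (h1 hz))
    · apply h1.2
      right
      ext x
      rw [mem_union, mem_singleton, mem_erase]
      constructor
      · rintro (rfl | h2)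
        · exact hs
        · exact h2.2
      · intro hx
        by_cases h2 : x = s
        · exact Or.inl h2
        · exact Or.inr ⟨h2, hx⟩
  · intro I hI J hJ
    rw [mem_CS] at hI hJ
    have hsI : s ∉ I ∪ J := by
      rw [mem_union]
      rintro (h1 | h1)
      · exact hsn (hI.1 h1)
      · exact hsn (hJ.1 h1)
    change (I ≠ J ∧ (I ⊆ J ∨ J ⊆ I ∨ (Disjoint I J ∧ ¬ (Con (DT D s ∅) (I ∪ J) ∨ I ∪ J = U)))) ↔
      (I ≠ J ∧ (I ⊆ J ∨ J ⊆ I ∨ (Disjoint I J ∧ ¬ Con D (I ∪ J))))
    rw [DT_con D hsI]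
    have h1 : I ∪ J ≠ U := fun h2 => hsI (h2 ▸ hs)
    simp only [h1, or_false]
  · intro J hJ
    rw [mem_CS] at hJ
    have hsJ : s ∉ J := fun h1 => hsn (hJ.1 h1)
    refine ⟨fun h1 => hsJ (h1 ▸ mem_singleton_self s), Or.inr (Or.inr ⟨?_, ?_⟩)⟩
    · rw [disjoint_singleton_right]
      exact hsJ
    · rintro (h1 | h1)
      · have h2 := DT_iso D h1 (mem_union_right _ (mem_singleton_self s))
        obtain ⟨x, hx⟩ := hJ.2.2.1
        have h3 : x ∈ ({s} : Finset S) := h2 ▸ mem_union_left _ hx
        exact hsJ (mem_singleton.1 h3 ▸ hx)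
      · apply hJ.2.1
        refine Subset.antisymm hJ.1 fun x hx => ?_
        rw [mem_erase] at hx
        have h2 : x ∈ J ∪ {s} := h1 ▸ hx.2
        rcases mem_union.1 h2 with h3 | h3
        · exact h3
        · exact absurd (mem_singleton.1 h3) hx.1
  · intro J hJ
    rw [mem_CS] at hJ
    exact ⟨hJ.2.1, Or.inl hJ.1⟩

/-- **The nested sets of connected proper subsets form a sphere.** -/
theorem nested_sphere (D : SimpleGraph S) (U : Finset S) (hU : Con D U) :
    SphOn (Con D) (Con D) U (U.card - 1) := by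
  obtain ⟨m, hm⟩ : ∃ m, m = U.card := ⟨_, rfl⟩
  induction m using Nat.strong_induction_on generalizing U with
  | _ m ih =>
  have hpos : 0 < U.card := card_pos.2 hU.1
  by_cases h1 : U.card = 1
  · obtain ⟨s, rfl⟩ := card_eq_one.1 h1
    rw [h1]
    have hem : IsEmpty {p // p ∈ CS (Con D) ({s} : Finset S)} := by
      refine ⟨fun p => ?_⟩
      obtain ⟨h2, h3, h4⟩ := mem_CS.1 p.2
      rcases subset_singleton_iff.1 h2 with h5 | h5
      · exact h4.1.ne_empty h5
      · exact h3 h5
    exact DgAux.empty_sphere _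
  · obtain ⟨s, hs, hc⟩ := hU.exists_erase (by omega)
    have hcard : (U.erase s).card = U.card - 1 := card_erase_of_mem hs
    have h2 := ih (U.erase s).card (by omega) (U.erase s) hc rfl
    have h3 := susp_add D hs hc h2
    have h4 : (U.erase s).card - 1 + 1 = U.card - 1 := by omega
    rw [h4] at h3
    have hsn : s ∉ U.erase s := notMem_erase s U
    have hUs : U.erase s ∪ {s} = U := by
      ext x
      rw [mem_union, mem_singleton, mem_erase]
      constructor
      · rintro (h5 | rfl)
        · exact h5.2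
        · exact hs
      · intro hx
        by_cases h5 : x = s
        · exact Or.inr h5
        · exact Or.inl ⟨h5, hx⟩
    -- add the edges at s
    have key : ∀ T : Finset S, (∀ t ∈ T, t ∈ U ∧ D.Adj s t) →
        SphOn (fun J => Con (DT D s T) J ∨ J = U) (Con (DT D s T)) U (U.card - 1) := by
      intro T
      induction T using Finset.induction_on with
      | empty => exact fun _ => h3
      | insert t T htT ihT =>
        intro hT
        obtain ⟨htU, hst⟩ := hT t (mem_insert_self _ _)
        refine edge_add (DT_add D (T := T) hst) ?_ (ihT fun x hx => hT x (mem_insert_of_mem hx))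
        have h5 : Con (DT D s (insert t T)) (U.erase s) := (DT_con D hsn).2 hc
        have h6 : (DT D s (insert t T)).Adj t s :=
          ⟨hst.symm, fun h7 => absurd (h7 ▸ hst) (D.loopless.irrefl _),
            fun _ => mem_insert_self _ _⟩
        have h7 := h5.union_adj (con_single _ s)
          (mem_erase.2 ⟨fun h8 => D.loopless.irrefl _ (h8 ▸ hst), htU⟩) (mem_singleton_self s) h6
        rw [hUs] at h7
        exact h7
    classical
    have h5 := key (U.filter fun t => D.Adj s t) (fun t ht => by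
      rw [mem_filter] at ht
      exact ht)
    have h6 : ∀ J ⊆ U, (Con (DT D s (U.filter fun t => D.Adj s t)) J ↔ Con D J) := by
      intro J hJ
      constructor
      · intro h7
        exact h7.mono fun _ _ _ _ hab => hab.1
      · intro h7
        refine h7.mono fun a ha b hb hab => ⟨hab, ?_, ?_⟩
        · rintro rfl
          exact mem_filter.2 ⟨hJ hb, hab⟩
        · rintro rfl
          exact mem_filter.2 ⟨hJ ha, hab.symm⟩
    refine h5.congr (fun J hJ _ => h6 J hJ) (fun J hJ => ?_)
    rw [h6 J hJ]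
    constructor
    · rintro (h7 | h7)
      · exact h7
      · rw [h7]; exact hU
    · exact Or.inl


end

end Pool.Agent.H78.RC
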