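import Pool.Agent.H78.RC.RootA

/-!
# Project RC: the local matrix

`h : LR k ok P` (the positive roots of the parabolic subsystems); `B = bf k`, `e s = Pi.single s 1`. All
statements are elementary consequences of the structure `LR` (the only things used about `bf` are the lemmas
`bf_...` of RootA).

* `LR.mono`: `K ⊆ J`: `supp`, `mem`.
* `exists_full`: take `r ∈ P J` whose support has the maximal number of elements. It is nonempty (norm). If it is
  not all of `J`, there are `a` in the support `A ⊆ J` and `b ∈ J \ A` adjacent (`Con`, `A ≠ J`), so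
  `B r (e b) = ∑_a k b a r_a ≤ k b a r_a < 0` (`nonpos`; `r_b = 0`), and `r - B r (e b) • e b ∈ P J` has the
  support `A ∪ {b}`; contradiction.
* `tl_symm`: `bf_comm`, exchange the sums.
* `tl_nonpos`: clear. `tl_nested`: `P J \ P K = ∅` or `P K \ P J = ∅` (`mono`). `tl_sep`: `B r r' = 0`.
* `tl_neg`: let `J`, `K` be connected, `¬ J ⊆ K`, `¬ K ⊆ J`, and not (disjoint and without edge between them).
  Then there are adjacent `j ∈ J`, `b ∈ K \ J`: if `J ∩ K ≠ ∅` take the closed subset `J ∩ K ≠ K` of the connected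
  set `K`; otherwise given. Let `θ` be the full root of `J` (`exists_full`), `θ ∈ P J \ P K` (its support is not in
  `K`), `e b ∈ P K \ P J`, `B θ (e b) ≤ θ_j k j b < 0`.
-/

set_option autoImplicit false

open Finset

namespace Pool.Agent.H78.RC

variable {S : Type} [Fintype S] [DecidableEq S] {k : S → S → ℝ} {ok : Finset S → Prop}
  {P : Finset S → Finset (S → ℝ)}

theorem LR.mono (h : LR k ok P) {J K : Finset S} (hJ : ok J) (hK : ok K) (hKJ : K ⊆ J) :
    P K ⊆ P J := by
  intro r hr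
  exact h.mem K J hK hJ r hr fun i hi => h.supp K hK r hr i fun hiK => hi (hKJ hiK)

/-- the form of a nonnegative vector and a simple root off its support is negative -/
theorem locA_neg (h : LR k ok P) {r : S → ℝ} (h0 : ∀ i, 0 ≤ r i) {a b : S} (hab : a ≠ b)
    (hk : k a b ≠ 0) (ha : 0 < r a) (hb : r b = 0) : bf k r (Pi.single b 1) < 0 := by
  rw [bf_comm h.symm, bf_single_left]
  apply Finset.sum_neg'
  · intro u _
    rcases eq_or_ne u b with rfl | hu
    · rw [hb, mul_zero]
    · exact mul_nonpos_of_nonpos_of_nonneg (h.nonpos b u hu.symm) (h0 u)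
  · refine ⟨a, mem_univ _, ?_⟩
    have h1 : k b a < 0 := by
      refine lt_of_le_of_ne (h.nonpos b a hab.symm) ?_
      rw [h.symm b a]
      exact hk
    exact mul_neg_of_neg_of_pos h1 ha

theorem exists_full (h : LR k ok P) {D : SimpleGraph S}
    (hD : ∀ a b, D.Adj a b ↔ a ≠ b ∧ k a b ≠ 0) {J : Finset S} (hJ : ok J) (hc : Con D J) :
    ∃ r ∈ P J, ∀ i ∈ J, 0 < r i := by
  classical
  obtain ⟨s, hs⟩ := hc.1
  obtain ⟨r, hr, hmax⟩ := Finset.exists_max_image (P J)
    (fun r => (univ.filter fun i => 0 < r i).card) ⟨_, h.single J hJ s hs⟩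
  refine ⟨r, hr, ?_⟩
  have h0 := h.nonneg J hJ r hr
  set A : Finset S := univ.filter fun i => 0 < r i with hA
  have hAm : ∀ i, i ∈ A ↔ 0 < r i := fun i => by rw [hA, mem_filter]; simp
  have hAJ : A ⊆ J := by
    intro i hi
    by_contra hiJ
    have := (hAm i).1 hi
    rw [h.supp J hJ r hr i hiJ] at this
    exact lt_irrefl _ this
  have hAn : A.Nonempty := by
    by_contra hne
    rw [Finset.not_nonempty_iff_eq_empty] at hne
    have hz : ∀ i, r i = 0 := by
      intro i
      have h1 : ¬ 0 < r i := fun h2 => by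
        have := (hAm i).2 h2
        rw [hne] at this
        simp at this
      exact le_antisymm (not_lt.1 h1) (h0 i)
    have h2 := h.norm J hJ r hr
    have h3 : bf k r r = 0 := by
      unfold bf
      refine Finset.sum_eq_zero fun u _ => Finset.sum_eq_zero fun v _ => ?_
      rw [hz v, mul_zero]
    rw [h3] at h2
    norm_num at h2
  by_cases hAe : A = J
  · intro i hi
    rw [← hAe] at hi
    exact (hAm i).1 hi
  · exfalso
    have h1 : ¬ ∀ a ∈ A, ∀ b ∈ J \ A, ¬ D.Adj a b := fun h2 => hAe (hc.2 A hAJ hAn h2)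
    push Not at h1
    obtain ⟨a, ha, b, hb, hab⟩ := h1
    rw [mem_sdiff] at hb
    have hrb : r b = 0 := by
      refine le_antisymm (not_lt.1 fun h2 => hb.2 ((hAm b).2 h2)) (h0 b)
    have hadj := (hD a b).1 hab
    have hneg := locA_neg h h0 hadj.1 hadj.2 ((hAm a).1 ha) hrb
    have hne : r ≠ Pi.single b 1 := by
      intro h2
      have := congrFun h2 b
      rw [hrb, Pi.single_eq_same] at this
      norm_num at this
    have hr' := h.refl J hJ b hb.1 r hr hne
    have hm := hmax _ hr'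
    have hlt : A.card < (univ.filter fun i =>
        0 < (r - bf k r (Pi.single b 1) • (Pi.single b 1 : S → ℝ)) i).card := by
      apply Finset.card_lt_card
      rw [Finset.ssubset_iff_of_subset]
      · refine ⟨b, ?_, hb.2⟩
        rw [mem_filter]
        refine ⟨mem_univ _, ?_⟩
        rw [Pi.sub_apply, Pi.smul_apply, Pi.single_eq_same, hrb, smul_eq_mul, mul_one, zero_sub]
        exact neg_pos.2 hneg
      · intro i hi
        rw [mem_filter]
        refine ⟨mem_univ _, ?_⟩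
        have hib : i ≠ b := fun h2 => hb.2 (h2 ▸ hi)
        rw [Pi.sub_apply, Pi.smul_apply, Pi.single_eq_of_ne hib, smul_zero, sub_zero]
        exact (hAm i).1 hi
    exact absurd hm (not_le.2 hlt)

theorem tl_symm (hk : ∀ u v, k u v = k v u) (P : Finset S → Finset (S → ℝ)) (J K : Finset S) :
    tl k P J K = tl k P K J := by
  unfold tl
  rw [Finset.sum_comm]
  congr 1
  refine Finset.sum_congr rfl fun r _ => Finset.sum_congr rfl fun r' _ => ?_
  rw [bf_comm hk]

theorem tl_nonpos (k : S → S → ℝ) (P : Finset S → Finset (S → ℝ)) (J K : Finset S) :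
    tl k P J K ≤ 0 := by
  unfold tl
  exact neg_nonpos.2 (Finset.sum_nonneg fun r _ => Finset.sum_nonneg fun r' _ => abs_nonneg _)

theorem tl_nested (h : LR k ok P) {J K : Finset S} (hJ : ok J) (hK : ok K)
    (hn : J ⊆ K ∨ K ⊆ J) : tl k P J K = 0 := by
  unfold tl
  rcases hn with h1 | h1
  · rw [Finset.sdiff_eq_empty_iff_subset.2 (h.mono hK hJ h1), Finset.sum_empty, neg_zero]
  · rw [Finset.sdiff_eq_empty_iff_subset.2 (h.mono hJ hK h1)]
    simp

theorem tl_sep (h : LR k ok P) {J K : Finset S} (hJ : ok J) (hK : ok K)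
    (hs : ∀ j ∈ J, ∀ b ∈ K, k j b = 0) : tl k P J K = 0 := by
  unfold tl
  rw [neg_eq_zero]
  refine Finset.sum_eq_zero fun r hr => Finset.sum_eq_zero fun r' hr' => ?_
  rw [abs_eq_zero]
  unfold bf
  refine Finset.sum_eq_zero fun u _ => Finset.sum_eq_zero fun v _ => ?_
  by_cases hu : u ∈ J
  · by_cases hv : v ∈ K
    · rw [hs u hu v hv, zero_mul, zero_mul]
    · rw [h.supp K hK r' (Finset.mem_sdiff.1 hr').1 v hv, mul_zero]
  · rw [h.supp J hJ r (Finset.mem_sdiff.1 hr).1 u hu, mul_zero, zero_mul]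

theorem tl_neg (h : LR k ok P) {D : SimpleGraph S} (hD : ∀ a b, D.Adj a b ↔ a ≠ b ∧ k a b ≠ 0)
    {J K : Finset S} (hJ : ok J) (hK : ok K) (hcJ : Con D J) (hcK : Con D K) (h1 : ¬ J ⊆ K)
    (h2 : ¬ K ⊆ J) (h3 : ¬ ∀ j ∈ J, ∀ b ∈ K, j ≠ b ∧ ¬ D.Adj j b) : tl k P J K < 0 := by
  classical
  obtain ⟨j, hj, b, hb, hbJ, hjb⟩ : ∃ j ∈ J, ∃ b ∈ K, b ∉ J ∧ D.Adj j b := by
    by_cases hI : (J ∩ K).Nonempty
    · have h4 : ¬ ∀ a ∈ J ∩ K, ∀ b ∈ K \ (J ∩ K), ¬ D.Adj a b := by
        intro h5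
        have h6 := hcK.2 (J ∩ K) Finset.inter_subset_right hI h5
        exact h2 (Finset.inter_eq_right.1 h6)
      push Not at h4
      obtain ⟨a, ha, b, hb, hab⟩ := h4
      rw [mem_inter] at ha
      rw [mem_sdiff, mem_inter] at hb
      exact ⟨a, ha.1, b, hb.1, fun h5 => hb.2 ⟨h5, hb.1⟩, hab⟩
    · push Not at h3
      obtain ⟨j, hj, b, hb, h5⟩ := h3
      have hne : ∀ c, c ∈ J → c ∉ K := fun c hc hcK' => hI ⟨c, mem_inter.2 ⟨hc, hcK'⟩⟩
      have hjb : j ≠ b := fun h6 => hne j hj (h6 ▸ hb)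
      exact ⟨j, hj, b, hb, fun h6 => hne b h6 hb, h5 hjb⟩
  obtain ⟨θ, hθ, hpos⟩ := exists_full h hD hJ hcJ
  have hadj := (hD j b).1 hjb
  have hθb : θ b = 0 := h.supp J hJ θ hθ b hbJ
  have hneg := locA_neg h (h.nonneg J hJ θ hθ) hadj.1 hadj.2 (hpos j hj) hθb
  obtain ⟨i, hi, hiK⟩ := Finset.not_subset.1 h1
  have hθK : θ ∉ P K := fun h5 => by
    have h6 := hpos i hi
    rw [h.supp K hK θ h5 i hiK] at h6
    exact lt_irrefl _ h6
  have hbP : (Pi.single b 1 : S → ℝ) ∉ P J := fun h5 => by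
    have h6 := h.supp J hJ _ h5 b hbJ
    rw [Pi.single_eq_same] at h6
    norm_num at h6
  unfold tl
  rw [neg_lt_zero]
  have h7 : 0 < |bf k θ (Pi.single b 1)| := abs_pos.2 hneg.ne
  refine lt_of_lt_of_le h7 ?_
  refine le_trans ?_ (Finset.single_le_sum
    (f := fun r => ∑ r' ∈ P K \ P J, |bf k r r'|)
    (fun r _ => Finset.sum_nonneg fun r' _ => abs_nonneg _) (Finset.mem_sdiff.2 ⟨hθ, hθK⟩))
  exact Finset.single_le_sum (f := fun r' => |bf k θ r'|) (fun r' _ => abs_nonneg _)
    (Finset.mem_sdiff.2 ⟨h.single K hK b hb, hbP⟩)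

end Pool.Agent.H78.RC
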