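import Pool.Agent.H78.RC.RootA

/-!
# Project RC: the positive roots of the parabolic subgroups

Notation: `k = kR M`, `e s = Pi.single s 1`, `T w x = (titsHom M w).mulVec x`, `B = bf k`.

* `mem_posR`: definition, `mem_parF`.
* `root_par` (the main point): induction on the length of `t = w s w⁻¹`. Let `r = T (w) (e s)`, `r ≥ 0` with
  support in `J`, so `T (t) x = x - B r x • r` (`tits_conj`) and `t = t⁻¹`. `2 = B r r = ∑_j r_j B (e j) r`, so
  there is `j ∈ J` with `r_j > 0`, `c = B (e j) r > 0`. If `r = e j` then done (`w = 1`, `s = j`). Otherwise `r` is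
  not a multiple of `e j` (the norm is `2`, `r ≥ 0`), so there is `i ≠ j` with `r_i > 0`.
  `r' = T (j) r = r - c e_j` has `r'_i > 0`, `r' = T (j w) (e s)` is a root, so `r' ≥ 0` (`tits_sign`), the support
  is in `J`. Let `t' = j t j = (j w) s (j w)⁻¹`. `T (t) (e j) = e j - c r` has a negative coordinate at `i`, so `j`
  is a right descent of `t` (`tits_pos`), and as `t⁻¹ = t` a left descent, `ℓ (j t) < ℓ (t)`.
  `T (j t) (e j) = T (j) (e j - c r) = - e j - c r'` has a negative coordinate at `j`, so `j` is a right descent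
  of `j t`: `ℓ (t') < ℓ (t)`. By induction `r' = T (w') (e s')`, `w' ∈ W_J`, `s' ∈ J`; `r = T (j w') (e s')`.
* `LR_posR`: `refl`: `T (s) r` is a root of `W_J`; if it is `≤ 0` then `r_i = 0` for `i ≠ s` and `r = e s` by the
  norm. `mem`: `root_par`. `mix`: `r' = T (w') (e s')`, `r - B r r' • r' = T (t') r`, `t' = w' s' w'⁻¹`
  (`tits_conj`, `bf_comm`), so it is of the form `T (v) (e s)`: `tits_sign`.
* `root_unique`: apply the identity of the two reflections to `x = r`: `2 • r = B r' r • r'`, so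
  `r = c r'`, and the norms and `r, r' ≥ 0`, `r ≠ 0` give `c = 1`.
* `exists_root`: `t = w s w⁻¹`: `r = T (w) (e s)` or, if this is `≤ 0`, `r = T (w s) (e s) = - T (w) (e s)`.
  `exists_rf` is clear (`tits_conj`).
* `rf_unique`: `tits_injective`.
* `mem_of_isRf`: the root of `M.simple s` is `e s` (`root_unique`) and lies in `posR M J`: its support is in `J`.
* `isRf_iff`: `exists_root`, `exists_rf`, `root_unique`, `rf_unique`.
-/

set_option autoImplicit false

open Finset

namespace Pool.Agent.H78.RC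

open Pool.Agent.H4.FC

variable {S : Type} [Fintype S] [DecidableEq S]

private theorem root_simple (M : CoxeterMatrix S) (j : S) (x : S → ℝ) :
    (titsHom M (M.simple j)).mulVec x =
      x - bf (kR M) (Pi.single j 1) x • (Pi.single j 1 : S → ℝ) := by
  have h := titsHom_simple M j
  rw [M.toCoxeterSystem_simple] at h
  rw [h, refl_mulVec, bf_single_left]

private theorem root_mul (M : CoxeterMatrix S) (w v : M.Group) (x : S → ℝ) :
    (titsHom M (w * v)).mulVec x = (titsHom M w).mulVec ((titsHom M v).mulVec x) := by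
  rw [map_mul, Matrix.mulVec_mulVec]

private theorem root_one (M : CoxeterMatrix S) (x : S → ℝ) :
    (titsHom M (1 : M.Group)).mulVec x = x := by
  rw [map_one, Matrix.one_mulVec]

private theorem root_norm (M : CoxeterMatrix S) (w : M.Group) (s : S) :
    bf (kR M) ((titsHom M w).mulVec (Pi.single s 1)) ((titsHom M w).mulVec (Pi.single s 1)) =
      2 := by
  rw [bf_tits, bf_single, kR_self]

private theorem root_supp (M : CoxeterMatrix S) {J : Finset S} {w : M.Group} (hw : w ∈ par M J)
    {s : S} (hs : s ∈ J) {i : S} (hi : i ∉ J) :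
    (titsHom M w).mulVec (Pi.single s 1) i = 0 := by
  rw [tits_par M hw _ hi]
  refine Pi.single_eq_of_ne ?_ _
  rintro rfl
  exact hi hs

/-- a nonnegative vector of norm `2` which vanishes outside of `s` is `e s` -/
private theorem root_single (M : CoxeterMatrix S) {r : S → ℝ} (h0 : ∀ i, 0 ≤ r i)
    (hn : bf (kR M) r r = 2) {s : S} (h : ∀ i, i ≠ s → r i = 0) : r = Pi.single s 1 := by
  have h1 : r = r s • (Pi.single s 1 : S → ℝ) := by
    funext i
    rw [Pi.smul_apply, smul_eq_mul]
    by_cases hi : i = s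
    · rw [hi, Pi.single_eq_same, mul_one]
    · rw [Pi.single_eq_of_ne hi, mul_zero, h i hi]
  have h2 : r s = 1 := by
    have h3 := hn
    rw [h1, bf_smul_left, bf_smul_right, bf_single, kR_self] at h3
    nlinarith [h0 s]
  rw [h2, one_smul] at h1
  exact h1

private theorem root_bf_sum (k : S → S → ℝ) (r x : S → ℝ) :
    bf k r x = ∑ u, r u * bf k (Pi.single u 1) x := by
  unfold bf
  refine sum_congr rfl fun u _ => ?_
  have h := bf_single_left k u x
  unfold bf at h
  rw [h, mul_sum]
  refine sum_congr rfl fun v _ => ?_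
  ring

theorem mem_posR (M : CoxeterMatrix S) {J : Finset S} (hJ : Sph M J) {r : S → ℝ} :
    r ∈ posR M J ↔ (∃ w ∈ par M J, ∃ s ∈ J, r = (titsHom M w).mulVec (Pi.single s 1)) ∧
      ∀ i, 0 ≤ r i := by
  classical
  unfold posR
  rw [mem_filter, mem_image]
  constructor
  · rintro ⟨⟨⟨w, s⟩, hp, rfl⟩, h⟩
    rw [mem_product, mem_parF hJ] at hp
    exact ⟨⟨w, hp.1, s, hp.2, rfl⟩, h⟩
  · rintro ⟨⟨w, hw, s, hs, rfl⟩, h⟩
    refine ⟨⟨(w, s), ?_, rfl⟩, h⟩
    rw [mem_product, mem_parF hJ]
    exact ⟨hw, hs⟩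

/-- a positive root with support in `J` is a root of `W_J` -/
theorem root_par (M : CoxeterMatrix S) {J : Finset S} (w : M.Group) (s : S) (r : S → ℝ)
    (hr : r = (titsHom M w).mulVec (Pi.single s 1)) (h0 : ∀ i, 0 ≤ r i)
    (hJ : ∀ i, i ∉ J → r i = 0) :
    ∃ w' ∈ par M J, ∃ s' ∈ J, r = (titsHom M w').mulVec (Pi.single s' 1) := by
  obtain ⟨n, hn⟩ : ∃ n, n = M.toCoxeterSystem.length (w * M.simple s * w⁻¹) := ⟨_, rfl⟩
  induction n using Nat.strong_induction_on generalizing w s r with
  | _ n ih =>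
  have hnorm : bf (kR M) r r = 2 := by rw [hr]; exact root_norm M w s
  obtain ⟨j, -, hj⟩ : ∃ j ∈ (univ : Finset S), 0 < r j * bf (kR M) (Pi.single j 1) r := by
    refine exists_lt_of_sum_lt ?_
    rw [← root_bf_sum, hnorm, sum_const_zero]
    exact two_pos
  have hrj : 0 < r j := by
    refine lt_of_le_of_ne (h0 j) fun h => ?_
    rw [← h, zero_mul] at hj
    exact lt_irrefl _ hj
  have hc : 0 < bf (kR M) (Pi.single j 1) r := (mul_pos_iff_of_pos_left hrj).mp hj
  have hjJ : j ∈ J := by
    by_contra h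
    exact absurd (hJ j h) hrj.ne'
  by_cases hA : ∀ i, i ≠ j → r i = 0
  · refine ⟨1, one_mem _, j, hjJ, ?_⟩
    rw [root_one]
    exact root_single M h0 hnorm hA
  push Not at hA
  obtain ⟨i, hij, hri⟩ := hA
  have hri' : 0 < r i := lt_of_le_of_ne (h0 i) (Ne.symm hri)
  obtain ⟨c, hcd⟩ : ∃ c, c = bf (kR M) (Pi.single j 1) r := ⟨_, rfl⟩
  rw [← hcd] at hc
  obtain ⟨r', hr'⟩ : ∃ r' : S → ℝ, r' = r - c • (Pi.single j 1 : S → ℝ) := ⟨_, rfl⟩
  have hTr : (titsHom M (M.simple j)).mulVec r = r' := by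
    rw [root_simple, ← hcd, hr']
  have hr'T : r' = (titsHom M (M.simple j * w)).mulVec (Pi.single s 1) := by
    rw [root_mul, ← hr, hTr]
  have hr'i : ∀ l, l ≠ j → r' l = r l := by
    intro l hl
    rw [hr', Pi.sub_apply, Pi.smul_apply, Pi.single_eq_of_ne hl, smul_zero, sub_zero]
  have hr'0 : ∀ l, 0 ≤ r' l := by
    rcases tits_sign M (M.simple j * w) s with h | h
    · intro l
      rw [hr'T]
      exact h l
    · exfalso
      have h1 := h i
      rw [← hr'T, hr'i i hij] at h1
      exact absurd h1 (not_le.mpr hri')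
  have hr'J : ∀ l, l ∉ J → r' l = 0 := by
    intro l hl
    rw [hr'i l (fun h => hl (h ▸ hjJ)), hJ l hl]
  obtain ⟨t, ht⟩ : ∃ t, t = w * M.simple s * w⁻¹ := ⟨_, rfl⟩
  have hTt : ∀ x, (titsHom M t).mulVec x = x - bf (kR M) r x • r := by
    intro x
    rw [ht, tits_conj, ← hr]
  have htinv : t⁻¹ = t := by
    rw [ht, mul_inv_rev, mul_inv_rev, inv_inv, simple_inv, mul_assoc]
  have hTtj : (titsHom M t).mulVec (Pi.single j 1) = (Pi.single j 1 : S → ℝ) - c • r := by
    rw [hTt, bf_comm (kR_symm M) r, ← hcd]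
  have hd1 : M.toCoxeterSystem.IsRightDescent t j := by
    rw [descent_iff]
    rcases tits_sign M t j with h | h
    · exfalso
      have h1 := h i
      rw [hTtj, Pi.sub_apply, Pi.smul_apply, Pi.single_eq_of_ne hij, zero_sub, smul_eq_mul] at h1
      nlinarith
    · exact h
  have hd2 : M.toCoxeterSystem.IsLeftDescent t j := by
    rw [← M.toCoxeterSystem.isRightDescent_inv_iff, htinv]
    exact hd1
  have hl1 : M.toCoxeterSystem.length (M.simple j * t) < M.toCoxeterSystem.length t := hd2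
  have hd3 : M.toCoxeterSystem.IsRightDescent (M.simple j * t) j := by
    rw [descent_iff]
    rcases tits_sign M (M.simple j * t) j with h | h
    · exfalso
      have h1 := h j
      have h2 : (titsHom M (M.simple j * t)).mulVec (Pi.single j 1) =
          -(Pi.single j 1 : S → ℝ) - c • r' := by
        rw [root_mul, hTtj, Matrix.mulVec_sub, Matrix.mulVec_smul, hTr, root_simple, bf_single,
          kR_self, two_smul]
        abel
      rw [h2, Pi.sub_apply, Pi.neg_apply, Pi.smul_apply, Pi.single_eq_same, smul_eq_mul] at h1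
      have h3 := mul_nonneg hc.le (hr'0 j)
      linarith
    · exact h
  have hl2 : M.toCoxeterSystem.length (M.simple j * t * M.simple j) <
      M.toCoxeterSystem.length (M.simple j * t) := hd3
  have htt : M.simple j * w * M.simple s * (M.simple j * w)⁻¹ = M.simple j * t * M.simple j := by
    rw [ht, mul_inv_rev, simple_inv]
    simp only [mul_assoc]
  obtain ⟨w', hw', s', hs', he⟩ := ih (M.toCoxeterSystem.length
    (M.simple j * w * M.simple s * (M.simple j * w)⁻¹)) (by
      rw [htt, hn, ← ht]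
      exact hl2.trans hl1) (M.simple j * w) s r' hr'T hr'0 hr'J rfl
  refine ⟨M.simple j * w', mul_mem (simple_mem_par M hjJ) hw', s', hs', ?_⟩
  rw [root_mul, ← he, ← hTr, ← root_mul, simple_sq, root_one]

/-- the positive roots -/
theorem LR_posR (M : CoxeterMatrix S) (ok : Finset S → Prop) (hok : ∀ J, ok J → Sph M J) :
    LR (kR M) ok (posR M) where
  symm := kR_symm M
  two := kR_self M
  nonpos := fun u v h => kR_nonpos M h
  nonneg := fun J hJ r hr => ((mem_posR M (hok J hJ)).mp hr).2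
  supp := by
    intro J hJ r hr i hi
    obtain ⟨⟨w, hw, s, hs, rfl⟩, -⟩ := (mem_posR M (hok J hJ)).mp hr
    exact root_supp M hw hs hi
  norm := by
    intro J hJ r hr
    obtain ⟨⟨w, hw, s, hs, rfl⟩, -⟩ := (mem_posR M (hok J hJ)).mp hr
    exact root_norm M w s
  single := by
    intro J hJ s hs
    rw [mem_posR M (hok J hJ)]
    refine ⟨⟨1, one_mem _, s, hs, (root_one M _).symm⟩, fun i => ?_⟩
    by_cases hi : i = s
    · rw [hi, Pi.single_eq_same]
      exact zero_le_one
    · rw [Pi.single_eq_of_ne hi]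
  refl := by
    intro J hJ s hs r hr hne
    obtain ⟨⟨w, hw, s1, hs1, hr1⟩, h0⟩ := (mem_posR M (hok J hJ)).mp hr
    have h1 : r - bf (kR M) r (Pi.single s 1) • (Pi.single s 1 : S → ℝ) =
        (titsHom M (M.simple s * w)).mulVec (Pi.single s1 1) := by
      rw [root_mul, ← hr1, root_simple, bf_comm (kR_symm M) r]
    rw [mem_posR M (hok J hJ), h1]
    refine ⟨⟨M.simple s * w, mul_mem (simple_mem_par M hs) hw, s1, hs1, rfl⟩, ?_⟩
    rcases tits_sign M (M.simple s * w) s1 with h | h
    · exact h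
    · exfalso
      refine hne (root_single M h0 (by rw [hr1]; exact root_norm M w s1) fun i hi => ?_)
      have h2 := h i
      rw [← h1, Pi.sub_apply, Pi.smul_apply, Pi.single_eq_of_ne hi, smul_zero, sub_zero] at h2
      exact le_antisymm h2 (h0 i)
  mem := by
    intro J K hJ hK r hr h
    obtain ⟨⟨w, hw, s, hs, hr1⟩, h0⟩ := (mem_posR M (hok J hJ)).mp hr
    rw [mem_posR M (hok K hK)]
    exact ⟨root_par M w s r hr1 h0 h, h0⟩
  mix := by
    intro J K hJ hK r hr r' hr'
    obtain ⟨⟨w, hw, s, hs, hr1⟩, h0⟩ := (mem_posR M (hok J hJ)).mp hr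
    obtain ⟨⟨w', hw', s', hs', hr1'⟩, h0'⟩ := (mem_posR M (hok K hK)).mp hr'
    have h1 : r - bf (kR M) r r' • r' =
        (titsHom M (w' * M.simple s' * w'⁻¹ * w)).mulVec (Pi.single s 1) := by
      rw [root_mul, ← hr1, tits_conj, ← hr1', bf_comm (kR_symm M) r]
    rw [h1]
    exact tits_sign M _ s

theorem root_unique (M : CoxeterMatrix S) {r r' : S → ℝ} (h : bf (kR M) r r = 2)
    (h' : bf (kR M) r' r' = 2) (h0 : ∀ i, 0 ≤ r i) (h0' : ∀ i, 0 ≤ r' i)
    (he : ∀ x : S → ℝ, x - bf (kR M) r x • r = x - bf (kR M) r' x • r') : r = r' := by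
  obtain ⟨c, hc⟩ : ∃ c, c = bf (kR M) r' r / 2 := ⟨_, rfl⟩
  have h1 : r = c • r' := by
    have h2 := he r
    rw [h, show bf (kR M) r' r = 2 * c by rw [hc]; ring] at h2
    funext i
    have h3 := congrFun h2 i
    simp only [Pi.sub_apply, Pi.smul_apply, smul_eq_mul] at h3 ⊢
    linarith
  have h2 : c * c = 1 := by
    rw [h1, bf_smul_left, bf_smul_right, h'] at h
    linarith
  have h3 : c = 1 ∨ c = -1 := by
    have h4 : (c - 1) * (c + 1) = 0 := by linarith
    rcases mul_eq_zero.mp h4 with h5 | h5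
    · left; linarith
    · right; linarith
  rcases h3 with h4 | h4
  · rw [h1, h4, one_smul]
  · exfalso
    have h5 : r = 0 := by
      funext i
      have h6 := congrFun h1 i
      rw [h4, Pi.smul_apply, smul_eq_mul] at h6
      rw [Pi.zero_apply]
      linarith [h0 i, h0' i]
    have h6 : bf (kR M) (0 : S → ℝ) 0 = 0 := by
      have h7 := bf_smul_left (kR M) 0 (0 : S → ℝ) 0
      rw [zero_smul, zero_mul] at h7
      exact h7
    rw [h5, h6] at h
    exact two_ne_zero h.symm

theorem exists_root (M : CoxeterMatrix S) {J : Finset S} (hJ : Sph M J) {t : M.Group}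
    (ht : IsRf M J t) : ∃ r ∈ posR M J, ∀ x, (titsHom M t).mulVec x = x - bf (kR M) r x • r := by
  obtain ⟨w, hw, s, hs, rfl⟩ := ht
  rcases tits_sign M w s with h | h
  · refine ⟨(titsHom M w).mulVec (Pi.single s 1), ?_, fun x => tits_conj M w s x⟩
    rw [mem_posR M hJ]
    exact ⟨⟨w, hw, s, hs, rfl⟩, h⟩
  · have h1 : (titsHom M (w * M.simple s)).mulVec (Pi.single s 1) =
        -(titsHom M w).mulVec (Pi.single s 1) := by
      rw [root_mul, root_simple, bf_single, kR_self, two_smul, sub_add_cancel_left,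
        Matrix.mulVec_neg]
    refine ⟨(titsHom M (w * M.simple s)).mulVec (Pi.single s 1), ?_, fun x => ?_⟩
    · rw [mem_posR M hJ]
      refine ⟨⟨w * M.simple s, mul_mem hw (simple_mem_par M hs), s, hs, rfl⟩, fun i => ?_⟩
      rw [h1, Pi.neg_apply]
      linarith [h i]
    · rw [← tits_conj]
      congr 2
      rw [mul_inv_rev, simple_inv, mul_assoc w (M.simple s) (M.simple s), simple_sq, mul_one,
        mul_assoc]

theorem exists_rf (M : CoxeterMatrix S) {J : Finset S} (hJ : Sph M J) {r : S → ℝ}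
    (hr : r ∈ posR M J) :
    ∃ t, IsRf M J t ∧ ∀ x, (titsHom M t).mulVec x = x - bf (kR M) r x • r := by
  obtain ⟨⟨w, hw, s, hs, rfl⟩, -⟩ := (mem_posR M hJ).mp hr
  exact ⟨_, ⟨w, hw, s, hs, rfl⟩, fun x => tits_conj M w s x⟩

theorem rf_unique (M : CoxeterMatrix S) {t t' : M.Group}
    (h : ∀ x, (titsHom M t).mulVec x = (titsHom M t').mulVec x) : t = t' := by
  refine tits_injective M (Matrix.mulVec_injective ?_)
  funext x
  exact h x

theorem IsRf.mono {M : CoxeterMatrix S} {J K : Finset S} (h : J ⊆ K) {t : M.Group}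
    (ht : IsRf M J t) : IsRf M K t := by
  obtain ⟨w, hw, s, hs, rfl⟩ := ht
  exact ⟨w, par_mono M h hw, s, h hs, rfl⟩

theorem IsRf.conj {M : CoxeterMatrix S} {J : Finset S} {t w : M.Group} (ht : IsRf M J t)
    (hw : w ∈ par M J) : IsRf M J (w * t * w⁻¹) := by
  obtain ⟨v, hv, s, hs, rfl⟩ := ht
  refine ⟨w * v, mul_mem hw hv, s, hs, ?_⟩
  rw [mul_inv_rev]
  simp only [mul_assoc]

/-- a simple reflection in `W_J` belongs to `J` -/
theorem mem_of_isRf (M : CoxeterMatrix S) {J : Finset S} (hJ : Sph M J) {s : S}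
    (h : IsRf M J (M.simple s)) : s ∈ J := by
  obtain ⟨r, hr, hr1⟩ := exists_root M hJ h
  obtain ⟨⟨w, hw, s1, hs1, hr2⟩, h0⟩ := (mem_posR M hJ).mp hr
  have h1 : r = Pi.single s 1 := by
    refine root_unique M (by rw [hr2]; exact root_norm M w s1) (by rw [bf_single, kR_self]) h0
      (fun i => ?_) fun x => ?_
    · by_cases hi : i = s
      · rw [hi, Pi.single_eq_same]
        exact zero_le_one
      · rw [Pi.single_eq_of_ne hi]
    · rw [← hr1, root_simple]
  by_contra hs
  have h2 : r s = 0 := by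
    rw [hr2]
    exact root_supp M hw hs1 hs
  rw [h1, Pi.single_eq_same] at h2
  exact one_ne_zero h2

/-- a reflection lies in two parabolic subgroups if its root does -/
theorem isRf_iff (M : CoxeterMatrix S) {J K : Finset S} (hJ : Sph M J) (hK : Sph M K)
    {t : M.Group} {r : S → ℝ} (ht : IsRf M J t) (hr : r ∈ posR M J)
    (h : ∀ x, (titsHom M t).mulVec x = x - bf (kR M) r x • r) : IsRf M K t ↔ r ∈ posR M K := by
  constructor
  · intro htK
    obtain ⟨r1, hr1, h1⟩ := exists_root M hK htK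
    obtain ⟨⟨w, hw, s, hs, hr2⟩, h0⟩ := (mem_posR M hJ).mp hr
    obtain ⟨⟨w1, hw1, s1, hs1, hr3⟩, h01⟩ := (mem_posR M hK).mp hr1
    have h2 : r = r1 := by
      refine root_unique M (by rw [hr2]; exact root_norm M w s)
        (by rw [hr3]; exact root_norm M w1 s1) h0 h01 fun x => ?_
      rw [← h, ← h1]
    rw [h2]
    exact hr1
  · intro hrK
    obtain ⟨t1, ht1, h1⟩ := exists_rf M hK hrK
    have h2 : t = t1 := rf_unique M fun x => by rw [h, h1]
    rw [h2]
    exact ht1

end Pool.Agent.H78.RC
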