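import Pool.Agent.H78.RC.InvA
import Pool.Agent.H78.RC.Root
import Pool.Agent.H78.RC.LocA

/-!
# Project RC: the matrix on the labels

`B = bf (kR M)`, `T w x = (titsHom M w).mulVec x`.

* `exists_bij`: for `r ∈ posR M J ∪ posR M K` let `t_r` be the reflection (`exists_rf`, `rf_unique`), and
  `e r = x π(t_r) x⁻¹` (`0`-case arbitrary: use choice). `IsVec`: `LR_posR`.norm. Injective: `loc`, `root_unique`.
  `e r ∈ lbl x J` means `π t_r = π t`, `IsRf M J t`, so `t_r = t` by `loc` and `r ∈ posR M J` (`isRf_iff`).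
  Surjective: `exists_root`.
* `tQ_lbl`: with the bijection `e`, `cQ_conj`.
* `lbl_sub_iff`: if `lbl x J ⊆ lbl x K`, `s ∈ J`: `x π s x⁻¹ = x π t x⁻¹`, `IsRf K t`, `s = t` by `loc`,
  `mem_of_isRf`. Conversely `IsRf.mono`.
* `isLab_unique`: `lbl_sub_iff` twice.
* `tl_sepM`: `tl_sep` for `LR_posR M (fun J => J ≠ univ)`; `M j k = 2` implies `j ≠ k` (`M.diagonal`) and
  `kR M j k = 0` (`kR_zero`). `tl_negM`: `tl_neg`; not `Sep` means some `j ∈ J`, `b ∈ K` with `M j b ≠ 2`, so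
  `j = b` or adjacent. `diag` is given by `kR` (`kR_zero`).
* `adj_iff`: `←`: by definition, `lbl_sub_iff`. `→`: nested: `lbl_sub_iff`. If `L`, `L'` are labels of orthogonal
  faces at another chamber, `tQ L L' = 0` by `tQ_lbl`, `tl_sepM` there. If neither nested nor orthogonal at `x`
  then `tQ L L' = tl J K < 0` (`tQ_lbl`, `tl_negM`), contradiction.
* `tQ_zero`: `L = L'` or nested: an empty sum; orthogonal: `tQ_lbl`, `tl_sepM`. `tQ_symm`: `cQ_symm`.
-/

set_option autoImplicit false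

open Finset

namespace Pool.Agent.H78.RC

open Pool.Agent.H4.FC

variable {S : Type} [Fintype S] [DecidableEq S] {Q : Type} [Group Q] [Fintype Q]
  {M : CoxeterMatrix S} {π : M.Group →* Q}

omit [Fintype Q] in
private theorem Inv_lr (h : IsQuot M π) : LR (kR M) (fun J => J ≠ univ) (posR M) :=
  LR_posR M (fun J => J ≠ univ) h.fin

open Classical in
/-- the reflection of a root -/
private noncomputable def Inv_tr (M : CoxeterMatrix S) (r : S → ℝ) : M.Group :=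
  if h : ∃ t, ∀ x, (titsHom M t).mulVec x = x - bf (kR M) r x • r then h.choose else 1

private theorem Inv_tr_eq {r : S → ℝ} {t : M.Group}
    (h : ∀ x, (titsHom M t).mulVec x = x - bf (kR M) r x • r) : Inv_tr M r = t := by
  have he : ∃ t, ∀ x, (titsHom M t).mulVec x = x - bf (kR M) r x • r := ⟨t, h⟩
  unfold Inv_tr
  rw [dif_pos he]
  refine rf_unique M fun x => ?_
  rw [he.choose_spec x, h x]

omit [Fintype Q] in
private theorem Inv_tr_spec (h : IsQuot M π) {J : Finset S} (hJ : J ≠ univ) {r : S → ℝ}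
    (hr : r ∈ posR M J) : IsRf M J (Inv_tr M r) ∧
      ∀ x, (titsHom M (Inv_tr M r)).mulVec x = x - bf (kR M) r x • r := by
  obtain ⟨t, ht, hx⟩ := exists_rf M (h.fin J hJ) hr
  rw [Inv_tr_eq hx]
  exact ⟨ht, hx⟩

omit [Fintype S] [DecidableEq S] [Fintype Q] in
private theorem Inv_cancel {x a b : Q} (h : x * a * x⁻¹ = x * b * x⁻¹) : a = b :=
  mul_left_cancel (mul_right_cancel h)

omit [Fintype Q] in
private theorem Inv_inj (h : IsQuot M π) {x : Q} {A B : Finset S} (hA : A ≠ univ) (hB : B ≠ univ)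
    {r r' : S → ℝ} (hr : r ∈ posR M A) (hr' : r' ∈ posR M B)
    (he : x * π (Inv_tr M r) * x⁻¹ = x * π (Inv_tr M r') * x⁻¹) : r = r' := by
  have h1 := Inv_tr_spec h hA hr
  have h2 := Inv_tr_spec h hB hr'
  have h3 := h.loc A B hA hB _ _ h1.1 h2.1 (Inv_cancel he)
  refine root_unique M ((Inv_lr h).norm A hA r hr) ((Inv_lr h).norm B hB r' hr')
    ((Inv_lr h).nonneg A hA r hr) ((Inv_lr h).nonneg B hB r' hr') fun y => ?_
  rw [← h1.2 y, ← h2.2 y, h3]

private theorem Inv_mem (h : IsQuot M π) {x : Q} {A B : Finset S} (hA : A ≠ univ) (hB : B ≠ univ)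
    {r : S → ℝ} (hr : r ∈ posR M A) :
    x * π (Inv_tr M r) * x⁻¹ ∈ lbl M π x B ↔ r ∈ posR M B := by
  rw [mem_lbl]
  constructor
  · rintro ⟨t, ht, he⟩
    have h1 := Inv_tr_spec h hA hr
    have h3 := h.loc A B hA hB _ _ h1.1 ht (Inv_cancel he)
    rw [← h3] at ht
    exact (isRf_iff M (h.fin A hA) (h.fin B hB) h1.1 hr h1.2).mp ht
  · intro hB'
    exact ⟨Inv_tr M r, (Inv_tr_spec h hB hB').1, rfl⟩

private theorem Inv_surj (h : IsQuot M π) {x : Q} {A : Finset S} (hA : A ≠ univ) {q : Q}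
    (hq : q ∈ lbl M π x A) : ∃ r ∈ posR M A, x * π (Inv_tr M r) * x⁻¹ = q := by
  rw [mem_lbl] at hq
  obtain ⟨t, ht, rfl⟩ := hq
  obtain ⟨r, hr, hx⟩ := exists_root M (h.fin A hA) ht
  exact ⟨r, hr, by rw [Inv_tr_eq hx]⟩

/-- the roots of `J` and `K` are in bijection with the elements of the labels -/
theorem exists_bij (h : IsQuot M π) (x : Q) {J K : Finset S} (hJ : J ≠ univ) (hK : K ≠ univ) :
    ∃ e : (S → ℝ) → Q, (∀ r, r ∈ posR M J ∨ r ∈ posR M K → ∃ q, e r = x * q * x⁻¹ ∧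
        IsVec M π q r) ∧
      (∀ r r', (r ∈ posR M J ∨ r ∈ posR M K) → (r' ∈ posR M J ∨ r' ∈ posR M K) → e r = e r' →
        r = r') ∧
      (∀ r, (r ∈ posR M J ∨ r ∈ posR M K) →
        ((e r ∈ lbl M π x J ↔ r ∈ posR M J) ∧ (e r ∈ lbl M π x K ↔ r ∈ posR M K))) ∧
      (∀ q ∈ lbl M π x J, ∃ r ∈ posR M J, e r = q) ∧
      (∀ q ∈ lbl M π x K, ∃ r ∈ posR M K, e r = q) := by
  refine ⟨fun r => x * π (Inv_tr M r) * x⁻¹, ?_, ?_, ?_, ?_, ?_⟩
  · intro r hr
    refine ⟨π (Inv_tr M r), rfl, ?_, Inv_tr M r, rfl, ?_⟩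
    · rcases hr with hr | hr
      · exact (Inv_lr h).norm J hJ r hr
      · exact (Inv_lr h).norm K hK r hr
    · rcases hr with hr | hr
      · exact (Inv_tr_spec h hJ hr).2
      · exact (Inv_tr_spec h hK hr).2
  · intro r r' hr hr' he
    rcases hr with hr | hr <;> rcases hr' with hr' | hr'
    · exact Inv_inj h hJ hJ hr hr' he
    · exact Inv_inj h hJ hK hr hr' he
    · exact Inv_inj h hK hJ hr hr' he
    · exact Inv_inj h hK hK hr hr' he
  · intro r hr
    rcases hr with hr | hr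
    · exact ⟨Inv_mem h hJ hJ hr, Inv_mem h hJ hK hr⟩
    · exact ⟨Inv_mem h hK hJ hr, Inv_mem h hK hK hr⟩
  · intro q hq
    exact Inv_surj h hJ hq
  · intro q hq
    exact Inv_surj h hK hq

theorem tQ_lbl (h : IsQuot M π) (x : Q) {J K : Finset S} (hJ : J ≠ univ) (hK : K ≠ univ) :
    tQ M π (lbl M π x J) (lbl M π x K) = tl (kR M) (posR M) J K := by
  classical
  obtain ⟨e, he1, he2, he3, he4, he5⟩ := exists_bij h x hJ hK
  unfold tQ tl
  rw [neg_inj]
  symm
  refine Finset.sum_nbij e ?_ ?_ ?_ ?_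
  · intro r hr
    rw [Finset.mem_sdiff] at hr ⊢
    have h1 := he3 r (Or.inl hr.1)
    exact ⟨h1.1.mpr hr.1, fun h2 => hr.2 (h1.2.mp h2)⟩
  · intro r hr r' hr' heq
    rw [Finset.mem_coe, Finset.mem_sdiff] at hr hr'
    exact he2 r r' (Or.inl hr.1) (Or.inl hr'.1) heq
  · intro q hq
    rw [Finset.mem_coe, Finset.mem_sdiff] at hq
    obtain ⟨r, hr, rfl⟩ := he4 q hq.1
    refine ⟨r, ?_, rfl⟩
    rw [Finset.mem_coe, Finset.mem_sdiff]
    exact ⟨hr, fun h2 => hq.2 ((he3 r (Or.inl hr)).2.mpr h2)⟩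
  · intro r hr
    rw [Finset.mem_sdiff] at hr
    refine Finset.sum_nbij e ?_ ?_ ?_ ?_
    · intro r' hr'
      rw [Finset.mem_sdiff] at hr' ⊢
      have h1 := he3 r' (Or.inr hr'.1)
      exact ⟨h1.2.mpr hr'.1, fun h2 => hr'.2 (h1.1.mp h2)⟩
    · intro r₁ hr₁ r' hr' heq
      rw [Finset.mem_coe, Finset.mem_sdiff] at hr₁ hr'
      exact he2 r₁ r' (Or.inr hr₁.1) (Or.inr hr'.1) heq
    · intro q hq
      rw [Finset.mem_coe, Finset.mem_sdiff] at hq
      obtain ⟨r', hr', rfl⟩ := he5 q hq.1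
      refine ⟨r', ?_, rfl⟩
      rw [Finset.mem_coe, Finset.mem_sdiff]
      exact ⟨hr', fun h2 => hq.2 ((he3 r' (Or.inr hr')).1.mpr h2)⟩
    · intro r' hr'
      rw [Finset.mem_sdiff] at hr'
      obtain ⟨q, hq, hv⟩ := he1 r (Or.inl hr.1)
      obtain ⟨q', hq', hv'⟩ := he1 r' (Or.inr hr'.1)
      rw [hq, hq', cQ_conj h hv hv' x]

theorem tQ_symm (h : IsQuot M π) (L L' : Finset Q) : tQ M π L L' = tQ M π L' L := by
  classical
  unfold tQ
  rw [neg_inj, Finset.sum_comm]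
  exact Finset.sum_congr rfl fun q _ => Finset.sum_congr rfl fun q' _ => cQ_symm h q' q

theorem lbl_sub_iff (h : IsQuot M π) (x : Q) {J K : Finset S} (hJ : J ≠ univ) (hK : K ≠ univ) :
    lbl M π x J ⊆ lbl M π x K ↔ J ⊆ K := by
  constructor
  · intro hsub s hs
    have h1 : IsRf M J (M.simple s) := ⟨1, Subgroup.one_mem _, s, hs, by simp⟩
    have h2 := hsub (mem_lbl.mpr ⟨M.simple s, h1, rfl⟩)
    obtain ⟨t, ht, he⟩ := mem_lbl.mp h2
    have h3 := h.loc J K hJ hK _ _ h1 ht (Inv_cancel he)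
    rw [← h3] at ht
    exact mem_of_isRf M (h.fin K hK) ht
  · intro hsub q hq
    obtain ⟨t, ht, he⟩ := mem_lbl.mp hq
    exact mem_lbl.mpr ⟨t, ht.mono hsub, he⟩

theorem isLab_unique (h : IsQuot M π) {x : Q} {L : Finset Q} {J K : Finset S}
    (hJ : IsLab M π x L J) (hK : IsLab M π x L K) : J = K := by
  have h1 : lbl M π x J = lbl M π x K := by rw [hJ.2.2, hK.2.2]
  exact Finset.Subset.antisymm ((lbl_sub_iff h x hJ.1 hK.1).mp h1.subset)
    ((lbl_sub_iff h x hK.1 hJ.1).mp h1.symm.subset)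

theorem tl_sepM (h : IsQuot M π) {J K : Finset S} (hJ : J ≠ univ) (hK : K ≠ univ)
    (hs : Sep M J K) : tl (kR M) (posR M) J K = 0 := by
  refine tl_sep (Inv_lr h) hJ hK fun j hj b hb => ?_
  have h1 := hs j hj b hb
  have h2 : j ≠ b := by
    rintro rfl
    rw [M.diagonal j] at h1
    exact absurd h1 (by norm_num)
  exact (kR_zero M h2).mpr h1

theorem tl_negM (h : IsQuot M π) {J K : Finset S} (hJ : J ≠ univ) (hK : K ≠ univ)
    (hcJ : Con (diag M) J) (hcK : Con (diag M) K) (h1 : ¬ J ⊆ K) (h2 : ¬ K ⊆ J)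
    (h3 : ¬ Sep M J K) : tl (kR M) (posR M) J K < 0 := by
  refine tl_neg (Inv_lr h) (D := diag M) ?_ hJ hK hcJ hcK h1 h2 ?_
  · intro a b
    constructor
    · intro hab
      exact ⟨hab.1, fun h4 => hab.2 ((kR_zero M hab.1).mp h4)⟩
    · intro hab
      exact ⟨hab.1, fun h4 => hab.2 ((kR_zero M hab.1).mpr h4)⟩
  · intro h4
    apply h3
    intro j hj b hb
    obtain ⟨h5, h6⟩ := h4 j hj b hb
    by_contra h7
    exact h6 ⟨h5, h7⟩

theorem adj_iff (h : IsQuot M π) {x : Q} {L L' : Finset Q} {J K : Finset S}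
    (hJ : IsLab M π x L J) (hK : IsLab M π x L' K) :
    (labG M π).Adj L L' ↔ J ≠ K ∧ (J ⊆ K ∨ K ⊆ J ∨ Sep M J K) := by
  constructor
  · rintro ⟨hne, h1⟩
    refine ⟨?_, ?_⟩
    · rintro rfl
      exact hne (by rw [← hJ.2.2, ← hK.2.2])
    · rcases h1 with h1 | h1 | ⟨y, J', K', hJ', hK', hs⟩
      · left
        rw [← hJ.2.2, ← hK.2.2] at h1
        exact (lbl_sub_iff h x hJ.1 hK.1).mp h1
      · right
        left
        rw [← hJ.2.2, ← hK.2.2] at h1
        exact (lbl_sub_iff h x hK.1 hJ.1).mp h1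
      · by_contra hcon
        push Not at hcon
        obtain ⟨h2, h3, h4⟩ := hcon
        have h5 : tQ M π L L' = 0 := by
          rw [← hJ'.2.2, ← hK'.2.2, tQ_lbl h y hJ'.1 hK'.1]
          exact tl_sepM h hJ'.1 hK'.1 hs
        have h6 : tQ M π L L' < 0 := by
          rw [← hJ.2.2, ← hK.2.2, tQ_lbl h x hJ.1 hK.1]
          exact tl_negM h hJ.1 hK.1 hJ.2.1 hK.2.1 h2 h3 h4
        rw [h5] at h6
        exact lt_irrefl _ h6
  · rintro ⟨hne, h1⟩
    refine ⟨?_, ?_⟩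
    · intro he
      subst he
      exact hne (isLab_unique h hJ hK)
    · rcases h1 with h1 | h1 | h1
      · left
        rw [← hJ.2.2, ← hK.2.2]
        exact (lbl_sub_iff h x hJ.1 hK.1).mpr h1
      · right
        left
        rw [← hJ.2.2, ← hK.2.2]
        exact (lbl_sub_iff h x hK.1 hJ.1).mpr h1
      · right
        right
        exact ⟨x, J, K, hJ, hK, h1⟩

theorem tQ_zero (h : IsQuot M π) {L L' : Finset Q} (hL : L = L' ∨ (labG M π).Adj L L') :
    tQ M π L L' = 0 := by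
  classical
  have hsub : ∀ A B : Finset Q, A ⊆ B → tQ M π A B = 0 := by
    intro A B hAB
    unfold tQ
    rw [Finset.sdiff_eq_empty_iff_subset.mpr hAB, Finset.sum_empty, neg_zero]
  rcases hL with rfl | ⟨-, h1 | h1 | ⟨x, J, K, hJ, hK, hs⟩⟩
  · exact hsub L L (Finset.Subset.refl L)
  · exact hsub L L' h1
  · rw [tQ_symm h]
    exact hsub L' L h1
  · rw [← hJ.2.2, ← hK.2.2, tQ_lbl h x hJ.1 hK.1]
    exact tl_sepM h hJ.1 hK.1 hs

end Pool.Agent.H78.RC
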