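import Pool.Agent.H78.RC.Long
import Pool.Agent.H78.RC.Inv

/-!
# Project RC: the cube complex

* `nbF_eq`: `isLab_unique`.
* `IsLab.opp`: let `x' = x π(w_J)`, `K ⊆ J`, `σ` from `exists_opp`. `lbl x' (σ K) = lbl x K`: an element of the left
  side is `x' π t x'⁻¹ = x π(w_J t w_J) x⁻¹` (`lw_mul_self`) with `IsRf (σ K) t`, i.e. `IsRf K (w_J t w_J)`.
  `σ K ≠ univ` as `σ K ⊆ J ≠ univ`.
* `IsLab.up`: `J ⊆ K`: `lbl x' K = lbl x K`: `w_J ∈ W_K` (`lw_spec`, `par_mono`), `IsRf.conj`.
* `IsLab.sep`: `lbl x' K = lbl x K`: `w_J` commutes with `W_K` (`sep_comm`), so with its reflections.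
* `blowup`: `lab_nb`: `IsLab.opp` with `K = J` (`σ J = J`). `nb_nb`: `lw_mul_self`. `lab_adj`: `adj_iff` and
  the three lemmas. `nb_comm`: let `u = L` with face `J`, `v = L'` with face `K`; if `J ⊆ K`: after crossing `L'`
  the face of `L` is `σ_K J` and `lw (σ_K J) = w_K w_J w_K`, so
  `nb u (nb v x) = x π(w_K w_K w_J w_K) = x π(w_J w_K)`, and `nb v (nb u x) = x π(w_J w_K)` by `IsLab.up`. The case
  `K ⊆ J` is symmetric; if `Sep`: `w_J w_K = w_K w_J`.
-/

set_option autoImplicit false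

open Finset

namespace Pool.Agent.H78.RC

open Pool.Agent.H4.FC Pool.Agent.H19.Cub

variable {S : Type} [Fintype S] [DecidableEq S] {Q : Type} [Group Q] [Fintype Q]
  {M : CoxeterMatrix S} {π : M.Group →* Q}

theorem nbF_eq (h : IsQuot M π) {x : Q} {L : Finset Q} {J : Finset S} (hJ : IsLab M π x L J) :
    nbF M π L x = x * π (lw M J) := by
  have h1 : ∃ J, IsLab M π x L J := ⟨J, hJ⟩
  unfold nbF
  rw [dif_pos h1, isLab_unique h h1.choose_spec hJ]

omit [Fintype S] [DecidableEq S] in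
/-- the label of a face of the chamber `x π w` -/
theorem blow_lbl {x : Q} {w : M.Group} {K K' : Finset S}
    (hw : ∀ t, IsRf M K' t ↔ IsRf M K (w * t * w⁻¹)) :
    lbl M π (x * π w) K' = lbl M π x K := by
  ext q
  rw [mem_lbl, mem_lbl]
  constructor
  · rintro ⟨t, ht, rfl⟩
    refine ⟨w * t * w⁻¹, (hw t).1 ht, ?_⟩
    rw [map_mul, map_mul, map_inv]
    group
  · rintro ⟨t, ht, rfl⟩
    refine ⟨w⁻¹ * t * w, (hw _).2 ?_, ?_⟩
    · have h1 : w * (w⁻¹ * t * w) * w⁻¹ = t := by group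
      rw [h1]
      exact ht
    · rw [map_mul, map_mul, map_inv]
      group

omit [Fintype Q] in
/-- the longest element is an involution -/
theorem blow_inv (h : IsQuot M π) {J : Finset S} (hJ : J ≠ univ) : (lw M J)⁻¹ = lw M J :=
  inv_eq_of_mul_eq_one_left (lw_mul_self M (h.fin J hJ))

theorem IsLab.opp (h : IsQuot M π) {x : Q} {L L' : Finset Q} {J K : Finset S}
    (hJ : IsLab M π x L J) (hK : IsLab M π x L' K) (hKJ : K ⊆ J) :
    ∃ K', IsLab M π (x * π (lw M J)) L' K' ∧ lw M K' = lw M J * lw M K * lw M J := by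
  obtain ⟨σ, -, hσ⟩ := exists_opp M (h.fin J hJ.1)
  obtain ⟨h1, h2, h3, h4⟩ := hσ K hKJ
  refine ⟨σ K, ⟨?_, h2 hK.2.1, ?_⟩, h4⟩
  · intro h5
    rw [h5] at h1
    exact hJ.1 (univ_subset_iff.mp h1)
  · refine (blow_lbl (K := K) fun t => ?_).trans hK.2.2
    rw [blow_inv h hJ.1]
    exact h3 t

theorem IsLab.self (h : IsQuot M π) {x : Q} {L : Finset Q} {J : Finset S}
    (hJ : IsLab M π x L J) : IsLab M π (x * π (lw M J)) L J := by
  obtain ⟨σ, h0, hσ⟩ := exists_opp M (h.fin J hJ.1)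
  obtain ⟨-, -, h3, -⟩ := hσ J subset_rfl
  rw [h0] at h3
  refine ⟨hJ.1, hJ.2.1, (blow_lbl (K := J) fun t => ?_).trans hJ.2.2⟩
  rw [blow_inv h hJ.1]
  exact h3 t

theorem IsLab.up (h : IsQuot M π) {x : Q} {L L' : Finset Q} {J K : Finset S}
    (hJ : IsLab M π x L J) (hK : IsLab M π x L' K) (hJK : J ⊆ K) :
    IsLab M π (x * π (lw M J)) L' K := by
  have hw : lw M J ∈ par M K := par_mono M hJK (lw_spec M (h.fin J hJ.1)).1
  refine ⟨hK.1, hK.2.1,
    (blow_lbl (K := K) fun t => ⟨fun ht => ht.conj hw, fun ht => ?_⟩).trans hK.2.2⟩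
  have h1 := ht.conj (inv_mem hw)
  have h2 : (lw M J)⁻¹ * (lw M J * t * (lw M J)⁻¹) * (lw M J)⁻¹⁻¹ = t := by group
  rwa [h2] at h1

omit [Fintype S] [DecidableEq S] in
theorem blow_mem {K : Finset S} {t : M.Group} (ht : IsRf M K t) : t ∈ par M K := by
  obtain ⟨w, hw, s, hs, rfl⟩ := ht
  exact mul_mem (mul_mem hw (simple_mem_par M hs)) (inv_mem hw)

omit [Fintype S] [DecidableEq S] in
theorem blow_sepsymm {J K : Finset S} (hs : Sep M J K) : Sep M K J := fun k hk j hj => by
  rw [M.symmetric k j]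
  exact hs j hj k hk

theorem IsLab.sep (h : IsQuot M π) {x : Q} {L L' : Finset Q} {J K : Finset S}
    (hJ : IsLab M π x L J) (hK : IsLab M π x L' K) (hs : Sep M J K) :
    IsLab M π (x * π (lw M J)) L' K := by
  have hw : lw M J ∈ par M J := (lw_spec M (h.fin J hJ.1)).1
  refine ⟨hK.1, hK.2.1,
    (blow_lbl (K := K) fun t => ⟨fun ht => ?_, fun ht => ?_⟩).trans hK.2.2⟩
  · rw [sep_comm M hs hw (blow_mem ht), mul_inv_cancel_right]
    exact ht
  · have h2 := sep_comm M hs hw (blow_mem ht)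
    have h3 : lw M J * t * (lw M J)⁻¹ = t := by
      have h4 : lw M J * (lw M J * t * (lw M J)⁻¹) = lw M J * t := by
        rw [h2]
        group
      exact mul_left_cancel h4
    rwa [h3] at ht

/-- the square of nested faces -/
theorem blow_nest (h : IsQuot M π) {x : Q} {L L' : Finset Q} {J K : Finset S}
    (hJ : IsLab M π x L J) (hK : IsLab M π x L' K) (hJK : J ⊆ K) :
    nbF M π L (nbF M π L' x) = nbF M π L' (nbF M π L x) := by
  obtain ⟨K', h1, h2⟩ := hK.opp h hJ hJK
  have h3 : lw M K * (lw M K * lw M J * lw M K) = lw M J * lw M K := by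
    rw [mul_assoc (lw M K) (lw M J) (lw M K), ← mul_assoc (lw M K) (lw M K),
      lw_mul_self M (h.fin K hK.1), one_mul]
  rw [nbF_eq h hK, nbF_eq h h1, nbF_eq h hJ, nbF_eq h (hJ.up h hK hJK), h2,
    mul_assoc x (π (lw M K)), mul_assoc x (π (lw M J)), ← map_mul, h3, ← map_mul]

/-- the square of orthogonal faces -/
theorem blow_orth (h : IsQuot M π) {x : Q} {L L' : Finset Q} {J K : Finset S}
    (hJ : IsLab M π x L J) (hK : IsLab M π x L' K) (hs : Sep M J K) :
    nbF M π L (nbF M π L' x) = nbF M π L' (nbF M π L x) := by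
  rw [nbF_eq h hK, nbF_eq h (hK.sep h hJ (blow_sepsymm hs)), nbF_eq h hJ,
    nbF_eq h (hJ.sep h hK hs), mul_assoc x (π (lw M K)), mul_assoc x (π (lw M J)), ← map_mul,
    ← map_mul,
    sep_comm M hs (lw_spec M (h.fin J hJ.1)).1 (lw_spec M (h.fin K hK.1)).1]

/-- **The minimal blow-up.** `M` is the Coxeter matrix of an irreducible finite or affine reflection group `W`,
`π : W → Q` the identity (`W` finite, `|S| = n + 1`) or the reduction modulo a lattice of translations
(`W` affine). The cube complex is dual to the tiling, by the copies of the blow-up of the fundamental simplex,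
of the minimal blow-up of the sphere `S^n` resp. of the torus `ℝ^n / ker π` along the reflection arrangement
(De Concini-Procesi, Davis-Januszkiewicz-Scott). The vertices are the chambers `x ∈ Q`, the labels at `x` are
the connected proper sets `J` of nodes of the Coxeter diagram, i.e. the irreducible faces of the chamber, and the
chamber on the other side of the facet `J` is `x w_J` with the longest element `w_J` of `W_J`. The label
is given as the set of the reflections which fix the face. -/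
noncomputable def blowup [DecidableEq Q] (M : CoxeterMatrix S) (π : M.Group →* Q)
    (h : IsQuot M π) : CubeComplex (Finset Q) Q where
  graph := labG M π
  lab := labF M π
  nb := nbF M π
  lab_nb v x hv := by
    obtain ⟨J, hJ⟩ := mem_labF.1 hv
    rw [nbF_eq h hJ]
    exact mem_labF.2 ⟨J, hJ.self h⟩
  nb_nb v x hv := by
    obtain ⟨J, hJ⟩ := mem_labF.1 hv
    rw [nbF_eq h hJ, nbF_eq h (hJ.self h), mul_assoc, ← map_mul, lw_mul_self M (h.fin J hJ.1),
      map_one, mul_one]
  lab_adj u v x huv hu hv := by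
    obtain ⟨J, hJ⟩ := mem_labF.1 hu
    obtain ⟨K, hK⟩ := mem_labF.1 hv
    rw [nbF_eq h hK]
    rcases ((adj_iff h hJ hK).1 huv).2 with h1 | h1 | h1
    · obtain ⟨K', h2, -⟩ := hK.opp h hJ h1
      exact mem_labF.2 ⟨K', h2⟩
    · exact mem_labF.2 ⟨J, hK.up h hJ h1⟩
    · exact mem_labF.2 ⟨J, hK.sep h hJ (blow_sepsymm h1)⟩
  nb_comm u v x huv hu hv := by
    obtain ⟨J, hJ⟩ := mem_labF.1 hu
    obtain ⟨K, hK⟩ := mem_labF.1 hv
    rcases ((adj_iff h hJ hK).1 huv).2 with h1 | h1 | h1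
    · exact blow_nest h hJ hK h1
    · exact (blow_nest h hK hJ h1).symm
    · exact blow_orth h hJ hK h1

end Pool.Agent.H78.RC
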