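import Pool.Agent.H78.RC.RootA

/-!
# Project RC: the absolute value of the product of two reflections in the quotient

`B = bf (kR M)`, `T w x = (titsHom M w).mulVec x`.

* auxiliary: if `B y δ = 0` for all `y` then the same for `T (w) δ`: `B y (T (w) δ) = B (T (w⁻¹) y) δ` (`bf_tits`).
* `vec_unique`: let `π t = π t' = q`, `T (t) x = x - B r x • r`, `T (t') x = x - B r' x • r'`. `g = t⁻¹ t'` has
  `π g = 1`, so `T (g) x - x` is in the radical (`act`, `bf_single_left`, linearity in `y`), hence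
  `T (t') x - T (t) x = T (t) (T (g) x - x)` is in the radical, i.e.
  `B r x * B r y = B r' x * B r' y` for all `x, y`. `x = y = r`: `4 = (B r' r)²`, `B r' r = ± 2`. `x = r`:
  `2 B r y = B r' r * B r' y`.
* `cQ_eq`: `vec_unique` twice (`bf_comm`), absolute values. `cQ_symm`: if there are root vectors `cQ_eq` on both
  sides, otherwise both are `0`.
* `IsVec.conj`: `t ↦ w t w⁻¹`, `r ↦ T (w) r` (`bf_tits`).
* `cQ_conj`: `x = π w` by `surj`.
-/

set_option autoImplicit false

open Finset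

namespace Pool.Agent.H78.RC

open Pool.Agent.H4.FC

variable {S : Type} [Fintype S] [DecidableEq S] {Q : Type} [Group Q] [Fintype Q]

/-- `r` is a root vector of a reflection over `q` -/
def IsVec (M : CoxeterMatrix S) (π : M.Group →* Q) (q : Q) (r : S → ℝ) : Prop :=
  bf (kR M) r r = 2 ∧ ∃ t, π t = q ∧ ∀ x, (titsHom M t).mulVec x = x - bf (kR M) r x • r

open Classical in
/-- the absolute value of the product of root vectors -/
noncomputable def cQ (M : CoxeterMatrix S) (π : M.Group →* Q) (q q' : Q) : ℝ :=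
  if h : ∃ p : (S → ℝ) × (S → ℝ), IsVec M π q p.1 ∧ IsVec M π q' p.2 then
    |bf (kR M) h.choose.1 h.choose.2| else 0

open Classical in
/-- the matrix on the labels -/
noncomputable def tQ (M : CoxeterMatrix S) (π : M.Group →* Q) (L L' : Finset Q) : ℝ :=
  -∑ q ∈ L \ L', ∑ q' ∈ L' \ L, cQ M π q q'

variable {M : CoxeterMatrix S} {π : M.Group →* Q}

theorem invA_symm (M : CoxeterMatrix S) (x y : S → ℝ) : bf (kR M) x y = bf (kR M) y x :=
  bf_comm (kR_symm M) x y

theorem invA_sum (k : S → S → ℝ) (y x : S → ℝ) :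
    bf k y x = ∑ s, y s * bf k (Pi.single s 1) x := by
  have h : y = ∑ s, y s • (Pi.single s 1 : S → ℝ) := by
    ext i
    simp [Finset.sum_apply, Pi.single_apply]
  conv_lhs => rw [h]
  rw [bf_sum_left]
  exact sum_congr rfl fun s _ => bf_smul_left k _ _ _

omit [Fintype Q] in
theorem invA_act (h : IsQuot M π) {g : M.Group} (hg : π g = 1) (x y : S → ℝ) :
    bf (kR M) y ((titsHom M g).mulVec x - x) = 0 := by
  rw [invA_sum]
  refine sum_eq_zero fun s _ => ?_
  rw [bf_single_left]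
  have := h.act g hg x s
  simp only [Pi.sub_apply]
  rw [this, mul_zero]

theorem invA_rad (M : CoxeterMatrix S) (w : M.Group) (x y : S → ℝ) :
    bf (kR M) y ((titsHom M w).mulVec x) = bf (kR M) ((titsHom M w⁻¹).mulVec y) x := by
  have h1 := bf_tits M w ((titsHom M w⁻¹).mulVec y) x
  rw [Matrix.mulVec_mulVec, ← map_mul, mul_inv_cancel, map_one, Matrix.one_mulVec] at h1
  exact h1

theorem vec_unique (h : IsQuot M π) {q : Q} {r r' : S → ℝ} (hr : IsVec M π q r)
    (hr' : IsVec M π q r') :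
    (∀ y, bf (kR M) r y = bf (kR M) r' y) ∨ (∀ y, bf (kR M) r y = -bf (kR M) r' y) := by
  obtain ⟨h1, t, ht, h2⟩ := hr
  obtain ⟨h1', t', ht', h2'⟩ := hr'
  have key : ∀ x y, bf (kR M) r x * bf (kR M) r y = bf (kR M) r' x * bf (kR M) r' y := by
    intro x y
    have hg : π (t⁻¹ * t') = 1 := by
      rw [map_mul, map_inv, ht, ht', inv_mul_cancel]
    have h3 := invA_act h hg x ((titsHom M t⁻¹).mulVec y)
    rw [← invA_rad, Matrix.mulVec_sub, Matrix.mulVec_mulVec, ← map_mul, mul_inv_cancel_left,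
      h2, h2', bf_sub_right, bf_sub_right, bf_sub_right, bf_smul_right, bf_smul_right,
      invA_symm M y r, invA_symm M y r'] at h3
    linarith
  have h4 : bf (kR M) r' r * bf (kR M) r' r = 4 := by
    have := key r r
    rw [h1] at this
    linarith
  have h5 : bf (kR M) r' r = 2 ∨ bf (kR M) r' r = -2 := by
    have : (bf (kR M) r' r - 2) * (bf (kR M) r' r + 2) = 0 := by linarith
    rcases mul_eq_zero.1 this with h6 | h6
    · left; linarith
    · right; linarith
  rcases h5 with h5 | h5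
  · left
    intro y
    have := key r y
    rw [h1, h5] at this
    linarith
  · right
    intro y
    have := key r y
    rw [h1, h5] at this
    linarith

theorem cQ_eq (h : IsQuot M π) {q q' : Q} {r r' : S → ℝ} (hr : IsVec M π q r)
    (hr' : IsVec M π q' r') : cQ M π q q' = |bf (kR M) r r'| := by
  have hex : ∃ p : (S → ℝ) × (S → ℝ), IsVec M π q p.1 ∧ IsVec M π q' p.2 := ⟨(r, r'), hr, hr'⟩
  unfold cQ
  rw [dif_pos hex]
  obtain ⟨h1, h2⟩ := hex.choose_spec
  have h3 : |bf (kR M) hex.choose.1 hex.choose.2| = |bf (kR M) r hex.choose.2| := by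
    rcases vec_unique h h1 hr with h4 | h4
    · rw [h4]
    · rw [h4, abs_neg]
  have h5 : |bf (kR M) r hex.choose.2| = |bf (kR M) r r'| := by
    rw [invA_symm M r, invA_symm M r]
    rcases vec_unique h h2 hr' with h4 | h4
    · rw [h4]
    · rw [h4, abs_neg]
  exact h3.trans h5

theorem cQ_symm (h : IsQuot M π) (q q' : Q) : cQ M π q q' = cQ M π q' q := by
  by_cases hex : ∃ p : (S → ℝ) × (S → ℝ), IsVec M π q p.1 ∧ IsVec M π q' p.2
  · obtain ⟨⟨r, r'⟩, h1, h2⟩ := hex
    rw [cQ_eq h h1 h2, cQ_eq h h2 h1, invA_symm]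
  · have hex' : ¬ ∃ p : (S → ℝ) × (S → ℝ), IsVec M π q' p.1 ∧ IsVec M π q p.2 :=
      fun ⟨p, h1, h2⟩ => hex ⟨(p.2, p.1), h2, h1⟩
    unfold cQ
    rw [dif_neg hex, dif_neg hex']

theorem IsVec.conj {q : Q} {r : S → ℝ} (hr : IsVec M π q r) (w : M.Group) :
    IsVec M π (π w * q * (π w)⁻¹) ((titsHom M w).mulVec r) := by
  obtain ⟨h1, t, ht, h2⟩ := hr
  refine ⟨by rw [bf_tits, h1], w * t * w⁻¹, by rw [map_mul, map_mul, map_inv, ht], fun x => ?_⟩
  rw [map_mul, map_mul, ← Matrix.mulVec_mulVec, ← Matrix.mulVec_mulVec, h2, Matrix.mulVec_sub,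
    Matrix.mulVec_smul, Matrix.mulVec_mulVec, ← map_mul, mul_inv_cancel, map_one,
    Matrix.one_mulVec]
  have h3 : bf (kR M) r ((titsHom M w⁻¹).mulVec x) = bf (kR M) ((titsHom M w).mulVec r) x := by
    rw [invA_rad, inv_inv]
  rw [h3]

theorem cQ_conj (h : IsQuot M π) {q q' : Q} {r r' : S → ℝ} (hr : IsVec M π q r)
    (hr' : IsVec M π q' r') (x : Q) :
    cQ M π (x * q * x⁻¹) (x * q' * x⁻¹) = |bf (kR M) r r'| := by
  obtain ⟨w, rfl⟩ := h.surj x
  rw [cQ_eq h (hr.conj w) (hr'.conj w), bf_tits]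

end Pool.Agent.H78.RC
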