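import Pool.Agent.H78.RC.LocQ

/-!
# Project RC: the local matrix is negative on a subspace of codimension `|S| - 1`

`B = bf k`, `ρ_J = rho P J`, `z = zf P F f = ∑_{J ∈ F} f_J ρ_J = ∑_r Y_r r` with `Y_r = yf P F f r`, the sum over
`r ∈ F.biUnion P` (`zf_eq`). By `quad` the form is `B z z - 2 ∑_r ht r Y_r²`.

* `yf_pos`: let `J ∈ F`, `f J ≠ 0`, with the maximal number of elements, `θ` the full root of `J`
  (`exists_full`). If `θ ∈ P K`, `K ∈ F`, then `J ⊆ K` (`supp`), so `K = J` or `f K = 0`. Hence `Y_θ = f J ≠ 0`;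
  `ht θ > 0`, and all terms are `≥ 0` (`nonneg`).
* `neg_rad`: `B z z = c² B δ δ = 0`.
* `neg_fin`: let `ρ = ρ_univ`, `H = ∑_{r ∈ P univ} ht r = ht ρ`, `R = F.biUnion P ⊆ P univ` (`mono`),
  `H' = ∑_{r ∈ R} ht r`. The full root of `univ` is not in `R` (the `J ∈ F` are proper), so `H' < H`.
  `ht z = ∑_{r ∈ R} Y_r ht r = c H`. `B z z = c B ρ z = 2 c ht z = 2 c² H` (`bf_rho` with `J = univ`). Cauchy-Schwarz
  with the weights `ht r ≥ 0` (`sum_mul_sq_le_sq_mul_sq` or `inner_mul_le_norm_mul_norm`, or from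
  `∑_R ht r (Y_r - c H / H')² ≥ 0`): `(c H)² ≤ H' Σ`, `Σ = ∑_R ht r Y_r²`. If `c = 0` then `B z z = 0` and
  `yf_pos`. If `c ≠ 0` then `c² H² ≤ H' Σ`, `0 ≤ H' < H`, so `H' > 0` and `Σ ≥ c² H² / H' > c² H`.
-/

set_option autoImplicit false

open Finset

namespace Pool.Agent.H78.RC

variable {S : Type} [Fintype S] [DecidableEq S] {k : S → S → ℝ} {ok : Finset S → Prop}
  {P : Finset S → Finset (S → ℝ)}

private theorem LocB_ht_sum {ι : Type*} (s : Finset ι) (f : ι → S → ℝ) : ht (∑ i ∈ s, f i) = ∑ i ∈ s, ht (f i) := by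
  unfold ht
  simp only [Finset.sum_apply]
  exact Finset.sum_comm

private theorem LocB_ht_smul (c : ℝ) (x : S → ℝ) : ht (c • x) = c * ht x := by
  unfold ht
  simp only [Pi.smul_apply, smul_eq_mul]
  rw [Finset.mul_sum]

private theorem LocB_ht_nonneg {x : S → ℝ} (hx : ∀ i, 0 ≤ x i) : 0 ≤ ht x :=
  Finset.sum_nonneg fun i _ => hx i

private theorem LocB_ht_pos {x : S → ℝ} (hx : ∀ i, 0 ≤ x i) {i : S} (hi : 0 < x i) : 0 < ht x :=
  Finset.sum_pos' (fun i _ => hx i) ⟨i, mem_univ i, hi⟩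

private theorem LocB_bf_smul_left (c : ℝ) (x y : S → ℝ) : bf k (c • x) y = c * bf k x y := by
  unfold bf
  simp only [Pi.smul_apply, smul_eq_mul, Finset.mul_sum]
  refine Finset.sum_congr rfl fun u _ => Finset.sum_congr rfl fun v _ => ?_
  ring

private theorem LocB_bf_smul_right (c : ℝ) (x y : S → ℝ) : bf k x (c • y) = c * bf k x y := by
  unfold bf
  simp only [Pi.smul_apply, smul_eq_mul, Finset.mul_sum]
  refine Finset.sum_congr rfl fun u _ => Finset.sum_congr rfl fun v _ => ?_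
  ring

open Classical in
theorem yf_pos (h : LR k ok P) {D : SimpleGraph S} (hD : ∀ a b, D.Adj a b ↔ a ≠ b ∧ k a b ≠ 0)
    {F : Finset (Finset S)} (hF : ∀ J ∈ F, ok J ∧ Con D J) {f : Finset S → ℝ}
    (hf : ∃ J ∈ F, f J ≠ 0) : 0 < ∑ r ∈ F.biUnion P, ht r * yf P F f r ^ 2 := by
  obtain ⟨J₀, hJ₀, hf₀⟩ := hf
  obtain ⟨J, hJ, hmax⟩ := Finset.exists_max_image (F.filter fun J => f J ≠ 0) Finset.card
    ⟨J₀, by rw [mem_filter]; exact ⟨hJ₀, hf₀⟩⟩
  rw [mem_filter] at hJ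
  obtain ⟨hJF, hfJ⟩ := hJ
  obtain ⟨θ, hθ, hθ0⟩ := exists_full h hD (hF J hJF).1 (hF J hJF).2
  have hY : yf P F f θ = f J := by
    unfold yf
    refine Finset.sum_eq_single_of_mem J (by rw [mem_filter]; exact ⟨hJF, hθ⟩) fun K hK hKJ => ?_
    rw [mem_filter] at hK
    by_contra hcon
    have h1 : J ⊆ K := by
      intro i hi
      by_contra hiK
      have := h.supp K (hF K hK.1).1 θ hK.2 i hiK
      have h2 := hθ0 i hi
      rw [this] at h2
      exact lt_irrefl _ h2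
    have h2 := hmax K (by rw [mem_filter]; exact ⟨hK.1, hcon⟩)
    exact hKJ (Finset.eq_of_subset_of_card_le h1 h2).symm
  have hnn : ∀ r ∈ F.biUnion P, 0 ≤ ht r * yf P F f r ^ 2 := by
    intro r hr
    rw [mem_biUnion] at hr
    obtain ⟨K, hK, hr⟩ := hr
    exact mul_nonneg (LocB_ht_nonneg (h.nonneg K (hF K hK).1 r hr)) (sq_nonneg _)
  refine Finset.sum_pos' hnn ⟨θ, ?_, ?_⟩
  · rw [mem_biUnion]
    exact ⟨J, hJF, hθ⟩
  · rw [hY]
    obtain ⟨i, hi⟩ := (hF J hJF).2.1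
    have h1 : 0 < ht θ := LocB_ht_pos (h.nonneg J (hF J hJF).1 θ hθ) (hθ0 i hi)
    have h2 : 0 < f J ^ 2 := by positivity
    exact mul_pos h1 h2

theorem neg_rad (h : LR k ok P) (hdown : ∀ J K, ok J → K ⊆ J → ok K) {D : SimpleGraph S}
    (hD : ∀ a b, D.Adj a b ↔ a ≠ b ∧ k a b ≠ 0) {F : Finset (Finset S)}
    (hF : ∀ J ∈ F, ok J ∧ Con D J) {f : Finset S → ℝ} (hf : ∃ J ∈ F, f J ≠ 0) {δ : S → ℝ}
    (hδ : bf k δ δ = 0) {c : ℝ} (hz : zf P F f = c • δ) :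
    ∑ J ∈ F, ∑ K ∈ F, f J * f K * tl k P J K < 0 := by
  classical
  have h1 := yf_pos h hD hF hf
  rw [quad h hdown F (fun J hJ => (hF J hJ).1) f, hz, LocB_bf_smul_left, LocB_bf_smul_right, hδ]
  simp only [mul_zero, zero_sub]
  linarith

theorem neg_fin (h : LR k (fun _ => True) P) {D : SimpleGraph S}
    (hD : ∀ a b, D.Adj a b ↔ a ≠ b ∧ k a b ≠ 0) (hirr : Con D univ) {F : Finset (Finset S)}
    (hF : ∀ J ∈ F, J ≠ univ ∧ Con D J) {f : Finset S → ℝ} (hf : ∃ J ∈ F, f J ≠ 0) {c : ℝ}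
    (hz : zf P F f = c • rho P univ) :
    ∑ J ∈ F, ∑ K ∈ F, f J * f K * tl k P J K < 0 := by
  classical
  have h1 := yf_pos h hD (fun J hJ => ⟨trivial, (hF J hJ).2⟩) hf
  obtain ⟨θ, hθ, hθ0⟩ := exists_full h hD (J := univ) trivial hirr
  obtain ⟨i₀, -⟩ := hirr.1
  have hθpos : 0 < ht θ := LocB_ht_pos (h.nonneg univ trivial θ hθ) (hθ0 i₀ (mem_univ _))
  have hnn : ∀ r ∈ P univ, 0 ≤ ht r := fun r hr => LocB_ht_nonneg (h.nonneg univ trivial r hr)
  have hsub : F.biUnion P ⊆ P univ := by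
    intro r hr
    rw [mem_biUnion] at hr
    obtain ⟨J, -, hr⟩ := hr
    exact h.mono trivial trivial (subset_univ J) hr
  have hθR : θ ∉ F.biUnion P := by
    intro hr
    rw [mem_biUnion] at hr
    obtain ⟨J, hJ, hr⟩ := hr
    apply (hF J hJ).1
    rw [Finset.eq_univ_iff_forall]
    intro i
    by_contra hi
    have h2 := h.supp J trivial θ hr i hi
    have h3 := hθ0 i (mem_univ _)
    rw [h2] at h3
    exact lt_irrefl _ h3
  obtain ⟨H, hH⟩ : ∃ H, H = ∑ r ∈ P univ, ht r := ⟨_, rfl⟩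
  obtain ⟨H', hH'⟩ : ∃ H', H' = ∑ r ∈ F.biUnion P, ht r := ⟨_, rfl⟩
  obtain ⟨Q, hQ⟩ : ∃ Q, Q = ∑ r ∈ F.biUnion P, ht r * yf P F f r ^ 2 := ⟨_, rfl⟩
  have hlt : H' < H := by
    have h2 : ∑ r ∈ insert θ (F.biUnion P), ht r ≤ ∑ r ∈ P univ, ht r :=
      Finset.sum_le_sum_of_subset_of_nonneg (Finset.insert_subset hθ hsub) fun r hr _ => hnn r hr
    rw [Finset.sum_insert hθR, ← hH, ← hH'] at h2
    linarith
  have hH'0 : 0 ≤ H' := by
    rw [hH']
    exact Finset.sum_nonneg fun r hr => hnn r (hsub hr)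
  have hHt : ht (rho P univ) = H := by
    rw [hH]
    unfold rho
    exact LocB_ht_sum _ _
  have hz1 : ht (zf P F f) = c * H := by rw [hz, LocB_ht_smul, hHt]
  have hz2 : ht (zf P F f) = ∑ r ∈ F.biUnion P, ht r * yf P F f r := by
    rw [zf_eq, LocB_ht_sum]
    refine Finset.sum_congr rfl fun r _ => ?_
    rw [LocB_ht_smul, mul_comm]
  have hCS : (c * H) ^ 2 ≤ H' * Q := by
    rw [← hz1, hz2, hH', hQ]
    refine Finset.sum_sq_le_sum_mul_sum_of_sq_eq_mul _ (fun r hr => hnn r (hsub hr))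
      (fun r hr => mul_nonneg (hnn r (hsub hr)) (sq_nonneg _)) fun r _ => ?_
    ring
  have hB : bf k (zf P F f) (zf P F f) = 2 * c ^ 2 * H := by
    have h2 : bf k (zf P F f) (zf P F f) = c * bf k (rho P univ) (zf P F f) := by
      conv_lhs => rw [hz, LocB_bf_smul_left]
      rw [hz]
    rw [h2, bf_rho h trivial (fun i hi => absurd (mem_univ i) hi), hz1]
    ring
  rw [quad h (fun _ _ _ _ => trivial) F (fun J _ => trivial) f, hB, ← hQ]
  rw [← hQ] at h1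
  by_contra hcon
  push Not at hcon
  have h2 : Q ≤ c ^ 2 * H := by linarith
  by_cases hc : c = 0
  · rw [hc] at h2
    linarith
  · have hc2 : 0 < c ^ 2 := by positivity
    have h3 : H' * Q ≤ H' * (c ^ 2 * H) := mul_le_mul_of_nonneg_left h2 hH'0
    have hHpos : 0 < H := lt_of_le_of_lt hH'0 hlt
    have h4 : 0 < c ^ 2 * H * (H - H') := mul_pos (mul_pos hc2 hHpos) (sub_pos.mpr hlt)
    nlinarith [hCS, h3, h4]

end Pool.Agent.H78.RC
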