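import Pool.Agent.H78.RC.LocB
import Pool.Agent.H78.RC.Root

/-!
# Project RC: the local matrix of a reflection group is negative on a subspace of codimension `|S| - 1`

* `exists_loc`: if `π` is injective then `W` is finite, all `J` are spherical (`Sph`: a subgroup of a finite
  group), `LR_posR` with `ok = fun _ => True`; `δ = ρ_univ`, `s0` arbitrary (`S` is not empty by `irr`),
  `δ s0 > 0` as `e s0 ∈ P univ` and all roots are nonnegative; `c = z s0 / δ s0`, `neg_fin`. Otherwise let `π g = 1`,
  `g ≠ 1`. `tits_injective`: there is `x` with `δ = T (g) x - x ≠ 0` (`Matrix.mulVec` separates matrices).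
  `B δ δ = 0` by `act`. `LR_posR` with `ok J = (J ≠ univ)`, `fin`; `neg_rad`. `diag` is given by `kR` (`kR_zero`).
-/

set_option autoImplicit false

open Finset

namespace Pool.Agent.H78.RC

open Pool.Agent.H4.FC

variable {S : Type} [Fintype S] [DecidableEq S]

private theorem LocC_diag (M : CoxeterMatrix S) (a b : S) : (diag M).Adj a b ↔ a ≠ b ∧ kR M a b ≠ 0 := by
  constructor
  · rintro ⟨h1, h2⟩
    exact ⟨h1, fun h => h2 ((kR_zero M h1).1 h)⟩
  · rintro ⟨h1, h2⟩
    exact ⟨h1, fun h => h2 ((kR_zero M h1).2 h)⟩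

omit [Fintype S] [DecidableEq S] in
private theorem LocC_smul {z δ : S → ℝ} {s0 : S} (h0 : δ s0 ≠ 0) (h : ∀ i, z i * δ s0 = δ i * z s0) :
    z = (z s0 / δ s0) • δ := by
  funext i
  rw [Pi.smul_apply, smul_eq_mul, div_mul_eq_mul_div, eq_div_iff h0, h i]
  ring

theorem exists_loc (M : CoxeterMatrix S) {Q : Type} [Group Q] [Finite Q] {π : M.Group →* Q}
    (h : IsQuot M π) : ∃ (δ : S → ℝ) (s0 : S), δ s0 ≠ 0 ∧ ∀ F : Finset (Finset S),
      (∀ J ∈ F, J ≠ univ ∧ Con (diag M) J) → ∀ f : Finset S → ℝ, (∃ J ∈ F, f J ≠ 0) →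
      (∀ i, zf (posR M) F f i * δ s0 = δ i * zf (posR M) F f s0) →
      ∑ J ∈ F, ∑ K ∈ F, f J * f K * tl (kR M) (posR M) J K < 0 := by
  by_cases hinj : Function.Injective π
  · have hfinG : Finite M.Group := Finite.of_injective π hinj
    have hSph : ∀ J : Finset S, Sph M J := fun J => by
      unfold Sph
      infer_instance
    have hL : LR (kR M) (fun _ => True) (posR M) := LR_posR M (fun _ => True) fun J _ => hSph J
    obtain ⟨s0, -⟩ := h.irr.1
    have h1 : Pi.single s0 1 ∈ posR M univ := hL.single univ trivial s0 (mem_univ s0)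
    have h2 : (1 : ℝ) ≤ rho (posR M) univ s0 := by
      unfold rho
      rw [Finset.sum_apply]
      have h3 : ∀ r ∈ posR M univ, 0 ≤ r s0 := fun r hr => hL.nonneg univ trivial r hr s0
      have h4 := Finset.single_le_sum h3 h1
      rwa [Pi.single_eq_same] at h4
    have h0 : rho (posR M) univ s0 ≠ 0 := by linarith
    refine ⟨rho (posR M) univ, s0, h0, fun F hF f hf hz => ?_⟩
    exact neg_fin hL (LocC_diag M) h.irr hF hf (LocC_smul h0 hz)
  · rw [injective_iff_map_eq_one] at hinj
    push Not at hinj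
    obtain ⟨g, hg, hg1⟩ := hinj
    have hne : titsHom M g ≠ 1 := by
      intro h1
      apply hg1
      apply tits_injective M
      rw [h1, map_one]
    obtain ⟨x, hx⟩ : ∃ x : S → ℝ, (titsHom M g).mulVec x ≠ x := by
      by_contra hcon
      push Not at hcon
      apply hne
      apply Matrix.ext_of_mulVec_single
      intro i
      rw [hcon, Matrix.one_mulVec]
    have hδ : (titsHom M g).mulVec x - x ≠ 0 := sub_ne_zero.2 hx
    obtain ⟨s0, hs0⟩ := Function.ne_iff.1 hδ
    have h0 : ((titsHom M g).mulVec x - x) s0 ≠ 0 := hs0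
    have hb : bf (kR M) ((titsHom M g).mulVec x - x) ((titsHom M g).mulVec x - x) = 0 := by
      unfold bf
      apply Finset.sum_eq_zero
      intro u _
      have h1 := h.act g hg x u
      have h2 : ∑ v, kR M u v * ((titsHom M g).mulVec x - x) u * ((titsHom M g).mulVec x - x) v =
          ((titsHom M g).mulVec x - x) u * ∑ v, kR M u v * ((titsHom M g).mulVec x v - x v) := by
        rw [Finset.mul_sum]
        apply Finset.sum_congr rfl
        intro v _
        rw [Pi.sub_apply, Pi.sub_apply]
        ring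
      rw [h2, h1, mul_zero]
    have hL : LR (kR M) (fun J => J ≠ univ) (posR M) := LR_posR M (fun J => J ≠ univ) h.fin
    have hdown : ∀ J K : Finset S, J ≠ univ → K ⊆ J → K ≠ univ := by
      intro J K hJ hKJ hK
      apply hJ
      rw [hK] at hKJ
      exact Finset.eq_univ_of_forall fun a => hKJ (mem_univ a)
    refine ⟨(titsHom M g).mulVec x - x, s0, h0, fun F hF f hf hz => ?_⟩
    exact neg_rad hL hdown (LocC_diag M) hF hf hb (LocC_smul h0 hz)

end Pool.Agent.H78.RC
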