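import Pool.Agent.H78.RC.LocA

/-!
# Project RC: the quadratic form of the local matrix

`h : LR k ok P` (the positive roots of the parabolic subsystems); `B = bf k`, `e s = Pi.single s 1`,
`ρ_J = rho P J`. All statements are elementary consequences of the structure `LR`.

* `rho_single`: the involution `r ↦ r - B r (e s) • e s` maps `P J \ {e s}` to itself (`refl`; the image is not
  `e s`: otherwise `r = c • e s`, and `r ≥ 0`, the norm give `r = e s`; involution: `B (e s) (e s) = 2`). So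
  `B` of the image with `e s` is `-B r (e s)`, and the sum of `B r (e s)` over `P J \ {e s}` is zero.
* `bf_rho`: `x = ∑_{i ∈ J} x_i • e i`.
* `bf_nonpos`: by `supp`, `mem`, `nonneg` there are `i ∉ K` with `r_i > 0`, `r'_i = 0` and `j ∉ J` with
  `r'_j > 0`, `r_j = 0`. If `c = B r r' > 0` then `r - c r'` is positive at `i` and negative at `j`, contradiction
  to `mix`.
* `tl_eq`: `P J = A ⊔ C`, `P K = A' ⊔ C`, `C = P J ∩ P K`.
  `B ρ_J ρ_K = ∑_{A × A'} B r r' + ∑_{r ∈ C} B r ρ_K + ∑_{r' ∈ C} B (ρ_J - ∑_C r) r'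
     = ∑_{A × A'} B r r' + ∑_{r ∈ C} 2 ht r + ∑_{r' ∈ C} 2 ht r' - ∑_{C × C} B r r'`; and
  `∑_{r ∈ C, r' ∈ C} B r r' = ∑_{r ∈ C} 2 ht r`, because `C = P (J ∩ K)` (`mem`, `mono`) and `bf_rho`
  (`ok (J ∩ K)` is needed: `hdown`). On `A × A'` `B r r' ≤ 0` (`bf_nonpos`), so `-|B r r'| = B r r'`.
* `quad`: `tl_eq` for `J, K ∈ F`; `∑_{J,K} f_J f_K ∑_{r ∈ P J ∩ P K} 2 ht r = ∑_r 2 ht r (∑_{J ∋ r} f_J)²`, the sum
  over `r ∈ F.biUnion P`.
* `zf_eq`: exchange the sums.
-/

set_option autoImplicit false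

open Finset

namespace Pool.Agent.H78.RC

variable {S : Type} [Fintype S] [DecidableEq S] {k : S → S → ℝ} {ok : Finset S → Prop}
  {P : Finset S → Finset (S → ℝ)}

theorem rho_single (h : LR k ok P) {J : Finset S} (hJ : ok J) {s : S} (hs : s ∈ J) :
    bf k (rho P J) (Pi.single s 1) = 2 := by
  classical
  set e : S → ℝ := Pi.single s 1 with he
  have hee : bf k e e = 2 := by rw [he, bf_single, h.two]
  have hes : e s = 1 := by rw [he, Pi.single_eq_same]
  have hmem : e ∈ P J := h.single J hJ s hs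
  unfold rho
  rw [bf_sum_left, ← Finset.add_sum_erase _ _ hmem, hee]
  have hz : ∑ r ∈ (P J).erase e, bf k r e = 0 := by
    refine Finset.sum_involution (fun r _ => r - bf k r e • e) ?_ ?_ ?_ ?_
    · intro r _
      show bf k r e + bf k (r - bf k r e • e) e = 0
      rw [bf_sub_left, bf_smul_left, hee]
      ring
    · intro r _ hne heq
      apply hne
      have h1 := congrFun heq s
      simp only [Pi.sub_apply, Pi.smul_apply, smul_eq_mul, hes, mul_one] at h1
      linarith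
    · intro r hr
      rw [Finset.mem_erase] at hr ⊢
      refine ⟨?_, h.refl J hJ s hs r hr.2 hr.1⟩
      intro heq
      apply hr.1
      have h1 : r = (1 + bf k r e) • e := by
        rw [add_smul, one_smul]
        exact sub_eq_iff_eq_add.1 heq
      have h2 := h.norm J hJ r hr.2
      set c := bf k r e with hc
      rw [h1, bf_smul_left, bf_smul_right, hee] at h2
      have h3 := h.nonneg J hJ r hr.2 s
      rw [h1] at h3
      simp only [Pi.smul_apply, smul_eq_mul, hes, mul_one] at h3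
      have h4 : (1 + c) * (1 + c) = 1 := by linarith
      have h5 : 1 + c = 1 := by nlinarith
      rw [h1, h5, one_smul]
    · intro r _
      show r - bf k r e • e - bf k (r - bf k r e • e) e • e = r
      rw [bf_sub_left, bf_smul_left, hee]
      funext i
      simp only [Pi.sub_apply, Pi.smul_apply, smul_eq_mul]
      ring
  rw [hz, add_zero]

private theorem locQ_expand (k : S → S → ℝ) (y x : S → ℝ) :
    bf k y x = ∑ v, x v * bf k y (Pi.single v 1) := by
  have h1 : x = ∑ v, x v • (Pi.single v 1 : S → ℝ) := by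
    funext i
    rw [Finset.sum_apply, Finset.sum_eq_single i]
    · rw [Pi.smul_apply, Pi.single_eq_same, smul_eq_mul, mul_one]
    · intro b _ hb
      rw [Pi.smul_apply, Pi.single_eq_of_ne hb.symm, smul_zero]
    · intro hi
      exact absurd (Finset.mem_univ i) hi
  conv_lhs => rw [h1]
  rw [bf_sum_right]
  exact Finset.sum_congr rfl fun v _ => bf_smul_right k (x v) y _

theorem bf_rho (h : LR k ok P) {J : Finset S} (hJ : ok J) {x : S → ℝ}
    (hx : ∀ i, i ∉ J → x i = 0) : bf k (rho P J) x = 2 * ht x := by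
  rw [locQ_expand]
  unfold ht
  rw [Finset.mul_sum]
  refine Finset.sum_congr rfl fun v _ => ?_
  by_cases hv : v ∈ J
  · rw [rho_single h hJ hv, mul_comm]
  · rw [hx v hv, zero_mul, mul_zero]

theorem bf_nonpos (h : LR k ok P) {J K : Finset S} (hJ : ok J) (hK : ok K) {r r' : S → ℝ}
    (hr : r ∈ P J) (hr' : r' ∈ P K) (h1 : r ∉ P K) (h2 : r' ∉ P J) : bf k r r' ≤ 0 := by
  obtain ⟨i, hi, hri⟩ : ∃ i, i ∉ K ∧ r i ≠ 0 := by
    by_contra hcon
    push Not at hcon
    exact h1 (h.mem J K hJ hK r hr hcon)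
  obtain ⟨j, hj, hrj⟩ : ∃ j, j ∉ J ∧ r' j ≠ 0 := by
    by_contra hcon
    push Not at hcon
    exact h2 (h.mem K J hK hJ r' hr' hcon)
  have h3 : 0 < r i := lt_of_le_of_ne (h.nonneg J hJ r hr i) (Ne.symm hri)
  have h4 : 0 < r' j := lt_of_le_of_ne (h.nonneg K hK r' hr' j) (Ne.symm hrj)
  have h5 : r' i = 0 := h.supp K hK r' hr' i hi
  have h6 : r j = 0 := h.supp J hJ r hr j hj
  by_contra hc
  rw [not_le] at hc
  rcases h.mix J K hJ hK r hr r' hr' with h7 | h7
  · have h8 := h7 j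
    simp only [Pi.sub_apply, Pi.smul_apply, smul_eq_mul] at h8
    rw [h6] at h8
    have h9 := mul_pos hc h4
    linarith
  · have h8 := h7 i
    simp only [Pi.sub_apply, Pi.smul_apply, smul_eq_mul] at h8
    rw [h5, mul_zero] at h8
    linarith

private theorem locQ_cap (h : LR k ok P) (hdown : ∀ J K, ok J → K ⊆ J → ok K) {J K : Finset S}
    (hJ : ok J) (hK : ok K) (r : S → ℝ) : (r ∈ P J ∧ r ∈ P K) ↔ r ∈ P (J ∩ K) := by
  have hJK : ok (J ∩ K) := hdown J _ hJ Finset.inter_subset_left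
  constructor
  · rintro ⟨h1, h2⟩
    refine h.mem J _ hJ hJK r h1 fun i hi => ?_
    rw [Finset.mem_inter, not_and_or] at hi
    rcases hi with hi | hi
    · exact h.supp J hJ r h1 i hi
    · exact h.supp K hK r h2 i hi
  · intro h1
    exact ⟨h.mono hJ hJK Finset.inter_subset_left h1, h.mono hK hJK Finset.inter_subset_right h1⟩

private theorem locQ_rho (h : LR k ok P) {J : Finset S} (hJ : ok J) {r : S → ℝ} (hr : r ∈ P J) :
    ∑ r' ∈ P J, bf k r r' = 2 * ht r := by
  rw [← bf_rho h hJ fun i hi => h.supp J hJ r hr i hi, bf_comm h.symm]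
  unfold rho
  rw [bf_sum_right]

open Classical in
theorem tl_eq (h : LR k ok P) (hdown : ∀ J K, ok J → K ⊆ J → ok K) {J K : Finset S} (hJ : ok J)
    (hK : ok K) : tl k P J K = bf k (rho P J) (rho P K) - ∑ r ∈ P J ∩ P K, 2 * ht r := by
  have hJK : ok (J ∩ K) := hdown J _ hJ Finset.inter_subset_left
  have hC : P J ∩ P K = P (J ∩ K) := by
    ext r
    rw [Finset.mem_inter]
    exact locQ_cap h hdown hJ hK r
  have hb : bf k (rho P J) (rho P K) = ∑ r ∈ P J, ∑ r' ∈ P K, bf k r r' := by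
    unfold rho
    rw [bf_sum_left]
    exact Finset.sum_congr rfl fun r _ => bf_sum_right k _ _ _
  have hsJ : ∀ g : (S → ℝ) → ℝ, ∑ r ∈ P J, g r = ∑ r ∈ P J \ P K, g r + ∑ r ∈ P J ∩ P K, g r := by
    intro g
    have h1 := Finset.sum_sdiff (f := g) (Finset.inter_subset_left (s₁ := P J) (s₂ := P K))
    rw [Finset.sdiff_inter_self_left] at h1
    exact h1.symm
  have hsK : ∀ g : (S → ℝ) → ℝ, ∑ r ∈ P K, g r = ∑ r ∈ P K \ P J, g r + ∑ r ∈ P J ∩ P K, g r := by
    intro g
    have h1 := Finset.sum_sdiff (f := g) (Finset.inter_subset_right (s₁ := P J) (s₂ := P K))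
    rw [Finset.sdiff_inter_self_right] at h1
    exact h1.symm
  have hrow : ∑ r ∈ P J ∩ P K, ∑ r' ∈ P K, bf k r r' = ∑ r ∈ P J ∩ P K, 2 * ht r :=
    Finset.sum_congr rfl fun r hr => locQ_rho h hK (Finset.mem_inter.1 hr).2
  have hcol : ∑ r ∈ P J, ∑ r' ∈ P J ∩ P K, bf k r r' = ∑ r ∈ P J ∩ P K, 2 * ht r := by
    rw [Finset.sum_comm]
    refine Finset.sum_congr rfl fun r hr => ?_
    rw [← locQ_rho h hJ (Finset.mem_inter.1 hr).1]
    exact Finset.sum_congr rfl fun r' _ => bf_comm h.symm _ _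
  have hcc : ∑ r ∈ P J ∩ P K, ∑ r' ∈ P J ∩ P K, bf k r r' = ∑ r ∈ P J ∩ P K, 2 * ht r := by
    rw [hC]
    exact Finset.sum_congr rfl fun r hr => locQ_rho h hJK hr
  have habs : tl k P J K = ∑ r ∈ P J \ P K, ∑ r' ∈ P K \ P J, bf k r r' := by
    unfold tl
    rw [← Finset.sum_neg_distrib]
    refine Finset.sum_congr (by congr) fun r hr => ?_
    rw [← Finset.sum_neg_distrib]
    refine Finset.sum_congr (by congr) fun r' hr' => ?_
    rw [Finset.mem_sdiff] at hr hr'
    rw [abs_of_nonpos (bf_nonpos h hJ hK hr.1 hr'.1 hr.2 hr'.2), neg_neg]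
  rw [habs, hb]
  have h1 : ∑ r ∈ P J, ∑ r' ∈ P K, bf k r r' =
      ∑ r ∈ P J \ P K, ∑ r' ∈ P K \ P J, bf k r r' +
        ∑ r ∈ P J \ P K, ∑ r' ∈ P J ∩ P K, bf k r r' +
        ∑ r ∈ P J ∩ P K, ∑ r' ∈ P K, bf k r r' := by
    rw [hsJ, ← Finset.sum_add_distrib]
    congr 1
    exact Finset.sum_congr rfl fun r _ => hsK _
  have h2 := hsJ fun r => ∑ r' ∈ P J ∩ P K, bf k r r'
  rw [hcol, hcc] at h2
  rw [h1, hrow]
  linarith

/-- the vector of a function on sets -/
noncomputable def zf (P : Finset S → Finset (S → ℝ)) (F : Finset (Finset S)) (f : Finset S → ℝ) :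
    S → ℝ := ∑ J ∈ F, f J • rho P J

open Classical in
/-- the coefficient of the root `r` -/
noncomputable def yf (P : Finset S → Finset (S → ℝ)) (F : Finset (Finset S)) (f : Finset S → ℝ)
    (r : S → ℝ) : ℝ := ∑ J ∈ F.filter fun J => r ∈ P J, f J

open Classical in
theorem quad (h : LR k ok P) (hdown : ∀ J K, ok J → K ⊆ J → ok K) (F : Finset (Finset S))
    (hF : ∀ J ∈ F, ok J) (f : Finset S → ℝ) :
    ∑ J ∈ F, ∑ K ∈ F, f J * f K * tl k P J K =
      bf k (zf P F f) (zf P F f) - 2 * ∑ r ∈ F.biUnion P, ht r * yf P F f r ^ 2 := by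
  have hb : bf k (zf P F f) (zf P F f) =
      ∑ J ∈ F, ∑ K ∈ F, f J * f K * bf k (rho P J) (rho P K) := by
    unfold zf
    rw [bf_sum_left]
    refine Finset.sum_congr rfl fun J _ => ?_
    rw [bf_sum_right]
    refine Finset.sum_congr rfl fun K _ => ?_
    rw [bf_smul_left, bf_smul_right]
    ring
  have hy : ∑ J ∈ F, ∑ K ∈ F, f J * f K * ∑ r ∈ P J ∩ P K, 2 * ht r =
      2 * ∑ r ∈ F.biUnion P, ht r * yf P F f r ^ 2 := by
    have h1 : ∀ J ∈ F, ∀ K ∈ F, f J * f K * ∑ r ∈ P J ∩ P K, 2 * ht r =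
        ∑ r ∈ F.biUnion P, (if r ∈ P J then f J else 0) * (if r ∈ P K then f K else 0) *
          (2 * ht r) := by
      intro J hJ K hK
      have h2 : P J ∩ P K ⊆ F.biUnion P := fun r hr =>
        Finset.mem_biUnion.2 ⟨J, hJ, (Finset.mem_inter.1 hr).1⟩
      rw [← Finset.sum_subset h2, Finset.mul_sum]
      · refine Finset.sum_congr rfl fun r hr => ?_
        rw [Finset.mem_inter] at hr
        rw [if_pos hr.1, if_pos hr.2]
      · intro r _ hr
        rw [Finset.mem_inter, not_and_or] at hr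
        rcases hr with hr | hr
        · rw [if_neg hr, zero_mul, zero_mul]
        · rw [if_neg hr, mul_zero, zero_mul]
    rw [Finset.sum_congr rfl fun J hJ => Finset.sum_congr rfl fun K hK => h1 J hJ K hK]
    rw [Finset.sum_congr rfl fun J _ => Finset.sum_comm, Finset.sum_comm, Finset.mul_sum]
    refine Finset.sum_congr rfl fun r _ => ?_
    have h3 : yf P F f r = ∑ J ∈ F, if r ∈ P J then f J else 0 := by
      unfold yf
      rw [Finset.sum_filter]
    rw [h3, sq, Finset.sum_mul_sum, Finset.mul_sum, Finset.mul_sum]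
    refine Finset.sum_congr rfl fun J _ => ?_
    rw [Finset.mul_sum, Finset.mul_sum]
    refine Finset.sum_congr rfl fun K _ => ?_
    ring
  rw [hb, ← hy, ← Finset.sum_sub_distrib]
  refine Finset.sum_congr rfl fun J hJ => ?_
  rw [← Finset.sum_sub_distrib]
  refine Finset.sum_congr rfl fun K hK => ?_
  rw [tl_eq h hdown (hF J hJ) (hF K hK)]
  ring

open Classical in
theorem zf_eq (P : Finset S → Finset (S → ℝ)) (F : Finset (Finset S)) (f : Finset S → ℝ) :
    zf P F f = ∑ r ∈ F.biUnion P, yf P F f r • r := by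
  have h3 : ∀ r, yf P F f r = ∑ J ∈ F, if r ∈ P J then f J else 0 := by
    intro r
    unfold yf
    rw [Finset.sum_filter]
  rw [Finset.sum_congr rfl fun r _ => by rw [h3 r, Finset.sum_smul], Finset.sum_comm]
  unfold zf
  refine Finset.sum_congr rfl fun J hJ => ?_
  have h2 : P J ⊆ F.biUnion P := fun r hr => Finset.mem_biUnion.2 ⟨J, hJ, hr⟩
  unfold rho
  rw [Finset.smul_sum, ← Finset.sum_subset h2]
  · refine Finset.sum_congr rfl fun r hr => ?_
    rw [if_pos hr]
  · intro r _ hr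
    rw [if_neg hr, zero_smul]

end Pool.Agent.H78.RC
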