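import Mathlib

/-!
# Project RC: real matrices can be replaced by integer matrices

Let `T' u v = round (N * T u v)` for a large natural number `N`. Zeros stay zeros. If `T u v < 0` and
`N * |T u v| ≥ 1` then `T' u v ≤ -1 + 1/2 < 0`. Let `q f = ∑ u v, f u f v T u v`. For each `a` the set
`{f ∈ E a, ∑ u, f u ^ 2 = 1}` is compact and `q < 0` there, so there is `ε_a > 0` with
`q f ≤ - ε_a ∑ u, f u ^ 2` on `E a` (homogeneity; if the set is empty, any `ε_a`). `|T' u v - N T u v| ≤ 1/2`, so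
`∑ u v, f u f v T' u v ≤ N q f + 1/2 (∑ u, |f u|)² ≤ (- N ε_a + |V| / 2) ∑ u, f u ^ 2 < 0` for `N` large (finitely
many `a`, `u`, `v`).
-/

set_option autoImplicit false

open Finset

namespace Pool.Agent.H78.RC

theorem rInt_eps {V : Type} [Fintype V] (T : V → V → ℝ) (E : Submodule ℝ (V → ℝ))
    (hE : ∀ f ∈ E, f ≠ 0 → ∑ u, ∑ v, f u * f v * T u v < 0) :
    ∃ ε : ℝ, 0 < ε ∧ ∀ f ∈ E, ∑ u, ∑ v, f u * f v * T u v ≤ -ε * ∑ u, f u ^ 2 := by
  classical
  set K : Set (V → ℝ) := {f | f ∈ E ∧ ∑ u, f u ^ 2 = 1} with hK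
  have hcomp : IsCompact K := by
    have h1 : IsClosed K := by
      have h2 : IsClosed {f : V → ℝ | f ∈ E} := E.closed_of_finiteDimensional
      have h3 : IsClosed {f : V → ℝ | ∑ u, f u ^ 2 = 1} :=
        isClosed_eq (by fun_prop) continuous_const
      exact h2.inter h3
    refine (isCompact_closedBall (0 : V → ℝ) 1).of_isClosed_subset h1 ?_
    intro f hf
    rw [mem_closedBall_zero_iff, pi_norm_le_iff_of_nonneg zero_le_one]
    intro u
    have h4 : f u ^ 2 ≤ ∑ u, f u ^ 2 :=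
      single_le_sum (f := fun u => f u ^ 2) (fun v _ => sq_nonneg (f v)) (mem_univ u)
    rw [hf.2] at h4
    rw [Real.norm_eq_abs]
    exact abs_le_one_iff_mul_self_le_one.2 (by rw [← sq]; exact h4)
  have hpos : ∀ f : V → ℝ, f ≠ 0 → 0 < ∑ u, f u ^ 2 := by
    intro f hf
    obtain ⟨u, hu⟩ := Function.ne_iff.1 hf
    have hu' : f u ≠ 0 := hu
    exact sum_pos' (fun v _ => sq_nonneg (f v)) ⟨u, mem_univ u, by positivity⟩
  have hexists : ∃ ε : ℝ, 0 < ε ∧ ∀ f ∈ K, ∑ u, ∑ v, f u * f v * T u v ≤ -ε := by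
    rcases K.eq_empty_or_nonempty with h0 | h0
    · refine ⟨1, one_pos, fun f hf => ?_⟩
      rw [h0] at hf
      exact hf.elim
    · obtain ⟨f0, hf0, hmax⟩ := hcomp.exists_isMaxOn h0
        (f := fun f : V → ℝ => ∑ u, ∑ v, f u * f v * T u v) (by fun_prop)
      have hne : f0 ≠ 0 := by
        rintro rfl
        have := hf0.2
        simp at this
      refine ⟨-∑ u, ∑ v, f0 u * f0 v * T u v, ?_, fun f hf => ?_⟩
      · have := hE f0 hf0.1 hne
        linarith
      · have := hmax hf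
        rw [neg_neg]
        exact this
  obtain ⟨ε, hε, h⟩ := hexists
  refine ⟨ε, hε, fun f hf => ?_⟩
  by_cases h0 : f = 0
  · subst h0
    simp
  · have hs := hpos f h0
    set s : ℝ := ∑ u, f u ^ 2 with hsdef
    have hg : (Real.sqrt s)⁻¹ • f ∈ K := by
      refine ⟨E.smul_mem _ hf, ?_⟩
      have : ∀ u, ((Real.sqrt s)⁻¹ • f) u ^ 2 = s⁻¹ * f u ^ 2 := by
        intro u
        rw [Pi.smul_apply, smul_eq_mul, mul_pow, inv_pow, Real.sq_sqrt hs.le]
      simp_rw [this]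
      rw [← mul_sum, ← hsdef, inv_mul_cancel₀ hs.ne']
    have h1 := h _ hg
    have h2 : ∑ u, ∑ v, ((Real.sqrt s)⁻¹ • f) u * ((Real.sqrt s)⁻¹ • f) v * T u v =
        s⁻¹ * ∑ u, ∑ v, f u * f v * T u v := by
      rw [mul_sum]
      refine sum_congr rfl fun u _ => ?_
      rw [mul_sum]
      refine sum_congr rfl fun v _ => ?_
      have h3 : (Real.sqrt s)⁻¹ * (Real.sqrt s)⁻¹ = s⁻¹ := by
        rw [← mul_inv, Real.mul_self_sqrt hs.le]
      rw [Pi.smul_apply, Pi.smul_apply, smul_eq_mul, smul_eq_mul, ← h3]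
      ring
    rw [h2, inv_mul_le_iff₀ hs] at h1
    linarith

theorem rInt_sum {V : Type} [Fintype V] (f : V → ℝ) (D : V → V → ℝ)
    (hD : ∀ u v, |D u v| ≤ 1 / 2) :
    ∑ u, ∑ v, f u * f v * D u v ≤ (Fintype.card V : ℝ) / 2 * ∑ u, f u ^ 2 := by
  have h1 : ∑ u, ∑ v, f u * f v * D u v ≤ ∑ u, ∑ v, |f u| * |f v| * (1 / 2) := by
    refine sum_le_sum fun u _ => sum_le_sum fun v _ => ?_
    calc f u * f v * D u v ≤ |f u * f v * D u v| := le_abs_self _
      _ = |f u| * |f v| * |D u v| := by rw [abs_mul, abs_mul]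
      _ ≤ |f u| * |f v| * (1 / 2) := by
        exact mul_le_mul_of_nonneg_left (hD u v) (by positivity)
  have h2 : ∑ u, ∑ v, |f u| * |f v| * (1 / 2) = (1 / 2) * (∑ u, |f u|) ^ 2 := by
    rw [sq, sum_mul_sum, mul_sum]
    refine sum_congr rfl fun u _ => ?_
    rw [mul_sum]
    exact sum_congr rfl fun v _ => by ring
  have h3 : (∑ u, |f u|) ^ 2 ≤ (Fintype.card V : ℝ) * ∑ u, f u ^ 2 := by
    have := sq_sum_le_card_mul_sum_sq (s := (univ : Finset V)) (f := fun u => |f u|)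
    simpa [sq_abs] using this
  rw [h2] at h1
  calc ∑ u, ∑ v, f u * f v * D u v ≤ (1 / 2) * (∑ u, |f u|) ^ 2 := h1
    _ ≤ (1 / 2) * ((Fintype.card V : ℝ) * ∑ u, f u ^ 2) := by linarith
    _ = _ := by ring

theorem exists_int {V ι : Type} [Fintype V] [Finite ι] (T : V → V → ℝ)
    (hs : ∀ u v, T u v = T v u) (E : ι → Submodule ℝ (V → ℝ))
    (hE : ∀ a, ∀ f ∈ E a, f ≠ 0 → ∑ u, ∑ v, f u * f v * T u v < 0) :
    ∃ T' : V → V → ℤ, (∀ u v, T' u v = T' v u) ∧ (∀ u v, T u v = 0 → T' u v = 0) ∧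
      (∀ u v, T u v < 0 → T' u v < 0) ∧
      ∀ a, ∀ f ∈ E a, f ≠ 0 → ∑ u, ∑ v, f u * f v * (T' u v : ℝ) < 0 := by
  classical
  choose ε hε hq using fun a => rInt_eps T (E a) (hE a)
  have h1 : ∀ᶠ N : ℕ in Filter.atTop, ∀ a, (Fintype.card V : ℝ) / 2 < N * ε a := by
    rw [Filter.eventually_all]
    intro a
    have : Filter.Tendsto (fun N : ℕ => (N : ℝ) * ε a) Filter.atTop Filter.atTop :=
      tendsto_natCast_atTop_atTop.atTop_mul_const (hε a)
    exact this.eventually_gt_atTop _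
  have h2 : ∀ᶠ N : ℕ in Filter.atTop, ∀ u v, T u v < 0 → (N : ℝ) * T u v < -1 := by
    rw [Filter.eventually_all]
    intro u
    rw [Filter.eventually_all]
    intro v
    by_cases h : T u v < 0
    · have : Filter.Tendsto (fun N : ℕ => (N : ℝ) * T u v) Filter.atTop Filter.atBot :=
        tendsto_natCast_atTop_atTop.atTop_mul_const_of_neg h
      filter_upwards [this.eventually_lt_atBot (-1)] with N hN _ using hN
    · exact Filter.Eventually.of_forall fun N h' => absurd h' h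
  obtain ⟨N, hN1, hN2⟩ := (h1.and h2).exists
  refine ⟨fun u v => round ((N : ℝ) * T u v), fun u v => ?_, fun u v h0 => ?_, fun u v h0 => ?_,
    fun a f hf h0 => ?_⟩
  · simp only [hs u v]
  · simp only [h0, mul_zero, round_zero]
  · have h3 := abs_sub_round ((N : ℝ) * T u v)
    have h4 := hN2 u v h0
    have h5 : ((round ((N : ℝ) * T u v) : ℤ) : ℝ) < 0 := by
      have := (abs_le.1 h3).1
      linarith
    exact_mod_cast h5
  · have h3 : ∑ u, ∑ v, f u * f v * ((round ((N : ℝ) * T u v) : ℤ) : ℝ) =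
        N * ∑ u, ∑ v, f u * f v * T u v +
          ∑ u, ∑ v, f u * f v * (((round ((N : ℝ) * T u v) : ℤ) : ℝ) - N * T u v) := by
      rw [mul_sum, ← sum_add_distrib]
      refine sum_congr rfl fun u _ => ?_
      rw [mul_sum, ← sum_add_distrib]
      exact sum_congr rfl fun v _ => by ring
    have h4 := rInt_sum f (fun u v => ((round ((N : ℝ) * T u v) : ℤ) : ℝ) - N * T u v)
      (fun u v => by
        rw [abs_sub_comm]
        exact abs_sub_round _)
    have h5 := hq a f hf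
    have h6 : 0 < ∑ u, f u ^ 2 := by
      obtain ⟨u, hu⟩ := Function.ne_iff.1 h0
      exact sum_pos' (fun v _ => sq_nonneg (f v)) ⟨u, mem_univ u, by
        have : f u ≠ 0 := hu
        positivity⟩
    have h7 : (N : ℝ) * ∑ u, ∑ v, f u * f v * T u v ≤ N * (-ε a * ∑ u, f u ^ 2) :=
      mul_le_mul_of_nonneg_left h5 (Nat.cast_nonneg N)
    have h8 := mul_lt_mul_of_pos_right (hN1 a) h6
    rw [h3]
    calc _ ≤ (N : ℝ) * (-ε a * ∑ u, f u ^ 2) + (Fintype.card V : ℝ) / 2 * ∑ u, f u ^ 2 :=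
          add_le_add h7 h4
      _ < 0 := by
        have : (N : ℝ) * (-ε a * ∑ u, f u ^ 2) = -(N * ε a * ∑ u, f u ^ 2) := by ring
        linarith

end Pool.Agent.H78.RC
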