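import Pool.Agent.H78.RC.Sph
import Pool.Agent.H78.RC.LocC
import Pool.Agent.H78.RC.RInt
import Pool.Agent.H78.RC.Blow
import Pool.Agent.H19.Cub.Transf

/-!
# Project RC: the main theorem

* `exists_fold`: let `δ`, `s0` be as in `exists_loc`, `F` the set of the connected proper subsets,
  `E x` the subspace of the `f : Finset Q → ℝ` with `f L = 0` for `L ∉ labF x` and
  `z_i δ_{s0} = δ_i z_{s0}`, `z = zf (posR M) F (fun J => f (lbl M π x J))`. On `E x` the quadratic form of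
  `T = tQ M π` is `∑_{J,K ∈ F} f_J f_K tl J K` (`tQ_lbl`, the bijection), so it is negative for `f ≠ 0`. `exists_int`
  gives `T'`. `IsT`: `tQ_symm`, `tQ_zero`. `IsFoldOn` at `x`: `sphere` is `lab_sphere`, `neg`: `tQ < 0` for
  labels of `x` which are not adjacent (`adj_iff`, `tQ_lbl`, `tl_negM`), `ndef`: the functionals are numbered by
  the `i ≠ s0` (`Fin (card S - 1)` is equivalent to `{i // i ≠ s0}`):
  `φ_i L = ρ_J i * δ s0 - δ i * ρ_J s0` if `L = lbl x J`, `J ∈ F`, and `0` otherwise (`ρ_J = rho (posR M) J`); for `i = s0` the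
  equation is trivial.
* `blowup_over`: `CubeComplex.general`, `GoodAt` as in `moduli_over` (`Pool/Agent/H19/Cub/Main.lean`).
-/

set_option autoImplicit false

open Finset

namespace Pool.Agent.H78.RC

open Pool.Agent.H4.FC Pool.Agent.H19.Cub Pool.Agent.H85.Fold

variable {S : Type} [Fintype S] [DecidableEq S] {Q : Type} [Group Q] [Fintype Q] [DecidableEq Q]
  {M : CoxeterMatrix S} {π : M.Group →* Q}

/-- the functionals -/
noncomputable def mainPhi (M : CoxeterMatrix S) (π : M.Group →* Q) (F : Finset (Finset S))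
    (δ : S → ℝ) (s0 : S) (x : Q) (i : S) (L : Finset Q) : ℝ :=
  ∑ J ∈ F, if lbl M π x J = L then rho (posR M) J i * δ s0 - δ i * rho (posR M) J s0 else 0

theorem main_phi_sum (M : CoxeterMatrix S) (π : M.Group →* Q) (F : Finset (Finset S))
    (δ : S → ℝ) (s0 : S) (x : Q) (i : S) (f : Finset Q → ℝ) :
    ∑ L, mainPhi M π F δ s0 x i L * f L =
      zf (posR M) F (fun J => f (lbl M π x J)) i * δ s0 -
        δ i * zf (posR M) F (fun J => f (lbl M π x J)) s0 := by
  have hz : ∀ j : S, zf (posR M) F (fun J => f (lbl M π x J)) j =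
      ∑ J ∈ F, f (lbl M π x J) * rho (posR M) J j := by
    intro j
    unfold zf
    rw [Finset.sum_apply]
    exact Finset.sum_congr rfl fun J _ => by rw [Pi.smul_apply, smul_eq_mul]
  rw [hz, hz, Finset.sum_mul, Finset.mul_sum, ← Finset.sum_sub_distrib]
  have h1 : ∀ L : Finset Q, mainPhi M π F δ s0 x i L * f L =
      ∑ J ∈ F, if lbl M π x J = L then
        (rho (posR M) J i * δ s0 - δ i * rho (posR M) J s0) * f L else 0 := by
    intro L
    unfold mainPhi
    rw [Finset.sum_mul]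
    refine Finset.sum_congr rfl fun J _ => ?_
    split_ifs with h2
    · rfl
    · rw [zero_mul]
  rw [Finset.sum_congr rfl fun L _ => h1 L, Finset.sum_comm]
  refine Finset.sum_congr rfl fun J _ => ?_
  rw [Finset.sum_ite_eq]
  rw [if_pos (Finset.mem_univ _)]
  ring

theorem main_sum (h : IsQuot M π) (F : Finset (Finset S))
    (hF : ∀ J, J ∈ F ↔ J ≠ univ ∧ Con (diag M) J) (x : Q) (g : Finset Q → ℝ)
    (hg : ∀ L, g L ≠ 0 → L ∈ labF M π x) : ∑ L, g L = ∑ J ∈ F, g (lbl M π x J) := by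
  have e1 : ∑ L, g L = ∑ L ∈ labF M π x, g L :=
    (Finset.sum_subset (Finset.subset_univ _) fun L _ hL => by
      by_contra hne
      exact hL (hg L hne)).symm
  have e2 : labF M π x = F.image (lbl M π x) := by
    ext L
    rw [mem_labF, Finset.mem_image]
    constructor
    · rintro ⟨J, h1, h2, h3⟩
      exact ⟨J, (hF J).2 ⟨h1, h2⟩, h3⟩
    · rintro ⟨J, h1, h2⟩
      exact ⟨J, ((hF J).1 h1).1, ((hF J).1 h1).2, h2⟩
  rw [e1, e2, Finset.sum_image]
  intro J hJ K hK hJK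
  have hJ' := (hF J).1 hJ
  have hK' := (hF K).1 hK
  exact isLab_unique h (x := x) (L := lbl M π x K) ⟨hJ'.1, hJ'.2, hJK⟩ ⟨hK'.1, hK'.2, rfl⟩

theorem main_quad (h : IsQuot M π) (F : Finset (Finset S))
    (hF : ∀ J, J ∈ F ↔ J ≠ univ ∧ Con (diag M) J) (x : Q) (f : Finset Q → ℝ)
    (hf : ∀ L, f L ≠ 0 → L ∈ labF M π x) :
    ∑ u, ∑ v, f u * f v * tQ M π u v =
      ∑ J ∈ F, ∑ K ∈ F, f (lbl M π x J) * f (lbl M π x K) * tl (kR M) (posR M) J K := by
  rw [main_sum h F hF x (fun u => ∑ v, f u * f v * tQ M π u v)]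
  · refine Finset.sum_congr rfl fun J hJ => ?_
    rw [main_sum h F hF x (fun v => f (lbl M π x J) * f v * tQ M π (lbl M π x J) v)]
    · refine Finset.sum_congr rfl fun K hK => ?_
      rw [tQ_lbl h x ((hF J).1 hJ).1 ((hF K).1 hK).1]
    · intro L hL
      apply hf
      intro h0
      apply hL
      rw [h0]
      ring
  · intro L hL
    apply hf
    intro h0
    apply hL
    exact Finset.sum_eq_zero fun v _ => by rw [h0]; ring

/-- the subspace -/
def mainE (M : CoxeterMatrix S) (π : M.Group →* Q) (F : Finset (Finset S))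
    (δ : S → ℝ) (s0 : S) (x : Q) : Submodule ℝ (Finset Q → ℝ) where
  carrier := {f | (∀ L, L ∉ labF M π x → f L = 0) ∧
    ∀ i, ∑ L, mainPhi M π F δ s0 x i L * f L = 0}
  add_mem' := by
    rintro f g ⟨h1, h2⟩ ⟨h3, h4⟩
    refine ⟨fun L hL => ?_, fun i => ?_⟩
    · rw [Pi.add_apply, h1 L hL, h3 L hL, add_zero]
    · have h5 : ∑ L, mainPhi M π F δ s0 x i L * (f + g) L =
          ∑ L, mainPhi M π F δ s0 x i L * f L + ∑ L, mainPhi M π F δ s0 x i L * g L := by
        rw [← Finset.sum_add_distrib]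
        exact Finset.sum_congr rfl fun L _ => by rw [Pi.add_apply]; ring
      rw [h5, h2 i, h4 i, add_zero]
  zero_mem' := ⟨fun L _ => rfl, fun i => Finset.sum_eq_zero fun L _ => by
    rw [Pi.zero_apply, mul_zero]⟩
  smul_mem' := by
    rintro c f ⟨h1, h2⟩
    refine ⟨fun L hL => ?_, fun i => ?_⟩
    · rw [Pi.smul_apply, h1 L hL, smul_zero]
    · have h5 : ∑ L, mainPhi M π F δ s0 x i L * (c • f) L =
          c * ∑ L, mainPhi M π F δ s0 x i L * f L := by
        rw [Finset.mul_sum]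
        exact Finset.sum_congr rfl fun L _ => by rw [Pi.smul_apply, smul_eq_mul]; ring
      rw [h5, h2 i, mul_zero]

omit [DecidableEq Q] in
theorem main_neg (h : IsQuot M π) {x : Q} {u v : Finset Q} (hu : u ∈ labF M π x)
    (hv : v ∈ labF M π x) (huv : u ≠ v) (hn : ¬ (labG M π).Adj u v) : tQ M π u v < 0 := by
  obtain ⟨J, hJ⟩ := mem_labF.1 hu
  obtain ⟨K, hK⟩ := mem_labF.1 hv
  have hJK : J ≠ K := by
    rintro rfl
    exact huv (hJ.2.2.symm.trans hK.2.2)
  have h1 : ¬ (J ≠ K ∧ (J ⊆ K ∨ K ⊆ J ∨ Sep M J K)) := fun h2 => hn ((adj_iff h hJ hK).2 h2)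
  have h2 : ¬ J ⊆ K := fun h3 => h1 ⟨hJK, Or.inl h3⟩
  have h3 : ¬ K ⊆ J := fun h4 => h1 ⟨hJK, Or.inr (Or.inl h4)⟩
  have h4 : ¬ Sep M J K := fun h5 => h1 ⟨hJK, Or.inr (Or.inr h5)⟩
  have h5 := tl_negM h hJ.1 hK.1 hJ.2.1 hK.2.1 h2 h3 h4
  rw [← tQ_lbl h x hJ.1 hK.1, hJ.2.2, hK.2.2] at h5
  exact h5

theorem exists_fold (h : IsQuot M π) : ∃ T' : Finset Q → Finset Q → ℤ, IsT (labG M π) T' ∧
    ∀ x, IsFoldOn (labG M π) T' (Fintype.card S - 1) (labF M π x) := by
  classical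
  obtain ⟨δ, s0, hδ, hloc⟩ := exists_loc M h
  obtain ⟨F, hF⟩ : ∃ F : Finset (Finset S), ∀ J, J ∈ F ↔ J ≠ univ ∧ Con (diag M) J :=
    ⟨univ.filter fun J => J ≠ univ ∧ Con (diag M) J, fun J => by
      rw [Finset.mem_filter]
      exact ⟨fun h1 => h1.2, fun h1 => ⟨Finset.mem_univ _, h1⟩⟩⟩
  obtain ⟨T', h1, h2, h3, h4⟩ := exists_int (V := Finset Q) (ι := Q) (tQ M π) (tQ_symm h)
    (mainE M π F δ s0) (by
      rintro x f ⟨hf1, hf2⟩ hf0
      have hf3 : ∀ L, f L ≠ 0 → L ∈ labF M π x := fun L hL => by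
        by_contra hn
        exact hL (hf1 L hn)
      rw [main_quad h F hF x f hf3]
      refine hloc F (fun J hJ => (hF J).1 hJ) (fun J => f (lbl M π x J)) ?_ ?_
      · obtain ⟨L, hL⟩ := Function.ne_iff.1 hf0
        obtain ⟨J, hJ⟩ := mem_labF.1 (hf3 L hL)
        refine ⟨J, (hF J).2 ⟨hJ.1, hJ.2.1⟩, ?_⟩
        show f (lbl M π x J) ≠ 0
        rw [hJ.2.2]
        exact hL
      · intro i
        have h5 := hf2 i
        rw [main_phi_sum] at h5
        exact sub_eq_zero.1 h5)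
  refine ⟨T', ⟨h1, fun u v huv => h2 u v (tQ_zero h huv)⟩, fun x => ⟨lab_sphere h x, ?_, ?_⟩⟩
  · intro u hu v hv huv hn
    exact h3 u v (main_neg h hu hv huv hn)
  · have hc : Fintype.card {i : S // i ≠ s0} = Fintype.card S - 1 := by
      rw [Fintype.card_subtype_compl, Fintype.card_subtype_eq]
    let e : Fin (Fintype.card S - 1) ≃ {i : S // i ≠ s0} :=
      (Fintype.equivFinOfCardEq hc).symm
    refine ⟨fun k => mainPhi M π F δ s0 x (e k).1, fun f hf hf0 hk => h4 x f ⟨?_, ?_⟩ hf0⟩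
    · intro L hL
      by_contra hn
      exact hL (hf L hn)
    · intro i
      by_cases hi : i = s0
      · rw [hi, main_phi_sum]
        ring
      · have h5 := hk (e.symm ⟨i, hi⟩)
        beta_reduce at h5
        rw [Equiv.apply_symm_apply] at h5
        exact h5

/-- **Singer's conjecture for the minimal blow-ups.** -/
theorem blowup_over (M : CoxeterMatrix S) (π : M.Group →* Q) (h : IsQuot M π) {X : Type}
    [Fintype X] (C : CubeComplex (Finset Q) X) (hG : C.graph = (blowup M π h).graph)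
    (r : X → Q) (hr : ∀ x, C.lab x ⊆ (blowup M π h).lab (r x)) (i : ℕ)
    (hi : Fintype.card S - 1 < 2 * i ∨
      (∀ x, C.lab x = (blowup M π h).lab (r x)) ∧ 2 * i ≠ Fintype.card S - 1) (x : X) :
    Pool.Agent.H19.Cub.L2HomologyZero (C.cover x) i := by
  obtain ⟨T', h1, h2⟩ := exists_fold h
  have hG' : C.graph = labG M π := hG
  refine CubeComplex.general C T' (hG' ▸ h1) i (fun y => ?_) x
  rw [hG']
  rcases hi with hi | ⟨hi, hi'⟩
  · exact ⟨Fintype.card S - 1, _, h2 (r y), Or.inl ⟨hr y, hi⟩⟩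
  · exact ⟨Fintype.card S - 1, _, h2 (r y), Or.inr ⟨hi y, hi'⟩⟩

end Pool.Agent.H78.RC
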