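import Pool.Agent.H78.RC.Nest
import Pool.Agent.H78.RC.Inv

/-!
# Project RC: the labels of a chamber form a sphere

* `con_sep`: `→`: `M j j = 1 ≠ 2`, so disjoint; if `J ∪ K` were connected there would be an edge between `J` and `K`
  (`Con.exists_adj`). `←`: if `M j k ≠ 2` then `j ≠ k` (disjoint), so `j`, `k` are adjacent and `J ∪ K` is connected
  (`Con.union_adj`).
* `lab_sphere`: `J ↦ lbl M π x J` is a bijection from `CS (Con (diag M)) univ` (the connected proper subsets) to
  `labF M π x` (`isLab_unique`, `mem_labF`, `mem_CS`), and an isomorphism of graphs: `adj_iff`, `con_sep`.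
  `sphere_iso`, `nested_sphere` with `U = univ` (`SphOn` is by definition the statement about the comap).
-/

set_option autoImplicit false

open Finset

namespace Pool.Agent.H78.RC

open Pool.Agent.H4.FC Pool.Agent.H19.Cub Pool.Agent.H85.Fold

variable {S : Type} [Fintype S] [DecidableEq S] {Q : Type} [Group Q] [Fintype Q] [DecidableEq Q]
  {M : CoxeterMatrix S} {π : M.Group →* Q}

omit [Fintype S] in
theorem con_sep (M : CoxeterMatrix S) {J K : Finset S} (hJ : Con (diag M) J)
    (hK : Con (diag M) K) : Sep M J K ↔ Disjoint J K ∧ ¬ Con (diag M) (J ∪ K) := by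
  constructor
  · intro h
    have hd : Disjoint J K := by
      rw [Finset.disjoint_left]
      intro a ha haK
      have h1 := h a ha a haK
      rw [M.diagonal a] at h1
      omega
    refine ⟨hd, fun hc => ?_⟩
    obtain ⟨a, ha, b, hb, hab⟩ := hc.exists_adj hJ.1 hK.1 hd
    exact hab.2 (h a ha b hb)
  · rintro ⟨hd, hc⟩ a ha b hb
    by_contra hne
    refine hc (hJ.union_adj hK ha hb ⟨fun hab => ?_, hne⟩)
    rw [hab] at ha
    exact Finset.disjoint_left.1 hd ha hb

theorem lab_sphere (h : IsQuot M π) (x : Q) :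
    IsHomologySphere ((labG M π).comap (Subtype.val : {L // L ∈ labF M π x} → Finset Q))
      (Fintype.card S - 1) := by
  classical
  have hns : IsHomologySphere ((NG (Con (diag M))).comap
      (Subtype.val : {p // p ∈ CS (Con (diag M)) univ} → Finset S)) (Fintype.card S - 1) := by
    have h1 := nested_sphere (diag M) univ h.irr
    rw [Finset.card_univ] at h1
    exact h1
  have hlab : ∀ J : Finset S, J ∈ CS (Con (diag M)) univ → IsLab M π x (lbl M π x J) J := by
    intro J hJ
    rw [mem_CS] at hJ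
    exact ⟨hJ.2.1, hJ.2.2, rfl⟩
  have hinj : ∀ J ∈ CS (Con (diag M)) univ, ∀ K ∈ CS (Con (diag M)) univ,
      lbl M π x J = lbl M π x K → J = K := by
    intro J hJ K hK hJK
    have h1 := hlab J hJ
    rw [hJK] at h1
    exact isLab_unique h h1 (hlab K hK)
  let f : {p // p ∈ CS (Con (diag M)) univ} → {L // L ∈ labF M π x} := fun p =>
    ⟨lbl M π x p.1, mem_labF.2 ⟨p.1, hlab p.1 p.2⟩⟩
  have hf : Function.Bijective f := by
    constructor
    · rintro ⟨J, hJ⟩ ⟨K, hK⟩ hJK
      exact Subtype.ext (hinj J hJ K hK (congrArg Subtype.val hJK))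
    · rintro ⟨L, hL⟩
      obtain ⟨J, hJ1, hJ2, hJ3⟩ := mem_labF.1 hL
      exact ⟨⟨J, mem_CS.2 ⟨subset_univ J, hJ1, hJ2⟩⟩, Subtype.ext hJ3⟩
  have φ : (labG M π).comap (Subtype.val : {L // L ∈ labF M π x} → Finset Q) ≃g
      (NG (Con (diag M))).comap
        (Subtype.val : {p // p ∈ CS (Con (diag M)) univ} → Finset S) := by
    refine SimpleGraph.Iso.symm ⟨Equiv.ofBijective f hf, ?_⟩
    rintro ⟨J, hJ⟩ ⟨K, hK⟩
    have h1 := adj_iff h (hlab J hJ) (hlab K hK)
    have h2 := con_sep M (mem_CS.1 hJ).2.2 (mem_CS.1 hK).2.2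
    change (labG M π).Adj (lbl M π x J) (lbl M π x K) ↔
      (J ≠ K ∧ (J ⊆ K ∨ K ⊆ J ∨ (Disjoint J K ∧ ¬ Con (diag M) (J ∪ K))))
    rw [h1, h2]
  exact sphere_iso φ hns

end Pool.Agent.H78.RC
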